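import Pool.Agent.Work.MP_6f78fb_rk.Stmt

/-!
# The statement: subgroups acting freely on the variables, Hilbert function
-/

open scoped TensorProduct

noncomputable section

namespace Pool.RookLC

/-- The subgroup `H` of `S_n × S_m` acts freely on the variables `x_{a,j}` (the cells of the board):
no element of `H` other than the identity fixes a cell. -/
def FreeOn {n m : ℕ} (H : Subgroup (G n m)) : Prop :=
  ∀ g ∈ H, ∀ (a : Fin n) (j : Fin m), g.1 a = a → g.2 j = j → g = 1

/-- There is a surjective homomorphism of `H`-modules `V_i ⊗ V_i ↠ V_{i-1} ⊗ V_{i+1}`. -/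
def HasSurjOn {n m : ℕ} (H : Subgroup (G n m)) (r i : ℕ) : Prop :=
  ∃ Φ : TV n m r i i → TV n m r (i - 1) (i + 1), IsLinearMap ℂ Φ ∧ Function.Surjective Φ ∧
    ∀ g ∈ H, ∀ x : TV n m r i i,
      Φ (actTV n m r i i g x) = actTV n m r (i - 1) (i + 1) g (Φ x)

/-- `R(UZ_{n,m,r})` is `H`-equivariantly log-concave. -/
def EquivLogConcaveOn {n m : ℕ} (H : Subgroup (G n m)) (r : ℕ) : Prop :=
  ∀ N, TopDeg n m r N → ∀ i, 1 < i → i < N → HasSurjOn H r i

/-- The Hilbert function of `R(UZ_{n,m,r})`. -/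
def hilb (n m r d : ℕ) : ℕ := Module.finrank ℂ (VT n m r d)

end Pool.RookLC
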