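import Pool.Agent.Work.MP_6f78fb_nl.Basic
import Pool.Agent.Work.MP_6f78fb_lin.B_CANCEL
import Pool.Agent.Work.MP_6f78fb_lin.B_CC

/-!
# MP_6f78fb_co, THEOREM NL: block ASA
-/

open scoped BigOperators TensorProduct
open Classical

noncomputable section

namespace Pool.RookLC.NL

open Pool.RookLC Pool.RookLC.Lin

/-- the points with trivial stabiliser -/
abbrev ASA_Y {Γ Y : Type} [Group Γ] (a : Γ → Y → Y) : Type := {y // ∀ g, a g y = y → g = 1}

theorem ASA_stab {Γ Y : Type} [Group Γ] {a : Γ → Y → Y} (ha : IsAct a) (g : Γ) (y : Y)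
    (hy : ∀ g, a g y = y → g = 1) : ∀ h, a h (a g y) = a g y → h = 1 := by
  intro h hh
  have h1 : a (g⁻¹ * h * g) y = y := by
    rw [ha.mul, ha.mul, hh, ← ha.mul, inv_mul_cancel, ha.one]
  have h2 := hy _ h1
  have h3 : h = g * (g⁻¹ * h * g) * g⁻¹ := by group
  rw [h3, h2, mul_one, mul_inv_cancel]

/-- the action on the points with trivial stabiliser -/
def ASA_a {Γ Y : Type} [Group Γ] {a : Γ → Y → Y} (ha : IsAct a) (g : Γ) (y : ASA_Y a) : ASA_Y a :=
  ⟨a g y.1, ASA_stab ha g y.1 y.2⟩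

theorem ASA_isAct {Γ Y : Type} [Group Γ] {a : Γ → Y → Y} (ha : IsAct a) : IsAct (ASA_a ha) where
  mul g h y := Subtype.ext (ha.mul g h y.1)
  one y := Subtype.ext (ha.one y.1)

theorem ASA_isFree {Γ Y : Type} [Group Γ] {a : Γ → Y → Y} (ha : IsAct a) : IsFree (ASA_a ha) :=
  fun g y h => y.2 g (congrArg Subtype.val h)

theorem ASA_card {A B : Type} (i1 : Fintype A) (i2 : Fintype B) (e : A ≃ B) :
    @Fintype.card A i1 = @Fintype.card B i2 := Fintype.card_congr e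

theorem ASA_fix {n m : ℕ} (H : Subgroup (G n m)) (i j : ℕ) (h : H)
    (i1 : Fintype {z : Z n m i × Z n m j // aH2 H i j h z = z})
    (i2 : Fintype {z : Z n m i // aH H i h z = z}) (i3 : Fintype {z : Z n m j // aH H j h z = z}) :
    @Fintype.card {z : Z n m i × Z n m j // aH2 H i j h z = z} i1 =
      @Fintype.card {z : Z n m i // aH H i h z = z} i2 *
        @Fintype.card {z : Z n m j // aH H j h z = z} i3 := by
  rw [← Fintype.card_prod]
  refine Fintype.card_congr ⟨fun z => (⟨z.1.1, congrArg Prod.fst z.2⟩, ⟨z.1.2, congrArg Prod.snd z.2⟩),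
    fun z => ⟨(z.1.1, z.2.1), Prod.ext z.1.2 z.2.2⟩, fun z => rfl, fun z => rfl⟩

/-- the argument for an arbitrary finite group -/
theorem ASA_main (hEQI : Stmt_EQI) (hFEM : Stmt_FEM) (hTWI : Stmt_TWI) (hFRC : Stmt_FRC)
    (hPLW : Stmt_PLW) (hPLF : Stmt_PLF) (hFPT : Stmt_FPT)
    (Γ A B B2 W T : Type) [Group Γ] [Fintype Γ] [Fintype A] [Fintype B] [Fintype B2]
    [AddCommGroup W] [Module ℂ W] [FiniteDimensional ℂ W]
    [AddCommGroup T] [Module ℂ T] [FiniteDimensional ℂ T]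
    (a : Γ → A → A) (ha : IsAct a) (b : Γ → B → B) (hb : IsAct b)
    (b2 : Γ → B2 → B2) (hb2 : IsAct b2)
    (ρ : Representation ℂ Γ W) (τ : Representation ℂ Γ T)
    (hcount : (∑ g : Γ, Fintype.card {x // a g x = x}) +
      2 * Module.finrank ℂ W * (∑ g : Γ, Fintype.card {x // b g x = x}) +
      (∑ g ∈ (Finset.univ : Finset Γ).erase 1, Fintype.card {x // b2 g x = x}) ≤
        Fintype.card B2)
    (hemb : Emb (fr b2 hb2) (τ.prod ((frW ρ b hb).prod (frW ρ b hb)))) : Emb (fr a ha) τ := by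
  obtain ⟨X', iX, a', p, ha', hfa', hp, hpe, hX⟩ := hFRC Γ A a ha
  obtain ⟨Z', iZ, b', q, hb', hfb', hq, hqe, hZ⟩ := hFRC Γ B b hb
  obtain ⟨c, hc, hfc, hTW⟩ := hTWI Γ Z' W ρ b' hb' hfb'
  have hK1 : Emb (frW ρ b hb) (fr c hc) :=
    Emb_trans (hPLW Γ B Z' W ρ b b' hb hb' q hq hqe) hTW
  have hA1 : Emb (fr a ha) (fr a' ha') := hPLF Γ A X' a a' ha ha' p hp hpe
  have hF := hFPT Γ B2 b2 hb2
  have hcard : Fintype.card (X' ⊕ ((Fin (Module.finrank ℂ W) × Z') ⊕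
      (Fin (Module.finrank ℂ W) × Z'))) ≤ Fintype.card (ASA_Y b2) := by
    rw [Fintype.card_sum, Fintype.card_sum, Fintype.card_prod, Fintype.card_fin, hX, hZ]
    have e1 : 2 * Module.finrank ℂ W * (∑ g : Γ, Fintype.card {x // b g x = x}) =
        Module.finrank ℂ W * (∑ g : Γ, Fintype.card {x // b g x = x}) +
        Module.finrank ℂ W * (∑ g : Γ, Fintype.card {x // b g x = x}) := by ring
    rw [e1] at hcount
    have e2 := Nat.le_of_add_le_add_right (hcount.trans hF)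
    exact e2.trans (le_of_eq (ASA_card _ _ (Equiv.refl _)))
  obtain ⟨f, hf, hfe⟩ := hEQI Γ _ _ (aSum a' (aSum c c)) (ASA_a hb2)
    (isAct_aSum ha' (isAct_aSum hc hc)) (ASA_isAct hb2) (isFree_aSum hfa' (isFree_aSum hfc hfc))
    (ASA_isFree hb2) hcard
  have hE1 : Emb (fr (aSum a' (aSum c c)) (isAct_aSum ha' (isAct_aSum hc hc)))
      (fr (ASA_a hb2) (ASA_isAct hb2)) := hFEM Γ _ _ _ _ _ _ f hf hfe
  have hE2 : Emb (fr (ASA_a hb2) (ASA_isAct hb2)) (fr b2 hb2) :=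
    hFEM Γ _ _ _ _ _ _ Subtype.val Subtype.val_injective (fun _ _ => rfl)
  have hE3 : Emb ((fr a ha).prod ((fr c hc).prod (fr c hc)))
      (fr (aSum a' (aSum c c)) (isAct_aSum ha' (isAct_aSum hc hc))) :=
    Emb_trans (Emb_prod hA1 (Emb_sum hc hc)) (Emb_sum ha' (isAct_aSum hc hc))
  have hE4 : Emb ((fr a ha).prod ((fr c hc).prod (fr c hc)))
      (τ.prod ((frW ρ b hb).prod (frW ρ b hb))) :=
    Emb_trans hE3 (Emb_trans hE1 (Emb_trans hE2 hemb))
  exact stmt_CANCEL Γ _ _ _ _ _ _ _ _ hE4 (Emb_prod hK1 hK1)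

theorem p_ASA (hEQI : Stmt_EQI) (hFEM : Stmt_FEM) (hTWI : Stmt_TWI) (hFRC : Stmt_FRC)
    (hPLW : Stmt_PLW) (hPLF : Stmt_PLF) (hFPT : Stmt_FPT) (hASC : Stmt_ASC) : Stmt_ASA := by
  intro n m r i H hcount
  have : FiniteDimensional ℂ (V n m r i ⊗[ℂ] V n m r i) := FINA_fin stmt_CC n m r i
  refine ASA_main hEQI hFEM hTWI hFRC hPLW hPLF hFPT H (Z n m (i - 1) × Z n m (i + 1)) (Z n m i)
    (Z n m i × Z n m i) (Rel n m r i) (V n m r i ⊗[ℂ] V n m r i) (aH2 H (i - 1) (i + 1)) (isAct_aH2 H (i - 1) (i + 1))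
    (aH H i) (isAct_aH H i) (aH2 H i i) (isAct_aH2 H i i) (rhoR H r i) (rhoT H r i) ?_
    (hASC n m r i H)
  rw [Fintype.card_prod, ← sq]
  refine le_trans (le_of_eq ?_) hcount
  have e1 := fun h : H => ASA_fix H (i - 1) (i + 1) h
  congr 1
  · congr 1
    · exact Finset.sum_congr rfl fun h _ => e1 h _ _ _
    · congr 1
      exact Finset.sum_congr rfl fun h _ => ASA_card _ _ (Equiv.refl _)
  · refine Finset.sum_congr (Finset.ext fun x => by simp only [Finset.mem_erase]) fun h _ => ?_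
    rw [sq]
    exact ASA_fix H i i h _ _ _

end Pool.RookLC.NL
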