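import Pool.Agent.Work.MP_6f78fb_nl.Basic
import Pool.Agent.Work.MP_6f78fb_lin.B_RETR
import Pool.Agent.Work.MP_6f78fb_lin.B_CC

/-!
# Block ASB: from the embedding to the surjection
-/

open scoped BigOperators TensorProduct
open Classical

noncomputable section

namespace Pool.RookLC.NL

open Pool.RookLC Pool.RookLC.Lin

/-- extension by zero -/
def ASB_ext (n m a b : ℕ) : (Z n m a × Z n m b → ℂ) →ₗ[ℂ] Fn2 n m where
  toFun F := fun ω => if h : Um a ω.1 ∧ Um b ω.2 then F (⟨ω.1, h.1⟩, ⟨ω.2, h.2⟩) else 0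
  map_add' F F' := by
    funext ω
    by_cases h : Um a ω.1 ∧ Um b ω.2
    · simp only [dif_pos h, Pi.add_apply]
    · simp only [dif_neg h, Pi.add_apply, add_zero]
  map_smul' c F := by
    funext ω
    by_cases h : Um a ω.1 ∧ Um b ω.2
    · simp only [dif_pos h, Pi.smul_apply, RingHom.id_apply]
    · simp only [dif_neg h, Pi.smul_apply, smul_zero]

theorem ASB_ext_pos {n m a b : ℕ} (F : Z n m a × Z n m b → ℂ) (ω : Pr n m)
    (h : Um a ω.1 ∧ Um b ω.2) : ASB_ext n m a b F ω = F (⟨ω.1, h.1⟩, ⟨ω.2, h.2⟩) := dif_pos h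

theorem ASB_ext_neg {n m a b : ℕ} (F : Z n m a × Z n m b → ℂ) (ω : Pr n m)
    (h : ¬ (Um a ω.1 ∧ Um b ω.2)) : ASB_ext n m a b F ω = 0 := dif_neg h

theorem ASB_eqv {n m a b : ℕ} (H : Subgroup (G n m)) (g : H) (F : Z n m a × Z n m b → ℂ) :
    ASB_ext n m a b (fr (aH2 H a b) (isAct_aH2 H a b) g F) =
      rF2 (g : G n m) (ASB_ext n m a b F) := by
  funext ω
  show _ = ASB_ext n m a b F (actC (g : G n m)⁻¹ ω.1, actC (g : G n m)⁻¹ ω.2)
  by_cases h : Um a ω.1 ∧ Um b ω.2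
  · rw [ASB_ext_pos _ _ h, ASB_ext_pos F _ ⟨(um_act _ _ _).2 h.1, (um_act _ _ _).2 h.2⟩]
    rfl
  · rw [ASB_ext_neg _ _ h, ASB_ext_neg F _ ?_]
    rintro ⟨h1, h2⟩
    exact h ⟨(um_act _ _ _).1 h1, (um_act _ _ _).1 h2⟩

theorem p_ASB : Stmt_ASB := by
  intro n m r i H h
  have := FINA_fin stmt_CC n m r i
  obtain ⟨f, hf, hfe⟩ := stmt_RETR _ _ _ _ _ h
  obtain ⟨h1, h2⟩ := stmt_CC n m r (i - 1) (i + 1)
  refine ⟨(cc n m r (i - 1) (i + 1)) ∘ₗ (ASB_ext n m (i - 1) (i + 1)) ∘ₗ f, ?_, ?_⟩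
  · intro y
    obtain ⟨F, hF, hy⟩ := h2 y
    obtain ⟨x, hx⟩ := hf (fun z => F (z.1.1, z.2.1))
    refine ⟨x, ?_⟩
    rw [LinearMap.comp_apply, LinearMap.comp_apply, hx]
    rw [← hy]
    congr 1
    funext ω
    by_cases h3 : Um (i - 1) ω.1 ∧ Um (i + 1) ω.2
    · rw [ASB_ext_pos _ _ h3]
    · rw [ASB_ext_neg _ _ h3]
      by_contra h4
      exact h3 (hF ω (fun h5 => h4 h5.symm))
  · intro g hg
    refine LinearMap.ext fun x => ?_
    have h3 := hfe ⟨g, hg⟩ x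
    rw [LinearMap.comp_apply, LinearMap.comp_apply, LinearMap.comp_apply, LinearMap.comp_apply,
      LinearMap.comp_apply, LinearMap.comp_apply]
    rw [← h1]
    have h4 : f ((TensorProduct.map (actV n m r i g) (actV n m r i g)) x) =
      fr (aH2 H (i - 1) (i + 1)) (isAct_aH2 H (i - 1) (i + 1)) ⟨g, hg⟩ (f x) := h3
    rw [h4, ASB_eqv]

end Pool.RookLC.NL
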