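import Pool.Agent.Work.MP_6f78fb_nl.Basic
import Pool.Agent.Work.MP_6f78fb_lin.B_CC
import Pool.Agent.Work.MP_6f78fb_lin.B_TJ

open scoped BigOperators TensorProduct
open Classical

noncomputable section

namespace Pool.RookLC.NL

open Pool.RookLC Pool.RookLC.Lin

/-- extension by zero -/
def ASC_ext (n m i : ℕ) : (Z n m i × Z n m i → ℂ) →ₗ[ℂ] Fn2 n m where
  toFun F := fun ω => if h : Um i ω.1 ∧ Um i ω.2 then F (⟨ω.1, h.1⟩, ⟨ω.2, h.2⟩) else 0
  map_add' F F' := by
    funext ω
    rw [Pi.add_apply]
    by_cases h : Um i ω.1 ∧ Um i ω.2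
    · rw [dif_pos h, dif_pos h, dif_pos h, Pi.add_apply]
    · rw [dif_neg h, dif_neg h, dif_neg h, add_zero]
  map_smul' c F := by
    funext ω
    rw [Pi.smul_apply]
    by_cases h : Um i ω.1 ∧ Um i ω.2
    · rw [dif_pos h, dif_pos h, Pi.smul_apply]; rfl
    · rw [dif_neg h, dif_neg h, smul_zero]

theorem ASC_ext_apply {n m i : ℕ} (F : Z n m i × Z n m i → ℂ) (ω : Pr n m) :
    ASC_ext n m i F ω =
      if h : Um i ω.1 ∧ Um i ω.2 then F (⟨ω.1, h.1⟩, ⟨ω.2, h.2⟩) else 0 := rfl

theorem ASC_ext_sup {n m i : ℕ} (F : Z n m i × Z n m i → ℂ) (ω : Pr n m)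
    (h : ASC_ext n m i F ω ≠ 0) : Um i ω.1 ∧ Um i ω.2 := by
  by_contra hc
  exact h (by rw [ASC_ext_apply, dif_neg hc])

theorem ASC_ext_val {n m i : ℕ} (F : Z n m i × Z n m i → ℂ) (z : Z n m i × Z n m i) :
    ASC_ext n m i F (z.1.1, z.2.1) = F z := by
  rw [ASC_ext_apply, dif_pos ⟨z.1.2, z.2.2⟩]

theorem ASC_ext_eqv {n m i : ℕ} (H : Subgroup (G n m)) (h : H) (F : Z n m i × Z n m i → ℂ) :
    ASC_ext n m i (fr (aH2 H i i) (isAct_aH2 H i i) h F) = rF2 (h : G n m) (ASC_ext n m i F) := by
  funext ω
  change _ = ASC_ext n m i F (actC (h : G n m)⁻¹ ω.1, actC (h : G n m)⁻¹ ω.2)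
  rw [ASC_ext_apply, ASC_ext_apply]
  by_cases hω : Um i ω.1 ∧ Um i ω.2
  · have hω' : Um i (actC (h : G n m)⁻¹ ω.1) ∧ Um i (actC (h : G n m)⁻¹ ω.2) :=
      ⟨(um_act _ i ω.1).2 hω.1, (um_act _ i ω.2).2 hω.2⟩
    rw [dif_pos hω, dif_pos hω']
    rfl
  · have hω' : ¬ (Um i (actC (h : G n m)⁻¹ ω.1) ∧ Um i (actC (h : G n m)⁻¹ ω.2)) :=
      fun h2 => hω ⟨(um_act _ i ω.1).1 h2.1, (um_act _ i ω.2).1 h2.2⟩
    rw [dif_neg hω, dif_neg hω']

theorem p_ASC (hPRJ : Stmt_PRJ) : Stmt_ASC := by
  intro n m r i H
  obtain ⟨b, hbR, hbid, hbe⟩ := hPRJ n m r i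
  -- the two projections
  let B1 : (Z n m i × Z n m i → ℂ) →ₗ[ℂ] (Z n m i → Rel n m r i) :=
    { toFun := fun F z => ⟨b (fun α => ASC_ext n m i F (α, z.1)), hbR _⟩
      map_add' := by
        intro F F'
        funext z
        apply Subtype.ext
        change b _ = b _ + b _
        rw [← map_add]
        congr 1
        funext α
        rw [map_add]
        rfl
      map_smul' := by
        intro c F
        funext z
        apply Subtype.ext
        change b _ = c • b _
        rw [← map_smul]
        congr 1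
        funext α
        rw [map_smul]
        rfl }
  let B2 : (Z n m i × Z n m i → ℂ) →ₗ[ℂ] (Z n m i → Rel n m r i) :=
    { toFun := fun F z => ⟨b (fun β => ASC_ext n m i F (z.1, β)), hbR _⟩
      map_add' := by
        intro F F'
        funext z
        apply Subtype.ext
        change b _ = b _ + b _
        rw [← map_add]
        congr 1
        funext α
        rw [map_add]
        rfl
      map_smul' := by
        intro c F
        funext z
        apply Subtype.ext
        change b _ = c • b _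
        rw [← map_smul]
        congr 1
        funext α
        rw [map_smul]
        rfl }
  refine ⟨((cc n m r i i) ∘ₗ ASC_ext n m i).prod (B1.prod B2), ?_, ?_⟩
  · refine (injective_iff_map_eq_zero _).2 ?_
    intro F hF
    have hF1 : cc n m r i i (ASC_ext n m i F) = 0 := congrArg Prod.fst hF
    have hF2 : B1 F = 0 := congrArg (fun z => z.2.1) hF
    have hF3 : B2 F = 0 := congrArg (fun z => z.2.2) hF
    have h0 : ASC_ext n m i F = 0 := by
      refine stmt_TJ n m r i b ?_ (ASC_ext n m i F) (ASC_ext_sup F) ?_ ?_ hF1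
      · intro φ h1 h2 h3
        rw [← hbid φ ⟨h1, h2⟩, h3]
      · intro β
        by_cases hβ : Um i β
        · have := congrFun hF2 ⟨β, hβ⟩
          exact congrArg Subtype.val this
        · have : (fun α => ASC_ext n m i F (α, β)) = 0 := by
            funext α
            by_contra h2
            exact hβ (ASC_ext_sup F (α, β) h2).2
          rw [this, map_zero]
      · intro α
        by_cases hα : Um i α
        · have := congrFun hF3 ⟨α, hα⟩
          exact congrArg Subtype.val this
        · have : (fun β => ASC_ext n m i F (α, β)) = 0 := by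
            funext β
            by_contra h2
            exact hα (ASC_ext_sup F (α, β) h2).1
          rw [this, map_zero]
    funext z
    rw [← ASC_ext_val F z, h0]
    rfl
  · intro h F
    refine Prod.ext ?_ (Prod.ext ?_ ?_)
    · change cc n m r i i (ASC_ext n m i _) = _
      rw [ASC_ext_eqv, (stmt_CC n m r i i).1]
      rfl
    · funext z
      apply Subtype.ext
      change b (fun α => ASC_ext n m i (fr (aH2 H i i) (isAct_aH2 H i i) h F) (α, z.1)) =
        rF (h : G n m) (b (fun α => ASC_ext n m i F (α, actC (h : G n m)⁻¹ z.1)))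
      rw [← hbe]
      congr 1
      funext α
      exact congrFun (ASC_ext_eqv H h F) (α, z.1)
    · funext z
      apply Subtype.ext
      change b (fun β => ASC_ext n m i (fr (aH2 H i i) (isAct_aH2 H i i) h F) (z.1, β)) =
        rF (h : G n m) (b (fun β => ASC_ext n m i F (actC (h : G n m)⁻¹ z.1, β)))
      rw [← hbe]
      congr 1
      funext β
      exact congrFun (ASC_ext_eqv H h F) (z.1, β)

end Pool.RookLC.NL
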