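import Pool.Agent.Work.MP_6f78fb_nl.Interface

/-! # Block CIN: the number of placements of size `t` inside `N × J` -/

open scoped BigOperators TensorProduct
open Classical

noncomputable section

namespace Pool.RookLC.NL

open Pool.RookLC Pool.RookLC.Lin

theorem CIN_rook {n m : ℕ} {β : Cf n m} (h : tt β = 0) {a : Fin n} (ha : β a ≠ none) :
    ∃ x, β a = some (some x) := by
  rcases h1 : β a with _ | y
  · exact absurd h1 ha
  · rcases y with _ | x
    · exfalso
      unfold tt at h
      rw [Finset.card_eq_zero] at h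
      have h2 : a ∈ Finset.univ.filter fun a => β a = some none :=
        Finset.mem_filter.2 ⟨Finset.mem_univ _, h1⟩
      rw [h] at h2
      exact Finset.notMem_empty _ h2
    · exact ⟨x, rfl⟩

theorem CIN_cols {n m : ℕ} {β : Cf n m} (hv : Valid β) (h : tt β = 0) :
    (cols β).card = (supp β).card := by
  have h1 : ∀ a ∈ supp β, ∃ x, β a = some (some x) := fun a ha =>
    CIN_rook h (Finset.mem_filter.1 ha).2
  symm
  refine Finset.card_bij (fun a ha => (h1 a ha).choose) ?_ ?_ ?_
  · intro a ha
    exact Finset.mem_filter.2 ⟨Finset.mem_univ _, a, (h1 a ha).choose_spec⟩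
  · intro a ha b hb hab
    have h2 := (h1 a ha).choose_spec
    have h3 := (h1 b hb).choose_spec
    have hab' : (h1 a ha).choose = (h1 b hb).choose := hab
    rw [hab'] at h2
    exact hv a b _ h2 h3
  · intro x hx
    obtain ⟨_, a, ha⟩ := Finset.mem_filter.1 hx
    have ha' : a ∈ supp β := Finset.mem_filter.2 ⟨Finset.mem_univ _, by rw [ha]; simp⟩
    refine ⟨a, ha', ?_⟩
    have h2 := (h1 a ha').choose_spec
    have h3 := ha.symm.trans h2
    exact (Option.some_injective _ (Option.some_injective _ h3)).symm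

theorem p_CIN (hCNB : Stmt_CNB) : Stmt_CIN := by
  intro n m N J t
  let F : Finset (Cf n m) := Finset.univ.filter fun β =>
    Valid β ∧ tt β = 0 ∧ dd β = t ∧ supp β ⊆ N ∧ cols β ⊆ J
  have hF : ∀ β, β ∈ F ↔ (Valid β ∧ tt β = 0 ∧ dd β = t ∧ supp β ⊆ N ∧ cols β ⊆ J) := by
    intro β
    simp [F]
  rw [Fintype.card_of_subtype F hF]
  have hmap : ∀ β ∈ F, (supp β, cols β) ∈
      (Finset.powersetCard t N ×ˢ Finset.powersetCard t J) := by
    intro β hβ
    obtain ⟨hv, ht, hd, hS, hT⟩ := (hF β).1 hβ
    have hd' : (supp β).card = t := hd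
    rw [Finset.mem_product]
    refine ⟨Finset.mem_powersetCard.2 ⟨hS, hd'⟩, Finset.mem_powersetCard.2 ⟨hT, ?_⟩⟩
    show (cols β).card = t
    rw [CIN_cols hv ht]
    exact hd'
  rw [Finset.card_eq_sum_card_fiberwise (f := fun β => (supp β, cols β)) hmap]
  have hfib : ∀ p ∈ (Finset.powersetCard t N ×ˢ Finset.powersetCard t J),
      (F.filter fun β => (supp β, cols β) = p).card = t.factorial := by
    rintro ⟨S, T⟩ hp
    rw [Finset.mem_product, Finset.mem_powersetCard, Finset.mem_powersetCard] at hp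
    obtain ⟨⟨hS, hSc⟩, ⟨hT, hTc⟩⟩ := hp
    have h1 := hCNB n m S T (hSc.trans hTc.symm)
    rw [hSc] at h1
    rw [← h1]
    symm
    refine Fintype.card_of_subtype _ (fun β => ?_)
    rw [Finset.mem_filter, hF]
    constructor
    · rintro ⟨⟨hv, ht, _, _, _⟩, he⟩
      exact ⟨hv, ht, congrArg Prod.fst he, congrArg Prod.snd he⟩
    · rintro ⟨hv, ht, h2, h3⟩
      refine ⟨⟨hv, ht, ?_, ?_, ?_⟩, ?_⟩
      · show (supp β).card = t
        rw [h2]
        exact hSc
      · rw [h2]
        exact hS
      · rw [h3]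
        exact hT
      · rw [h2, h3]
  rw [Finset.sum_congr rfl hfib, Finset.sum_const, Finset.card_product,
    Finset.card_powersetCard, Finset.card_powersetCard, smul_eq_mul]

end Pool.RookLC.NL
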