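import Pool.Agent.Work.MP_6f78fb_nl.Interface

/-!
# Block CNB: the number of placements with given row set and column set
-/

open scoped BigOperators TensorProduct
open Classical

noncomputable section

namespace Pool.RookLC.NL

open Pool.RookLC Pool.RookLC.Lin

/-- The placement attached to a bijection. -/
def CNB_f {n m : ℕ} {S : Finset (Fin n)} {T : Finset (Fin m)} (e : {x // x ∈ S} ≃ {x // x ∈ T}) :
    Cf n m := fun a => if h : a ∈ S then some (some (e ⟨a, h⟩).1) else none

theorem CNB_f_pos {n m : ℕ} {S : Finset (Fin n)} {T : Finset (Fin m)}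
    (e : {x // x ∈ S} ≃ {x // x ∈ T}) {a : Fin n} (h : a ∈ S) :
    CNB_f e a = some (some (e ⟨a, h⟩).1) := dif_pos h

theorem CNB_f_neg {n m : ℕ} {S : Finset (Fin n)} {T : Finset (Fin m)}
    (e : {x // x ∈ S} ≃ {x // x ∈ T}) {a : Fin n} (h : a ∉ S) : CNB_f e a = none := dif_neg h

theorem CNB_mem {n m : ℕ} {S : Finset (Fin n)} {T : Finset (Fin m)}
    (e : {x // x ∈ S} ≃ {x // x ∈ T}) {a : Fin n} {j : Fin m} (h : CNB_f e a = some (some j)) :
    ∃ ha : a ∈ S, (e ⟨a, ha⟩).1 = j := by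
  by_cases ha : a ∈ S
  · rw [CNB_f_pos e ha] at h
    exact ⟨ha, Option.some_injective _ (Option.some_injective _ h)⟩
  · rw [CNB_f_neg e ha] at h
    exact absurd h (by simp)

theorem CNB_ok {n m : ℕ} {S : Finset (Fin n)} {T : Finset (Fin m)}
    (e : {x // x ∈ S} ≃ {x // x ∈ T}) :
    Valid (CNB_f e) ∧ tt (CNB_f e) = 0 ∧ supp (CNB_f e) = S ∧ cols (CNB_f e) = T := by
  refine ⟨?_, ?_, ?_, ?_⟩
  · intro a b j ha hb
    obtain ⟨h1, h2⟩ := CNB_mem e ha
    obtain ⟨h3, h4⟩ := CNB_mem e hb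
    have h5 : e ⟨a, h1⟩ = e ⟨b, h3⟩ := Subtype.ext (h2.trans h4.symm)
    exact congrArg Subtype.val (e.injective h5)
  · unfold tt
    rw [Finset.card_eq_zero, Finset.filter_eq_empty_iff]
    intro a _ h
    by_cases ha : a ∈ S
    · rw [CNB_f_pos e ha] at h
      exact absurd (Option.some_injective _ h) (by simp)
    · rw [CNB_f_neg e ha] at h
      exact absurd h (by simp)
  · ext a
    unfold supp
    rw [Finset.mem_filter]
    constructor
    · rintro ⟨_, h⟩
      by_contra ha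
      exact h (CNB_f_neg e ha)
    · intro ha
      refine ⟨Finset.mem_univ _, ?_⟩
      rw [CNB_f_pos e ha]
      simp
  · ext j
    unfold cols
    rw [Finset.mem_filter]
    constructor
    · rintro ⟨_, a, h⟩
      obtain ⟨h1, h2⟩ := CNB_mem e h
      rw [← h2]
      exact (e ⟨a, h1⟩).2
    · intro hj
      refine ⟨Finset.mem_univ _, (e.symm ⟨j, hj⟩).1, ?_⟩
      rw [CNB_f_pos e (e.symm ⟨j, hj⟩).2]
      simp

theorem CNB_surj {n m : ℕ} {S : Finset (Fin n)} {T : Finset (Fin m)} (β : Cf n m)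
    (hv : Valid β) (ht : tt β = 0) (hs : supp β = S) (hc : cols β = T) :
    ∃ e : {x // x ∈ S} ≃ {x // x ∈ T}, CNB_f e = β := by
  have h0 : ∀ a, β a ≠ some none := by
    intro a h
    unfold tt at ht
    rw [Finset.card_eq_zero, Finset.filter_eq_empty_iff] at ht
    exact ht (Finset.mem_univ a) h
  have hS : ∀ a, a ∈ S ↔ β a ≠ none := by
    intro a
    rw [← hs]
    unfold supp
    rw [Finset.mem_filter]
    exact ⟨fun h => h.2, fun h => ⟨Finset.mem_univ _, h⟩⟩
  have hT : ∀ j, j ∈ T ↔ ∃ a, β a = some (some j) := by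
    intro j
    rw [← hc]
    unfold cols
    rw [Finset.mem_filter]
    exact ⟨fun h => h.2, fun h => ⟨Finset.mem_univ _, h⟩⟩
  have h1 : ∀ a : {x // x ∈ S}, ∃ j : {x // x ∈ T}, β a.1 = some (some j.1) := by
    rintro ⟨a, ha⟩
    have h2 := (hS a).1 ha
    rcases hx : β a with _ | (_ | j)
    · exact absurd hx h2
    · exact absurd hx (h0 a)
    · exact ⟨⟨j, (hT j).2 ⟨a, hx⟩⟩, rfl⟩
  choose f hf using h1
  have hinj : Function.Injective f := by
    intro a b hab
    have h2 := hf a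
    have h3 := hf b
    rw [hab] at h2
    exact Subtype.ext (hv _ _ _ h2 h3)
  have hsurj : Function.Surjective f := by
    rintro ⟨j, hj⟩
    obtain ⟨a, ha⟩ := (hT j).1 hj
    have haS : a ∈ S := (hS a).2 (by rw [ha]; simp)
    refine ⟨⟨a, haS⟩, Subtype.ext ?_⟩
    have h2 := hf ⟨a, haS⟩
    rw [ha] at h2
    exact (Option.some_injective _ (Option.some_injective _ h2)).symm
  refine ⟨Equiv.ofBijective f ⟨hinj, hsurj⟩, ?_⟩
  funext a
  by_cases ha : a ∈ S
  · rw [CNB_f_pos _ ha]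
    exact (hf ⟨a, ha⟩).symm
  · rw [CNB_f_neg _ ha]
    by_contra h2
    exact ha ((hS a).2 (fun h3 => h2 h3.symm))

theorem p_CNB : Stmt_CNB := by
  intro n m S T hST
  have hbij : Function.Bijective
      (fun e : {x // x ∈ S} ≃ {x // x ∈ T} => (⟨CNB_f e, CNB_ok e⟩ : BB n m S T)) := by
    constructor
    · intro e e' h
      have h1 : CNB_f e = CNB_f e' := congrArg Subtype.val h
      ext ⟨a, ha⟩
      have h2 := congrFun h1 a
      rw [CNB_f_pos e ha, CNB_f_pos e' ha] at h2
      have h3 := Option.some_injective _ (Option.some_injective _ h2)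
      exact congrArg Fin.val h3
    · rintro ⟨β, h1, h2, h3, h4⟩
      obtain ⟨e, he⟩ := CNB_surj β h1 h2 h3 h4
      exact ⟨e, Subtype.ext he⟩
  have h := Fintype.card_congr (Equiv.ofBijective _ hbij)
  rw [← h]
  have h2 := Fintype.card_equiv (Finset.equivOfCardEq hST)
  rw [Fintype.card_coe] at h2
  rw [← h2]

end Pool.RookLC.NL
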