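import Pool.Agent.Work.MP_6f78fb_nl.Basic

/-!
# MP_6f78fb_co, THEOREM NL: block CNY
-/

open scoped BigOperators TensorProduct
open Classical

noncomputable section

namespace Pool.RookLC.NL

open Pool.RookLC Pool.RookLC.Lin

/-- the triples with given row set, column set and size -/
def CNY_fib (n m : ℕ) (p : Finset (Fin n) × Finset (Fin m) × ℕ) :
    Finset (Finset (Fin n) × Finset (Fin m) × Cf n m) :=
  (Finset.univ.filter (fun β : Cf n m => Valid β ∧ tt β = 0 ∧ dd β = p.2.2 ∧ supp β ⊆ p.1 ∧
    cols β ⊆ p.2.1)).image (fun β => (p.1, p.2.1, β))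

theorem CNY_fib_card (h : Stmt_CIN) (n m : ℕ) (p : Finset (Fin n) × Finset (Fin m) × ℕ) :
    (CNY_fib n m p).card ≤ p.1.card.choose p.2.2 * p.2.1.card.choose p.2.2 * p.2.2.factorial := by
  refine Finset.card_image_le.trans (le_of_eq ?_)
  rw [← h n m p.1 p.2.1 p.2.2, Fintype.card_subtype]

theorem p_CNY (hCIN : Stmt_CIN) : Stmt_CNY := by
  intro n m i s
  rw [Fintype.card_subtype]
  have hsub : (Finset.univ.filter (fun y : Finset (Fin n) × Finset (Fin m) × Cf n m => Yok i s y)) ⊆
      ((Finset.powersetCard i (Finset.univ : Finset (Fin n))) ×ˢ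
        ((Finset.powersetCard i (Finset.univ : Finset (Fin m))) ×ˢ
          Finset.range (s + 1))).biUnion (CNY_fib n m) := by
    rintro ⟨N, J, β⟩ hy
    rw [Finset.mem_filter] at hy
    obtain ⟨h1, h2, h3, h4, h5, h6, h7⟩ := hy.2
    rw [Finset.mem_biUnion]
    refine ⟨(N, J, dd β), ?_, ?_⟩
    · rw [Finset.mem_product, Finset.mem_product, Finset.mem_powersetCard, Finset.mem_powersetCard,
        Finset.mem_range]
      exact ⟨⟨Finset.subset_univ _, h1⟩, ⟨Finset.subset_univ _, h2⟩, Nat.lt_succ_of_le h5⟩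
    · unfold CNY_fib
      rw [Finset.mem_image]
      refine ⟨β, ?_, rfl⟩
      rw [Finset.mem_filter]
      exact ⟨Finset.mem_univ _, h3, h4, rfl, h6, h7⟩
  refine (Finset.card_le_card hsub).trans (Finset.card_biUnion_le.trans ?_)
  refine (Finset.sum_le_sum fun p _ => CNY_fib_card hCIN n m p).trans (le_of_eq ?_)
  rw [Finset.sum_product]
  have hin : ∀ N ∈ Finset.powersetCard i (Finset.univ : Finset (Fin n)),
      (∑ y ∈ (Finset.powersetCard i (Finset.univ : Finset (Fin m))) ×ˢ Finset.range (s + 1),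
        (N, y).1.card.choose (N, y).2.2 * (N, y).2.1.card.choose (N, y).2.2 *
          (N, y).2.2.factorial) =
      m.choose i * ∑ t ∈ Finset.range (s + 1), (i.choose t) ^ 2 * t.factorial := by
    intro N hN
    rw [Finset.mem_powersetCard] at hN
    rw [Finset.sum_product]
    have h2 : ∀ J ∈ Finset.powersetCard i (Finset.univ : Finset (Fin m)),
        (∑ t ∈ Finset.range (s + 1), N.card.choose t * J.card.choose t * t.factorial) =
        ∑ t ∈ Finset.range (s + 1), (i.choose t) ^ 2 * t.factorial := by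
      intro J hJ
      rw [Finset.mem_powersetCard] at hJ
      rw [hN.2, hJ.2]
      exact Finset.sum_congr rfl fun t _ => by rw [pow_two]
    refine (Finset.sum_congr rfl h2).trans ?_
    rw [Finset.sum_const, Finset.card_powersetCard, Finset.card_univ, Fintype.card_fin,
      smul_eq_mul]
  refine (Finset.sum_congr rfl hin).trans ?_
  rw [Finset.sum_const, Finset.card_powersetCard, Finset.card_univ, Fintype.card_fin,
    smul_eq_mul, mul_assoc]

end Pool.RookLC.NL
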