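import Pool.Agent.Work.MP_6f78fb_nl.Basic

/-! Block CNZ (helper89). -/

open scoped BigOperators TensorProduct
open Classical

namespace Pool.RookLC.NL

open Pool.RookLC Pool.RookLC.Lin

theorem p_CNZ (hCIN : Stmt_CIN) : Stmt_CNZ := by
  intro n m i
  have h1 := hCIN n m Finset.univ Finset.univ i
  rw [Finset.card_univ, Finset.card_univ, Fintype.card_fin, Fintype.card_fin] at h1
  rw [← h1]
  refine Fintype.card_congr (Equiv.subtypeEquivRight fun β => ?_)
  constructor
  · intro hβ
    exact ⟨hβ.1, hβ.2.1, hβ.2.2, Finset.subset_univ _, Finset.subset_univ _⟩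
  · intro hβ
    exact ⟨hβ.1, hβ.2.1, hβ.2.2.1⟩

end Pool.RookLC.NL
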