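import Pool.Agent.Work.MP_6f78fb_nl.Interface

/-!
# Block DIM (typed by helper21): the dimension of the space of relations
-/

open scoped BigOperators TensorProduct
open Classical

noncomputable section

namespace Pool.RookLC.NL

open Pool.RookLC Pool.RookLC.Lin

theorem DIM_nomark {n m : ℕ} {α : Cf n m} (ht : tt α = 0) (a : Fin n) : α a ≠ some none := by
  intro h
  have h3 : a ∈ Finset.univ.filter fun a => α a = some none :=
    Finset.mem_filter.mpr ⟨Finset.mem_univ a, h⟩
  have h4 : (Finset.univ.filter fun a => α a = some none) = ∅ := Finset.card_eq_zero.mp ht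
  rw [h4] at h3
  exact absurd h3 (Finset.notMem_empty _)

theorem DIM_state {n m : ℕ} {α : Cf n m} (ht : tt α = 0) {a : Fin n} (ha : a ∈ supp α) :
    ∃ j, α a = some (some j) := by
  have h1 : α a ≠ none := (Finset.mem_filter.mp ha).2
  have h2 := DIM_nomark ht a
  obtain ⟨y, hy⟩ := Option.ne_none_iff_exists'.mp h1
  rw [hy] at h2
  obtain ⟨j, hj⟩ := Option.ne_none_iff_exists'.mp (fun h : y = none => h2 (by rw [h]))
  exact ⟨j, by rw [hy, hj]⟩

theorem DIM_cols {n m : ℕ} {α : Cf n m} (hv : Valid α) (ht : tt α = 0) :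
    (cols α).card = (supp α).card := by
  symm
  refine Finset.card_bij (fun a ha => (DIM_state ht ha).choose) (fun a ha => ?_)
    (fun a ha b hb h => ?_) (fun j hj => ?_)
  · exact Finset.mem_filter.mpr ⟨Finset.mem_univ _, a, (DIM_state ht ha).choose_spec⟩
  · have h1 := (DIM_state ht ha).choose_spec
    have h2 := (DIM_state ht hb).choose_spec
    have h3 : (DIM_state ht ha).choose = (DIM_state ht hb).choose := h
    rw [← h3] at h2
    exact hv a b _ h1 h2
  · obtain ⟨-, a, ha⟩ := Finset.mem_filter.mp hj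
    have ha' : a ∈ supp α := Finset.mem_filter.mpr ⟨Finset.mem_univ _, by
      rw [ha]
      exact Option.some_ne_none _⟩
    refine ⟨a, ha', ?_⟩
    have h1 := (DIM_state ht ha').choose_spec
    have h2 : some (some (DIM_state ht ha').choose) = some (some j) := h1.symm.trans ha
    exact Option.some_injective _ (Option.some_injective _ h2)

theorem DIM_del {n m : ℕ} {S : Finset (Fin n)} {α : Cf n m} {a : Fin n} {y : Option (Fin m)}
    (h : del S α a = some y) : α a = some y := by
  unfold del at h
  by_cases ha : a ∈ S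
  · rw [if_pos ha] at h
    exact absurd h (by simp)
  · rwa [if_neg ha] at h

theorem DIM_yok {n m i s : ℕ} {S : Finset (Fin n)} {α : Cf n m} (hα : Um i α)
    (hs : dd (del S α) ≤ s) : Yok i s (supp α, cols α, del S α) := by
  obtain ⟨hv, ht, hd⟩ := hα
  refine ⟨hd, (DIM_cols hv ht).trans hd, ?_, ?_, hs, ?_, ?_⟩
  · intro a b j ha hb
    exact hv a b j (DIM_del ha) (DIM_del hb)
  · refine Finset.card_eq_zero.mpr (Finset.filter_eq_empty_iff.mpr fun a _ h => ?_)
    exact DIM_nomark ht a (DIM_del h)
  · intro a ha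
    have h1 : del S α a ≠ none := (Finset.mem_filter.mp ha).2
    obtain ⟨y, hy⟩ := Option.ne_none_iff_exists'.mp h1
    exact Finset.mem_filter.mpr ⟨Finset.mem_univ _, by
      rw [DIM_del hy]
      exact Option.some_ne_none _⟩
  · intro j hj
    obtain ⟨-, a, ha⟩ := Finset.mem_filter.mp hj
    exact Finset.mem_filter.mpr ⟨Finset.mem_univ _, a, DIM_del ha⟩

/-- the linear map -/
def DIM_L (n m i s : ℕ) :
    ({y : Finset (Fin n) × Finset (Fin m) × Cf n m // Yok i s y} → ℂ) →ₗ[ℂ] Fn n m where
  toFun x α := if Um i α then ∑ S ∈ (supp α).powerset,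
    if h : Yok i s (supp α, cols α, del S α) then (-1 : ℂ) ^ S.card * x ⟨_, h⟩ else 0 else 0
  map_add' x y := by
    funext α
    show (if Um i α then _ else (0 : ℂ)) =
      (if Um i α then _ else (0 : ℂ)) + (if Um i α then _ else (0 : ℂ))
    by_cases hα : Um i α
    · rw [if_pos hα, if_pos hα, if_pos hα, ← Finset.sum_add_distrib]
      refine Finset.sum_congr rfl fun S _ => ?_
      by_cases h : Yok i s (supp α, cols α, del S α)
      · rw [dif_pos h, dif_pos h, dif_pos h, Pi.add_apply, mul_add]
      · rw [dif_neg h, dif_neg h, dif_neg h, add_zero]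
    · rw [if_neg hα, if_neg hα, if_neg hα, add_zero]
  map_smul' c x := by
    funext α
    show (if Um i α then _ else (0 : ℂ)) = c * (if Um i α then _ else (0 : ℂ))
    by_cases hα : Um i α
    · rw [if_pos hα, if_pos hα, Finset.mul_sum]
      refine Finset.sum_congr rfl fun S _ => ?_
      by_cases h : Yok i s (supp α, cols α, del S α)
      · rw [dif_pos h, dif_pos h, Pi.smul_apply, smul_eq_mul]
        ring
      · rw [dif_neg h, dif_neg h, mul_zero]
    · rw [if_neg hα, if_neg hα, mul_zero]

theorem p_DIM (hSPN : Stmt_SPN) : Stmt_DIM := by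
  intro n m r i s k hn hm hr
  have hle : Rel n m r i ≤ LinearMap.range (DIM_L n m i s) := by
    intro φ hφ
    obtain ⟨Gf, hG⟩ := hSPN n m r i s k hn hm hr φ hφ
    refine ⟨fun y => Gf y.1.1 y.1.2.1 y.1.2.2, ?_⟩
    funext α
    show (if Um i α then _ else (0 : ℂ)) = φ α
    by_cases hα : Um i α
    · rw [hG α hα, if_pos hα]
      refine Finset.sum_congr rfl fun S hS => ?_
      by_cases hs : dd (del S α) ≤ s
      · rw [if_pos hs, dif_pos (DIM_yok hα hs)]
      · rw [if_neg hs, dif_neg (fun h => hs h.2.2.2.2.1)]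
    · rw [if_neg hα]
      symm
      by_contra h
      exact hα (hφ.1 α h)
  calc Module.finrank ℂ (Rel n m r i)
      ≤ Module.finrank ℂ (LinearMap.range (DIM_L n m i s)) := Submodule.finrank_mono hle
    _ ≤ Module.finrank ℂ ({y : Finset (Fin n) × Finset (Fin m) × Cf n m // Yok i s y} → ℂ) :=
        LinearMap.finrank_range_le _
    _ = Fintype.card {y : Finset (Fin n) × Finset (Fin m) × Cf n m // Yok i s y} :=
        Module.finrank_fintype_fun_eq_card ℂ

end Pool.RookLC.NL

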