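import Pool.Agent.Work.MP_6f78fb_nl.Basic

/-! THEOREM NL, block EQI (helper4). -/

open scoped BigOperators TensorProduct
open Classical

noncomputable section

namespace Pool.RookLC.NL

open Pool.RookLC Pool.RookLC.Lin

/-- A finite set with a free action is `Γ × O`. -/
theorem EQI_aux (Γ X : Type) [Group Γ] [Fintype Γ] [Fintype X] (a : Γ → X → X) (ha : IsAct a)
    (hf : IsFree a) : ∃ (O : Type) (_ : Fintype O) (e : Γ × O ≃ X),
      ∀ g h o, a g (e (h, o)) = e (g * h, o) := by
  let s : Setoid X :=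
    { r := fun x y => ∃ g, a g x = y
      iseqv := ⟨fun x => ⟨1, ha.one x⟩, fun {x y} ⟨g, hg⟩ => ⟨g⁻¹, by
        rw [← hg, ← ha.mul, inv_mul_cancel, ha.one]⟩, fun {x y z} ⟨g, hg⟩ ⟨h, hh⟩ => ⟨h * g, by
        rw [ha.mul, hg, hh]⟩⟩ }
  have hinj : ∀ g h x, a g x = a h x → g = h := by
    intro g h x hx
    have h1 : a (h⁻¹ * g) x = x := by rw [ha.mul, hx, ← ha.mul, inv_mul_cancel, ha.one]
    have h2 := hf _ _ h1
    exact (inv_mul_eq_one.1 h2).symm
  have hbij : Function.Bijective (fun p : Γ × Quotient s => a p.1 p.2.out) := by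
    constructor
    · rintro ⟨g, o⟩ ⟨h, o'⟩ hgh
      have hgh' : a g o.out = a h o'.out := hgh
      have ho : o = o' := by
        rw [← Quotient.out_eq o, ← Quotient.out_eq o']
        refine Quotient.sound (s := s) ?_
        refine ⟨h⁻¹ * g, ?_⟩
        rw [ha.mul, hgh', ← ha.mul, inv_mul_cancel, ha.one]
      subst ho
      rw [hinj _ _ _ hgh']
    · intro x
      obtain ⟨g, hg⟩ : ∃ g, a g (Quotient.mk s x).out = x := Quotient.mk_out (s := s) x
      exact ⟨(g, Quotient.mk s x), hg⟩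
  refine ⟨Quotient s, Fintype.ofFinite _, Equiv.ofBijective _ hbij, fun g h o => ?_⟩
  show a g (a h o.out) = a (g * h) o.out
  rw [ha.mul]

theorem p_EQI : Stmt_EQI := by
  intro Γ X Y _ _ _ _ a b ha hb hfa hfb hc
  obtain ⟨O, _, e, he⟩ := EQI_aux Γ X a ha hfa
  obtain ⟨O', _, e', he'⟩ := EQI_aux Γ Y b hb hfb
  have h1 : Fintype.card X = Fintype.card Γ * Fintype.card O := by
    rw [← Fintype.card_congr e, Fintype.card_prod]
  have h2 : Fintype.card Y = Fintype.card Γ * Fintype.card O' := by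
    rw [← Fintype.card_congr e', Fintype.card_prod]
  have h3 : 0 < Fintype.card Γ := Fintype.card_pos
  have h4 : Fintype.card O ≤ Fintype.card O' := by
    rw [h1, h2] at hc
    exact Nat.le_of_mul_le_mul_left hc h3
  obtain ⟨i⟩ := Function.Embedding.nonempty_of_card_le h4
  refine ⟨fun x => e' ((e.symm x).1, i (e.symm x).2), ?_, ?_⟩
  · intro x y hxy
    have h5 := e'.injective hxy
    have h6 := (Prod.ext_iff.1 h5).1
    have h7 := i.injective (Prod.ext_iff.1 h5).2
    exact e.symm.injective (Prod.ext h6 h7)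
  · intro g x
    obtain ⟨⟨h, o⟩, rfl⟩ := e.surjective x
    show e' ((e.symm (a g (e (h, o)))).1, i (e.symm (a g (e (h, o)))).2) =
      b g (e' ((e.symm (e (h, o))).1, i (e.symm (e (h, o))).2))
    rw [he, Equiv.symm_apply_apply, Equiv.symm_apply_apply, he']

end Pool.RookLC.NL
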