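import Pool.Agent.Work.MP_6f78fb_nl.Basic

/-!
# MP_6f78fb_co, THEOREM NL: block FEM (push forward of functions)
-/

open scoped BigOperators TensorProduct
open Classical

noncomputable section

namespace Pool.RookLC.NL

open Pool.RookLC Pool.RookLC.Lin

theorem p_FEM : Stmt_FEM := by
  intro Γ X Y _ a b ha hb f hf hfe
  refine ⟨Function.ExtendByZero.linearMap ℂ f, ?_, ?_⟩
  · intro F F' h
    funext x
    have h1 : Function.extend f F 0 (f x) = Function.extend f F' 0 (f x) := congrFun h (f x)
    rw [hf.extend_apply, hf.extend_apply] at h1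
    exact h1
  · intro g F
    funext y
    rw [fr_apply]
    show Function.extend f (fr a ha g F) 0 y = Function.extend f F 0 (b g⁻¹ y)
    by_cases h : ∃ x, f x = y
    · obtain ⟨x, rfl⟩ := h
      rw [← hfe, hf.extend_apply, hf.extend_apply, fr_apply]
    · have h' : ¬ ∃ x, f x = b g⁻¹ y := by
        rintro ⟨x, hx⟩
        apply h
        refine ⟨a g x, ?_⟩
        rw [hfe, hx, ← hb.mul, mul_inv_cancel, hb.one]
      rw [Function.extend_apply' _ _ _ h, Function.extend_apply' _ _ _ h']
      rfl

end Pool.RookLC.NL
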