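import Pool.Agent.Work.MP_6f78fb_nl.Basic

/-!
# MP_6f78fb_co, THEOREM NL: block FPT, the number of points with trivial stabiliser
-/

open scoped BigOperators TensorProduct
open Classical

noncomputable section

namespace Pool.RookLC.NL

open Pool.RookLC Pool.RookLC.Lin

theorem p_FPT : Stmt_FPT := by
  intro Γ Y _ _ _ a ha
  have h1 : (Finset.univ : Finset Y) ⊆
      (Finset.univ.filter fun y => ∀ g, a g y = y → g = 1) ∪
        ((Finset.univ : Finset Γ).erase 1).biUnion
          (fun g => Finset.univ.filter fun y => a g y = y) := by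
    intro y _
    rw [Finset.mem_union, Finset.mem_filter, Finset.mem_biUnion]
    by_cases hy : ∀ g, a g y = y → g = 1
    · exact Or.inl ⟨Finset.mem_univ _, hy⟩
    · push Not at hy
      obtain ⟨g, hg, hg1⟩ := hy
      exact Or.inr ⟨g, Finset.mem_erase.2 ⟨hg1, Finset.mem_univ _⟩,
        Finset.mem_filter.2 ⟨Finset.mem_univ _, hg⟩⟩
  have h2 := (Finset.card_le_card h1).trans (Finset.card_union_le _ _)
  have h3 := h2.trans (Nat.add_le_add_left (Finset.card_biUnion_le) _)
  rw [Finset.card_univ] at h3
  rw [Fintype.card_subtype]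
  refine h3.trans (Nat.add_le_add_left (Finset.sum_le_sum fun g _ => ?_) _)
  rw [Fintype.card_subtype]

end Pool.RookLC.NL
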