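import Pool.Agent.Work.MP_6f78fb_nl.Basic

/-!
# Block FRC: free covers and Burnside's lemma
-/

open scoped BigOperators TensorProduct
open Classical

noncomputable section

namespace Pool.RookLC.NL

open Pool.RookLC Pool.RookLC.Lin

theorem p_FRC : Stmt_FRC := by
  intro Γ X _ _ _ a ha
  letI : MulAction Γ X :=
    { smul := a
      one_smul := ha.one
      mul_smul := ha.mul }
  haveI : Fintype (Quotient (MulAction.orbitRel Γ X)) := Fintype.ofFinite _
  refine ⟨Γ × Quotient (MulAction.orbitRel Γ X), inferInstance, fun g x => (g * x.1, x.2),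
    fun x => a x.1 x.2.out, ⟨?_, ?_⟩, ?_, ?_, ?_, ?_⟩
  · rintro g h ⟨k, o⟩
    simp only [mul_assoc]
  · rintro ⟨k, o⟩
    simp only [one_mul]
  · rintro g ⟨k, o⟩ h
    have h1 : g * k = k := congrArg Prod.fst h
    exact mul_eq_right.mp h1
  · intro x
    have h1 : (Quotient.mk (MulAction.orbitRel Γ X) x).out ∈ MulAction.orbit Γ x :=
      Quotient.mk_out (s := MulAction.orbitRel Γ X) x
    obtain ⟨g, hg⟩ := h1
    have hg' : a g x = (Quotient.mk (MulAction.orbitRel Γ X) x).out := hg
    refine ⟨(g⁻¹, Quotient.mk (MulAction.orbitRel Γ X) x), ?_⟩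
    show a g⁻¹ (Quotient.mk (MulAction.orbitRel Γ X) x).out = x
    rw [← hg', ← ha.mul, inv_mul_cancel, ha.one]
  · rintro g ⟨k, o⟩
    exact ha.mul g k _
  · have hB := MulAction.sum_card_fixedBy_eq_card_orbits_mul_card_group Γ X
    rw [Fintype.card_prod, mul_comm]
    refine Eq.trans ?_ (hB.symm.trans ?_)
    · rfl
    · refine Finset.sum_congr rfl fun g _ => ?_
      refine Fintype.card_congr (Equiv.refl _)

end Pool.RookLC.NL
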