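import Pool.Agent.Work.MP_6f78fb_nl.Basic

open scoped BigOperators TensorProduct
open Classical

noncomputable section

namespace Pool.RookLC.NL

open Pool.RookLC Pool.RookLC.Lin

theorem p_FSW : Stmt_FSW := by
  intro n m H hH g' hg' j a h1 h2
  obtain ⟨g, hg, rfl⟩ := Subgroup.mem_map.1 hg'
  have h3 : g = 1 := hH g hg a j h2 h1
  rw [h3, map_one]

end Pool.RookLC.NL
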