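import Pool.Agent.Work.MP_6f78fb_nl.Basic
import Pool.Agent.Work.MP_6f78fb_nl.B_CIN

/-! # Block FXB: placements fixed by an element without fixed cell, double counting -/

open scoped BigOperators TensorProduct
open Classical

noncomputable section

namespace Pool.RookLC.NL

open Pool.RookLC Pool.RookLC.Lin

/-- four distinct elements -/
def FXB_D {X : Type} (a b c d : X) : Prop := a ≠ b ∧ a ≠ c ∧ a ≠ d ∧ b ≠ c ∧ b ≠ d ∧ c ≠ d

theorem FXB_card4 {X : Type} [DecidableEq X] {a b c d : X} (h : FXB_D a b c d) :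
    ({a, b, c, d} : Finset X).card = 4 := by
  obtain ⟨h1, h2, h3, h4, h5, h6⟩ := h
  rw [Finset.card_insert_of_notMem (by simp [h1, h2, h3]),
    Finset.card_insert_of_notMem (by simp [h4, h5]),
    Finset.card_insert_of_notMem (by simp [h6]), Finset.card_singleton]

/-- the tuples `(a, c, a', c')` -/
def FXB_T {n m : ℕ} (s : Equiv.Perm (Fin n)) (t : Equiv.Perm (Fin m)) :
    Finset ((Fin n × Fin m) × (Fin n × Fin m)) :=
  Finset.univ.filter fun τ =>
    FXB_D τ.1.1 (s τ.1.1) τ.2.1 (s τ.2.1) ∧ FXB_D τ.1.2 (t τ.1.2) τ.2.2 (t τ.2.2)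

theorem FXB_Tcard {n m : ℕ} (s : Equiv.Perm (Fin n)) (t : Equiv.Perm (Fin m)) :
    (FXB_T s t).card ≤ n * m * ((n - 2) * (m - 2)) := by
  have h : ∀ b ∈ (Finset.univ : Finset (Fin n × Fin m)),
      ((FXB_T s t).filter fun τ => Prod.fst τ = b).card ≤ (n - 2) * (m - 2) := by
    rintro ⟨a, c⟩ -
    rcases Finset.eq_empty_or_nonempty ((FXB_T s t).filter fun τ => Prod.fst τ = (a, c)) with he | ⟨τ, hτ⟩
    · rw [he, Finset.card_empty]
      exact Nat.zero_le _
    · rw [Finset.mem_filter] at hτ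
      obtain ⟨h1, h2⟩ := hτ
      obtain ⟨-, h3, h4⟩ := Finset.mem_filter.1 h1
      rw [h2] at h3 h4
      have e1 : (({a, s a} : Finset (Fin n))ᶜ).card = n - 2 := by
        rw [Finset.card_compl, Fintype.card_fin, Finset.card_pair h3.1]
      have e2 : (({c, t c} : Finset (Fin m))ᶜ).card = m - 2 := by
        rw [Finset.card_compl, Fintype.card_fin, Finset.card_pair h4.1]
      rw [← e1, ← e2, ← Finset.card_product]
      refine Finset.card_le_card_of_injOn Prod.snd ?_ ?_
      · intro σ hσ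
        obtain ⟨g1, g2⟩ := Finset.mem_filter.1 (Finset.mem_coe.1 hσ)
        obtain ⟨-, g3, g4⟩ := Finset.mem_filter.1 g1
        rw [g2] at g3 g4
        refine Finset.mem_coe.2 (Finset.mem_product.2 ⟨?_, ?_⟩)
        · rw [Finset.mem_compl, Finset.mem_insert, Finset.mem_singleton]
          rintro (h5 | h5)
          · exact g3.2.1 h5.symm
          · exact g3.2.2.2.1 h5.symm
        · rw [Finset.mem_compl, Finset.mem_insert, Finset.mem_singleton]
          rintro (h5 | h5)
          · exact g4.2.1 h5.symm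
          · exact g4.2.2.2.1 h5.symm
      · intro σ hσ σ' hσ' hh
        obtain ⟨-, g2⟩ := Finset.mem_filter.1 (Finset.mem_coe.1 hσ)
        obtain ⟨-, g2'⟩ := Finset.mem_filter.1 (Finset.mem_coe.1 hσ')
        exact Prod.ext (g2.trans g2'.symm) hh
  have h2 := Finset.card_le_mul_card_image_of_maps_to (f := Prod.fst) (s := FXB_T s t)
    (t := (Finset.univ : Finset (Fin n × Fin m))) (fun τ _ => Finset.mem_univ _) _ h
  rw [Finset.card_univ, Fintype.card_prod, Fintype.card_fin, Fintype.card_fin] at h2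
  calc (FXB_T s t).card ≤ (n - 2) * (m - 2) * (n * m) := h2
    _ = n * m * ((n - 2) * (m - 2)) := Nat.mul_comm _ _

/-- the fixed placements -/
def FXB_F {n m : ℕ} (j : ℕ) (g : G n m) : Finset (Cf n m) :=
  Finset.univ.filter fun α => Um j α ∧ actC g α = α

theorem FXB_step {n m : ℕ} {g : G n m} {α : Cf n m} (h : actC g α = α) {a : Fin n} {x : Fin m}
    (ha : α a = some (some x)) : α (g.1 a) = some (some (g.2 x)) := by
  have h1 := helper70.actC_apply g α a
  rw [h, ha] at h1
  exact h1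

/-- the relation between placements and tuples -/
def FXB_r {n m : ℕ} (α : Cf n m) (τ : (Fin n × Fin m) × (Fin n × Fin m)) : Prop :=
  α τ.1.1 = some (some τ.1.2) ∧ α τ.2.1 = some (some τ.2.2)

theorem FXB_above {n m j : ℕ} {g : G n m} (hg : ∀ a c, ¬ (g.1 a = a ∧ g.2 c = c)) {α : Cf n m}
    (hα : α ∈ FXB_F j g) :
    j * (j - 3) ≤ (Finset.bipartiteAbove FXB_r (FXB_T g.1 g.2) α).card := by
  obtain ⟨-, ⟨hv, ht, hd⟩, hfix⟩ := Finset.mem_filter.1 hα
  have hP : j * (j - 3) ≤
      ((supp α).sigma fun a => supp α \ {a, g.1 a, g.1.symm a}).card := by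
    rw [Finset.card_sigma]
    have e : j * (j - 3) = ∑ _a ∈ supp α, (j - 3) := by
      rw [Finset.sum_const, smul_eq_mul]
      exact congrArg (· * (j - 3)) hd.symm
    rw [e]
    refine Finset.sum_le_sum fun a _ => ?_
    have h1 : (supp α).card - ({a, g.1 a, g.1.symm a} : Finset (Fin n)).card ≤
        (supp α \ {a, g.1 a, g.1.symm a}).card := Finset.le_card_sdiff _ _
    have h2 : ({a, g.1 a, g.1.symm a} : Finset (Fin n)).card ≤ 3 := Finset.card_le_three
    have h3 : (supp α).card = j := hd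
    omega
  refine hP.trans ?_
  refine Finset.card_le_card_of_surjOn (fun τ => ⟨τ.1.1, τ.2.1⟩) ?_
  rintro ⟨a, a'⟩ hp
  obtain ⟨h1, h2⟩ := Finset.mem_sigma.1 (Finset.mem_coe.1 hp)
  dsimp only at h1 h2
  rw [Finset.mem_sdiff] at h2
  obtain ⟨h2, h3⟩ := h2
  obtain ⟨x, hx⟩ := CIN_rook ht (Finset.mem_filter.1 h1).2
  obtain ⟨x', hx'⟩ := CIN_rook ht (Finset.mem_filter.1 h2).2
  have hsx := FXB_step hfix hx
  have hsx' := FXB_step hfix hx'
  have k1 : a ≠ g.1 a := by
    intro he
    refine hg a x ⟨he.symm, ?_⟩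
    rw [← he, hx] at hsx
    exact (Option.some_injective _ (Option.some_injective _ hsx)).symm
  have k6 : a' ≠ g.1 a' := by
    intro he
    refine hg a' x' ⟨he.symm, ?_⟩
    rw [← he, hx'] at hsx'
    exact (Option.some_injective _ (Option.some_injective _ hsx')).symm
  have k2 : a ≠ a' := by
    rintro rfl
    exact h3 (Finset.mem_insert_self _ _)
  have k4 : g.1 a ≠ a' := by
    rintro rfl
    exact h3 (by simp)
  have k3 : a ≠ g.1 a' := by
    intro he
    apply h3
    have : a' = g.1.symm a := by rw [he, Equiv.symm_apply_apply]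
    rw [this]
    simp
  have k5 : g.1 a ≠ g.1 a' := fun he => k2 (g.1.injective he)
  have key : ∀ {b b' : Fin n} {y y' : Fin m}, b ≠ b' → α b = some (some y) →
      α b' = some (some y') → y ≠ y' := by
    intro b b' y y' hne hb hb' he
    rw [← he] at hb'
    exact hne (hv b b' _ hb hb')
  refine ⟨((a, x), (a', x')), ?_, rfl⟩
  refine Finset.mem_coe.2 ((Finset.mem_bipartiteAbove FXB_r).2 ⟨?_, hx, hx'⟩)
  refine Finset.mem_filter.2 ⟨Finset.mem_univ _, ⟨k1, k2, k3, k4, k5, k6⟩, ?_⟩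
  exact ⟨key k1 hx hsx, key k2 hx hx', key k3 hx hsx', key k4 hsx hx', key k5 hsx hsx',
    key k6 hx' hsx'⟩

theorem FXB_below (hCIN : Stmt_CIN) {n m j : ℕ} {g : G n m}
    {τ : (Fin n × Fin m) × (Fin n × Fin m)} (hτ : τ ∈ FXB_T g.1 g.2) :
    (Finset.bipartiteBelow FXB_r (FXB_F j g) τ).card ≤
      (n - 4).choose (j - 4) * (m - 4).choose (j - 4) * (j - 4).factorial := by
  obtain ⟨⟨a, x⟩, ⟨a', x'⟩⟩ := τ
  obtain ⟨-, hR, hC⟩ := Finset.mem_filter.1 hτ
  dsimp only at hR hC
  have cR := FXB_card4 hR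
  have cC := FXB_card4 hC
  obtain ⟨R, hRd⟩ : ∃ R : Finset (Fin n), R = {a, g.1 a, a', g.1 a'} := ⟨_, rfl⟩
  obtain ⟨C, hCd⟩ : ∃ C : Finset (Fin m), C = {x, g.2 x, x', g.2 x'} := ⟨_, rfl⟩
  rw [← hRd] at cR
  rw [← hCd] at cC
  have hc := hCIN n m Rᶜ Cᶜ (j - 4)
  rw [Finset.card_compl, Finset.card_compl, Fintype.card_fin, Fintype.card_fin, cR, cC] at hc
  rw [← hc, ← Fintype.card_coe]
  have hval : ∀ α ∈ Finset.bipartiteBelow FXB_r (FXB_F j g) ((a, x), (a', x')),
      α a = some (some x) ∧ α (g.1 a) = some (some (g.2 x)) ∧ α a' = some (some x') ∧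
        α (g.1 a') = some (some (g.2 x')) := by
    intro α hα
    obtain ⟨h1, h2, h3⟩ := (Finset.mem_bipartiteBelow FXB_r).1 hα
    obtain ⟨-, -, hfix⟩ := Finset.mem_filter.1 h1
    exact ⟨h2, FXB_step hfix h2, h3, FXB_step hfix h3⟩
  refine Fintype.card_le_of_injective (fun α => ⟨del R α.1, ?_⟩) ?_
  · obtain ⟨α, hα⟩ := α
    obtain ⟨v1, v2, v3, v4⟩ := hval α hα
    obtain ⟨h1, -, -⟩ := (Finset.mem_bipartiteBelow FXB_r).1 hα
    obtain ⟨-, ⟨hv, ht, hd⟩, hfix⟩ := Finset.mem_filter.1 h1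
    show Valid (del R α) ∧ tt (del R α) = 0 ∧ dd (del R α) = j - 4 ∧ supp (del R α) ⊆ Rᶜ ∧
      cols (del R α) ⊆ Cᶜ
    have hdel : ∀ b y, del R α b = some y → b ∉ R ∧ α b = some y := by
      intro b y hb
      unfold del at hb
      by_cases hbR : b ∈ R
      · rw [if_pos hbR] at hb
        exact absurd hb (by simp)
      · rw [if_neg hbR] at hb
        exact ⟨hbR, hb⟩
    have hRs : R ⊆ supp α := by
      intro b hb
      rw [hRd] at hb
      simp only [Finset.mem_insert, Finset.mem_singleton] at hb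
      refine Finset.mem_filter.2 ⟨Finset.mem_univ _, ?_⟩
      rcases hb with rfl | rfl | rfl | rfl
      · rw [v1]; simp
      · rw [v2]; simp
      · rw [v3]; simp
      · rw [v4]; simp
    have hsupp : supp (del R α) = supp α \ R := by
      ext b
      simp only [supp, Finset.mem_filter, Finset.mem_univ, true_and, Finset.mem_sdiff, del]
      by_cases hbR : b ∈ R
      · simp [hbR]
      · simp [hbR]
    refine ⟨?_, ?_, ?_, ?_, ?_⟩
    · intro b b' y hb hb'
      exact hv b b' y (hdel b _ hb).2 (hdel b' _ hb').2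
    · unfold tt
      rw [Finset.card_eq_zero, Finset.filter_eq_empty_iff]
      intro b _ hb
      unfold tt at ht
      rw [Finset.card_eq_zero, Finset.filter_eq_empty_iff] at ht
      exact ht (Finset.mem_univ b) (hdel b _ hb).2
    · show (supp (del R α)).card = j - 4
      rw [hsupp, Finset.card_sdiff_of_subset hRs, cR]
      have h3 : (supp α).card = j := hd
      rw [h3]
    · rw [hsupp]
      intro b hb
      exact Finset.mem_compl.2 (Finset.mem_sdiff.1 hb).2
    · intro y hy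
      rw [Finset.mem_compl]
      intro hyC
      obtain ⟨-, b, hb⟩ := Finset.mem_filter.1 hy
      obtain ⟨hbR, hb⟩ := hdel b _ hb
      apply hbR
      rw [hCd] at hyC
      rw [hRd]
      simp only [Finset.mem_insert, Finset.mem_singleton] at hyC ⊢
      rcases hyC with rfl | rfl | rfl | rfl
      · exact Or.inl (hv _ _ _ hb v1)
      · exact Or.inr (Or.inl (hv _ _ _ hb v2))
      · exact Or.inr (Or.inr (Or.inl (hv _ _ _ hb v3)))
      · exact Or.inr (Or.inr (Or.inr (hv _ _ _ hb v4)))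
  · rintro ⟨α, hα⟩ ⟨β, hβ⟩ hab
    have hab' : del R α = del R β := congrArg Subtype.val hab
    obtain ⟨v1, v2, v3, v4⟩ := hval α hα
    obtain ⟨w1, w2, w3, w4⟩ := hval β hβ
    refine Subtype.ext (funext fun b => ?_)
    show α b = β b
    by_cases hb : b ∈ R
    · rw [hRd] at hb
      simp only [Finset.mem_insert, Finset.mem_singleton] at hb
      rcases hb with rfl | rfl | rfl | rfl
      · rw [v1, w1]
      · rw [v2, w2]
      · rw [v3, w3]
      · rw [v4, w4]
    · have := congrFun hab' b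
      unfold del at this
      rwa [if_neg hb, if_neg hb] at this

theorem p_FXB (hCIN : Stmt_CIN) : Stmt_FXB := by
  intro n m j g hg hj
  have h1 : Fintype.card {z : Z n m j // aZ j g z = z} ≤ (FXB_F j g).card := by
    rw [← Fintype.card_coe]
    refine Fintype.card_le_of_injective (fun z => ⟨z.1.1, ?_⟩) ?_
    · exact Finset.mem_filter.2 ⟨Finset.mem_univ _, z.1.2, congrArg Subtype.val z.2⟩
    · rintro ⟨⟨z, hz⟩, hz'⟩ ⟨⟨w, hw⟩, hw'⟩ h
      have : z = w := congrArg Subtype.val h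
      subst this
      rfl
  have h2 := Finset.card_mul_le_card_mul (s := FXB_F j g) (t := FXB_T g.1 g.2) FXB_r
    (fun α hα => FXB_above hg hα) (fun τ hτ => FXB_below hCIN hτ)
  calc j * (j - 3) * Fintype.card {z : Z n m j // aZ j g z = z}
      ≤ j * (j - 3) * (FXB_F j g).card := Nat.mul_le_mul_left _ h1
    _ = (FXB_F j g).card * (j * (j - 3)) := Nat.mul_comm _ _
    _ ≤ (FXB_T g.1 g.2).card *
        ((n - 4).choose (j - 4) * (m - 4).choose (j - 4) * (j - 4).factorial) := h2
    _ ≤ _ := Nat.mul_le_mul_right _ (FXB_Tcard g.1 g.2)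

end Pool.RookLC.NL
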