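import Pool.Agent.Work.MP_6f78fb_nl.Basic

/-!
# Block FXR: the proportion of the fixed placements
-/

open scoped BigOperators TensorProduct
open Classical

namespace Pool.RookLC.NL

open Pool.RookLC Pool.RookLC.Lin

theorem FXR_choose (n j : ℕ) :
    (n + 4).choose (j + 4) * ((j + 4) * (j + 3) * (j + 2) * (j + 1)) =
      n.choose j * ((n + 4) * (n + 3) * (n + 2) * (n + 1)) := by
  have h1 := Nat.add_one_mul_choose_eq n j
  have h2 := Nat.add_one_mul_choose_eq (n + 1) (j + 1)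
  have h3 := Nat.add_one_mul_choose_eq (n + 2) (j + 2)
  have h4 := Nat.add_one_mul_choose_eq (n + 3) (j + 3)
  simp only [Nat.succ_eq_add_one, add_assoc, Nat.reduceAdd] at h1 h2 h3 h4
  calc (n + 4).choose (j + 4) * ((j + 4) * (j + 3) * (j + 2) * (j + 1))
      = ((n + 4).choose (j + 4) * (j + 4)) * ((j + 3) * (j + 2) * (j + 1)) := by ring
    _ = ((n + 4) * (n + 3).choose (j + 3)) * ((j + 3) * (j + 2) * (j + 1)) := by rw [h4]
    _ = (n + 4) * ((n + 3).choose (j + 3) * (j + 3)) * ((j + 2) * (j + 1)) := by ring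
    _ = (n + 4) * ((n + 3) * (n + 2).choose (j + 2)) * ((j + 2) * (j + 1)) := by rw [h3]
    _ = (n + 4) * (n + 3) * ((n + 2).choose (j + 2) * (j + 2)) * (j + 1) := by ring
    _ = (n + 4) * (n + 3) * ((n + 2) * (n + 1).choose (j + 1)) * (j + 1) := by rw [h2]
    _ = (n + 4) * (n + 3) * (n + 2) * ((n + 1).choose (j + 1) * (j + 1)) := by ring
    _ = (n + 4) * (n + 3) * (n + 2) * ((n + 1) * n.choose j) := by rw [h1]
    _ = n.choose j * ((n + 4) * (n + 3) * (n + 2) * (n + 1)) := by ring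

theorem FXR_fact (j : ℕ) :
    (j + 4).factorial = (j + 4) * (j + 3) * (j + 2) * (j + 1) * j.factorial := by
  rw [show j + 4 = (j + 3) + 1 from rfl, Nat.factorial_succ, show j + 3 = (j + 2) + 1 from rfl,
    Nat.factorial_succ, show j + 2 = (j + 1) + 1 from rfl, Nat.factorial_succ, Nat.factorial_succ]
  ring

theorem FXR_arith (n m j X Z : ℕ)
    (hZ : Z = (n + 4).choose (j + 4) * (m + 4).choose (j + 4) * (j + 4).factorial)
    (hX : (j + 4) * (j + 1) * X ≤ (n + 4) * (m + 4) * ((n + 2) * (m + 2)) *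
      (n.choose j * m.choose j * j.factorial)) :
    (n + 3) * (n + 1) * ((m + 3) * (m + 1)) * X ≤ (j + 3) * (j + 2) * Z := by
  have hJ : 0 < (j + 4) * (j + 3) * (j + 2) * (j + 1) := by positivity
  apply Nat.le_of_mul_le_mul_left _ hJ
  have e1 : (j + 4) * (j + 3) * (j + 2) * (j + 1) * ((j + 3) * (j + 2) * Z) =
      (j + 3) * (j + 2) * (((n + 4).choose (j + 4) * ((j + 4) * (j + 3) * (j + 2) * (j + 1))) *
        ((m + 4).choose (j + 4) * ((j + 4) * (j + 3) * (j + 2) * (j + 1))) * j.factorial) := by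
    rw [hZ, FXR_fact]
    ring
  rw [e1, FXR_choose, FXR_choose]
  calc (j + 4) * (j + 3) * (j + 2) * (j + 1) * ((n + 3) * (n + 1) * ((m + 3) * (m + 1)) * X)
      = (j + 3) * (j + 2) * ((n + 3) * (n + 1) * ((m + 3) * (m + 1))) *
        ((j + 4) * (j + 1) * X) := by ring
    _ ≤ (j + 3) * (j + 2) * ((n + 3) * (n + 1) * ((m + 3) * (m + 1))) *
        ((n + 4) * (m + 4) * ((n + 2) * (m + 2)) * (n.choose j * m.choose j * j.factorial)) :=
        Nat.mul_le_mul_left _ hX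
    _ = (j + 3) * (j + 2) * (n.choose j * ((n + 4) * (n + 3) * (n + 2) * (n + 1)) *
        (m.choose j * ((m + 4) * (m + 3) * (m + 2) * (m + 1))) * j.factorial) := by ring

theorem p_FXR (hFXB : Stmt_FXB) (hCNZ : Stmt_CNZ) : Stmt_FXR := by
  intro n m j g hg hj hjn hjm
  have h1 := hFXB n m j g hg hj
  have h2 := hCNZ n m j
  obtain ⟨j', rfl⟩ : ∃ j', j = j' + 4 := ⟨j - 4, by omega⟩
  obtain ⟨n', rfl⟩ : ∃ n', n = n' + 4 := ⟨n - 4, by omega⟩
  obtain ⟨m', rfl⟩ : ∃ m', m = m' + 4 := ⟨m - 4, by omega⟩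
  exact FXR_arith n' m' j' _ _ h2 h1

end Pool.RookLC.NL
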