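import Pool.Agent.Work.MP_6f78fb_nl.Basic

/-! Block GAP (helper89). -/

open scoped BigOperators TensorProduct
open Classical

namespace Pool.RookLC.NL

open Pool.RookLC Pool.RookLC.Lin

theorem p_GAP : Stmt_GAP := by
  intro n m i hi hin him
  obtain ⟨j, rfl⟩ : ∃ j, i = j + 1 := ⟨i - 1, by omega⟩
  obtain ⟨a, rfl⟩ : ∃ a, n = j + 1 + a := ⟨n - (j + 1), by omega⟩
  obtain ⟨b, rfl⟩ : ∃ b, m = j + 1 + b := ⟨m - (j + 1), by omega⟩
  have e1 : j + 1 + a - (j + 1) = a := by omega
  have e2 : j + 1 - 1 = j := by omega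
  rw [e1, e2]
  have a1 : (j + 1 + a).choose (j + 1) * (j + 1) = (j + 1 + a).choose j * (a + 1) := by
    rw [Nat.choose_succ_right_eq, show j + 1 + a - j = a + 1 by omega]
  have a2 : (j + 1 + a).choose (j + 1 + 1) * (j + 2) = (j + 1 + a).choose (j + 1) * a := by
    have := Nat.choose_succ_right_eq (j + 1 + a) (j + 1)
    rw [e1] at this
    exact this
  have b1 : (j + 1 + b).choose (j + 1) * (j + 1) = (j + 1 + b).choose j * (b + 1) := by
    rw [Nat.choose_succ_right_eq, show j + 1 + b - j = b + 1 by omega]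
  have b2 : (j + 1 + b).choose (j + 1 + 1) * (j + 2) = (j + 1 + b).choose (j + 1) * b := by
    have := Nat.choose_succ_right_eq (j + 1 + b) (j + 1)
    rw [show j + 1 + b - (j + 1) = b by omega] at this
    exact this
  generalize (j + 1 + a).choose (j + 1) = A at *
  generalize (j + 1 + a).choose j = A0 at *
  generalize (j + 1 + a).choose (j + 1 + 1) = A2 at *
  generalize (j + 1 + b).choose (j + 1) = B at *
  generalize (j + 1 + b).choose j = B0 at *
  generalize (j + 1 + b).choose (j + 1 + 1) = B2 at *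
  have f1 : (j + 1).factorial = (j + 1) * j.factorial := Nat.factorial_succ j
  have f2 : (j + 1 + 1).factorial = (j + 2) * ((j + 1) * j.factorial) := by
    rw [Nat.factorial_succ, f1]
  rw [f1, f2]
  generalize j.factorial = F
  calc (j + 1 + 1) * (a + 1) * (A0 * B0 * F * (A2 * B2 * ((j + 2) * ((j + 1) * F))))
      = (A0 * (a + 1)) * (A2 * (j + 2)) * (B2 * (j + 2)) * (B0 * (j + 1) * F ^ 2) := by ring
    _ = (A * (j + 1)) * (A * a) * (B * b) * (B0 * (j + 1) * F ^ 2) := by rw [← a1, a2, b2]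
    _ = (A ^ 2 * a * B * (j + 1) ^ 2 * F ^ 2) * (B0 * b) := by ring
    _ ≤ (A ^ 2 * a * B * (j + 1) ^ 2 * F ^ 2) * (B0 * (b + 1)) :=
        Nat.mul_le_mul_left _ (Nat.mul_le_mul_left _ (Nat.le_succ b))
    _ = (A ^ 2 * a * B * (j + 1) ^ 2 * F ^ 2) * (B * (j + 1)) := by rw [← b1]
    _ = (j + 1) * a * (A * B * ((j + 1) * F)) ^ 2 := by ring

end Pool.RookLC.NL
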