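import Pool.Agent.Work.MP_6f78fb_nl.Interface

/-! Block HCD (helper90): the order of a group acting freely on the cells. -/

open scoped BigOperators TensorProduct
open Classical

noncomputable section

namespace Pool.RookLC.NL

open Pool.RookLC Pool.RookLC.Lin

theorem p_HCD : Stmt_HCD := by
  intro n m H hn hm hH
  let f : H → Fin n × Fin m := fun h => (h.1.1 ⟨0, by omega⟩, h.1.2 ⟨0, by omega⟩)
  have hf : Function.Injective f := by
    intro h h' he
    have h1 : h.1.1 ⟨0, by omega⟩ = h'.1.1 ⟨0, by omega⟩ := congrArg Prod.fst he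
    have h2 : h.1.2 ⟨0, by omega⟩ = h'.1.2 ⟨0, by omega⟩ := congrArg Prod.snd he
    have h3 : h'.1⁻¹ * h.1 = 1 := by
      refine hH _ (H.mul_mem (H.inv_mem h'.2) h.2) ⟨0, by omega⟩ ⟨0, by omega⟩ ?_ ?_
      · change (h'.1.1⁻¹ * h.1.1) ⟨0, by omega⟩ = _
        rw [Equiv.Perm.mul_apply, h1]
        exact h'.1.1.symm_apply_apply _
      · change (h'.1.2⁻¹ * h.1.2) ⟨0, by omega⟩ = _
        rw [Equiv.Perm.mul_apply, h2]
        exact h'.1.2.symm_apply_apply _
    exact Subtype.ext (inv_mul_eq_one.1 h3).symm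
  have := Fintype.card_le_of_injective f hf
  rwa [Fintype.card_prod, Fintype.card_fin, Fintype.card_fin] at this

end Pool.RookLC.NL
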