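import Pool.Agent.Work.MP_6f78fb_nl.Basic
import Pool.Agent.Work.MP_6f78fb_lin.B_CC

/-!
# MP_6f78fb_co, THEOREM NL: block HIL
-/

open scoped BigOperators TensorProduct
open Classical

noncomputable section

namespace Pool.RookLC.NL

open Pool.RookLC Pool.RookLC.Lin

/-- the spanning map -/
def HIL_sp (n m r d : ℕ) : Fn n m →ₗ[ℂ] V n m r d where
  toFun φ := ∑ α, φ α • vv n m r d α
  map_add' f g := by
    rw [← Finset.sum_add_distrib]
    exact Finset.sum_congr rfl fun α _ => add_smul _ _ _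
  map_smul' c f := by
    rw [Finset.smul_sum]
    exact Finset.sum_congr rfl fun α _ => mul_smul _ _ _

theorem HIL_fin (n m r d : ℕ) : Module.Finite ℂ (V n m r d) := by
  refine Module.Finite.of_surjective (HIL_sp n m r d) fun v => ?_
  obtain ⟨φ, _, h⟩ := CC_span v
  exact ⟨φ, h⟩

theorem p_HIL : Stmt_HIL := by
  rintro n m r i H ⟨Φ, hΦ, _⟩
  have := HIL_fin n m r i
  have := HIL_fin n m r (i - 1)
  have := HIL_fin n m r (i + 1)
  have h : Module.finrank ℂ (V n m r (i - 1) ⊗[ℂ] V n m r (i + 1)) ≤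
      Module.finrank ℂ (V n m r i ⊗[ℂ] V n m r i) := LinearMap.finrank_le_finrank_of_surjective (f := Φ) hΦ
  rw [Module.finrank_tensorProduct, Module.finrank_tensorProduct] at h
  show Module.finrank ℂ (V n m r (i - 1)) * Module.finrank ℂ (V n m r (i + 1)) ≤
    Module.finrank ℂ (V n m r i) ^ 2
  rw [pow_two]
  exact h

end Pool.RookLC.NL
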