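import Pool.Agent.Work.MP_6f78fb_nl.Basic

set_option autoImplicit false

open scoped BigOperators TensorProduct
open Classical

namespace Pool.RookLC.NL

open Pool.RookLC Pool.RookLC.Lin

theorem p_HSO : Stmt_HSO := by
  intro n m r i H h
  obtain ⟨Φ, h1, h2⟩ := h
  exact ⟨Φ, Φ.isLinear, h1, fun g hg x => LinearMap.congr_fun (h2 g hg) x⟩

end Pool.RookLC.NL
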