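import Pool.Agent.Work.MP_6f78fb_nl.Basic

/-!
# Block NU1: a sequence decreasing by a factor 9
-/

open scoped BigOperators TensorProduct
open Classical

namespace Pool.RookLC.NL

open Pool.RookLC Pool.RookLC.Lin

theorem NU1_step (i D d : ℕ) (h : 9 * i ≤ D ^ 2) (hd : D ≤ d) :
    9 * ((i : ℝ) ^ (d + 1) / (((d + 1).factorial : ℝ)) ^ 2) ≤
      (i : ℝ) ^ d / ((d.factorial : ℝ)) ^ 2 := by
  have hf : (0 : ℝ) < (d.factorial : ℝ) := by exact_mod_cast d.factorial_pos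
  have h1 : (9 : ℝ) * i ≤ ((d : ℝ) + 1) ^ 2 := by
    have h2 : 9 * i ≤ (d + 1) ^ 2 := h.trans (Nat.pow_le_pow_left (by omega) 2)
    exact_mod_cast h2
  have hd1 : (0 : ℝ) < (d : ℝ) + 1 := by positivity
  have e : 9 * ((i : ℝ) ^ (d + 1) / (((d + 1).factorial : ℝ)) ^ 2) =
      ((i : ℝ) ^ d / ((d.factorial : ℝ)) ^ 2) * (9 * i / ((d : ℝ) + 1) ^ 2) := by
    rw [Nat.factorial_succ]
    push_cast
    rw [pow_succ, mul_pow]
    field_simp
  rw [e]
  have h3 : 9 * (i : ℝ) / ((d : ℝ) + 1) ^ 2 ≤ 1 := by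
    rw [div_le_one (by positivity)]
    exact h1
  calc ((i : ℝ) ^ d / ((d.factorial : ℝ)) ^ 2) * (9 * i / ((d : ℝ) + 1) ^ 2) ≤
      ((i : ℝ) ^ d / ((d.factorial : ℝ)) ^ 2) * 1 :=
        mul_le_mul_of_nonneg_left h3 (by positivity)
    _ = (i : ℝ) ^ d / ((d.factorial : ℝ)) ^ 2 := mul_one _

theorem NU1_sum (i D : ℕ) (h : 9 * i ≤ D ^ 2) (L : ℕ) :
    8 * ∑ l ∈ Finset.range (L + 1), (i : ℝ) ^ (D + l) / (((D + l).factorial : ℝ)) ^ 2 ≤
      9 * ((i : ℝ) ^ D / ((D.factorial : ℝ)) ^ 2) -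
        (i : ℝ) ^ (D + L) / (((D + L).factorial : ℝ)) ^ 2 := by
  induction L with
  | zero =>
    rw [zero_add, Finset.sum_range_one, add_zero]
    linarith
  | succ L ih =>
    rw [Finset.sum_range_succ, mul_add]
    have h1 := NU1_step i D (D + L) h (Nat.le_add_right _ _)
    have e : D + (L + 1) = D + L + 1 := by ring
    rw [e]
    linarith

theorem NU1_term (i d : ℕ) (hd : d ≤ i) :
    ((i.choose (i - d) : ℝ)) ^ 2 * ((i - d).factorial : ℝ) ≤
      (i.factorial : ℝ) * ((i : ℝ) ^ d / ((d.factorial : ℝ)) ^ 2) := by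
  have hf : (0 : ℝ) < (d.factorial : ℝ) := by exact_mod_cast d.factorial_pos
  rw [Nat.choose_symm hd]
  have h1 : (i.choose d : ℝ) * (d.factorial : ℝ) * ((i - d).factorial : ℝ) = (i.factorial : ℝ) := by
    exact_mod_cast Nat.choose_mul_factorial_mul_factorial hd
  have h2 : (i.choose d : ℝ) ≤ (i : ℝ) ^ d / (d.factorial : ℝ) := Nat.choose_le_pow_div d i
  have e : ((i.choose d : ℝ)) ^ 2 * ((i - d).factorial : ℝ) =
      (i.choose d : ℝ) * ((i.factorial : ℝ) / (d.factorial : ℝ)) := by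
    rw [← h1]
    field_simp
  rw [e]
  calc (i.choose d : ℝ) * ((i.factorial : ℝ) / (d.factorial : ℝ)) ≤
      ((i : ℝ) ^ d / (d.factorial : ℝ)) * ((i.factorial : ℝ) / (d.factorial : ℝ)) :=
        mul_le_mul_of_nonneg_right h2 (by positivity)
    _ = (i.factorial : ℝ) * ((i : ℝ) ^ d / ((d.factorial : ℝ)) ^ 2) := by
        field_simp

theorem p_NU1 : Stmt_NU1 := by
  intro i D hD hDi h
  have e1 : ∑ t ∈ Finset.range (i - D + 1), ((i.choose t : ℝ)) ^ 2 * (t.factorial : ℝ) =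
      ∑ l ∈ Finset.range (i - D + 1),
        ((i.choose (i - (D + l)) : ℝ)) ^ 2 * ((i - (D + l)).factorial : ℝ) := by
    rw [← Finset.sum_range_reflect]
    refine Finset.sum_congr rfl fun l hl => ?_
    have hl' := Finset.mem_range.1 hl
    have e : i - D + 1 - 1 - l = i - (D + l) := by omega
    rw [e]
  have e2 : ∑ l ∈ Finset.range (i - D + 1),
        ((i.choose (i - (D + l)) : ℝ)) ^ 2 * ((i - (D + l)).factorial : ℝ) ≤
      (i.factorial : ℝ) * ∑ l ∈ Finset.range (i - D + 1),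
        (i : ℝ) ^ (D + l) / (((D + l).factorial : ℝ)) ^ 2 := by
    rw [Finset.mul_sum]
    refine Finset.sum_le_sum fun l hl => ?_
    have hl' := Finset.mem_range.1 hl
    exact NU1_term i (D + l) (by omega)
  have e3 := NU1_sum i D h (i - D)
  have hi : (0 : ℝ) < (i.factorial : ℝ) := by exact_mod_cast i.factorial_pos
  have e4 : (0 : ℝ) ≤ (i : ℝ) ^ (D + (i - D)) / (((D + (i - D)).factorial : ℝ)) ^ 2 := by
    positivity
  rw [e1]
  calc (8 : ℝ) * ∑ l ∈ Finset.range (i - D + 1),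
        ((i.choose (i - (D + l)) : ℝ)) ^ 2 * ((i - (D + l)).factorial : ℝ) ≤
      8 * ((i.factorial : ℝ) * ∑ l ∈ Finset.range (i - D + 1),
        (i : ℝ) ^ (D + l) / (((D + l).factorial : ℝ)) ^ 2) := by linarith
    _ = (i.factorial : ℝ) * (8 * ∑ l ∈ Finset.range (i - D + 1),
        (i : ℝ) ^ (D + l) / (((D + l).factorial : ℝ)) ^ 2) := by ring
    _ ≤ (i.factorial : ℝ) * (9 * ((i : ℝ) ^ D / ((D.factorial : ℝ)) ^ 2)) :=
        mul_le_mul_of_nonneg_left (by linarith) hi.le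
    _ = 9 * (i.factorial : ℝ) * ((i : ℝ) ^ D / ((D.factorial : ℝ)) ^ 2) := by ring

end Pool.RookLC.NL
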