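import Pool.Agent.Work.MP_6f78fb_nl.Interface

/-!
# MP_6f78fb_co, THEOREM NL, block NU2
-/

noncomputable section

namespace Pool.RookLC.NL

theorem NU2_step (D : ℕ) (hD : 9 ≤ D) :
    (((D + 1 : ℕ) : ℝ) / 3) ^ (D + 1) / ((D + 1).factorial : ℝ) ≤
      ((D : ℝ) / 3) ^ D / (D.factorial : ℝ) * (2.7182818286 / 3) := by
  have hD0 : (0 : ℝ) < D := by
    have : 0 < D := by omega
    exact_mod_cast this
  have h1 : (1 + 1 / (D : ℝ)) ^ D ≤ 2.7182818286 := by
    have h2 : 1 + 1 / (D : ℝ) ≤ Real.exp (1 / (D : ℝ)) := by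
      have := Real.add_one_le_exp (1 / (D : ℝ))
      linarith
    calc (1 + 1 / (D : ℝ)) ^ D ≤ (Real.exp (1 / (D : ℝ))) ^ D := by
          apply pow_le_pow_left₀ _ h2
          positivity
      _ = Real.exp 1 := by
          rw [← Real.exp_nat_mul]
          congr 1
          field_simp
      _ ≤ 2.7182818286 := Real.exp_one_lt_d9.le
  have hf : (0 : ℝ) < (D.factorial : ℝ) := by exact_mod_cast D.factorial_pos
  have h3 : (((D + 1 : ℕ) : ℝ) / 3) ^ (D + 1) / ((D + 1).factorial : ℝ) =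
      ((D : ℝ) / 3) ^ D / (D.factorial : ℝ) * ((1 + 1 / (D : ℝ)) ^ D / 3) := by
    have h4 : (((D + 1 : ℕ) : ℝ) / 3) = ((D : ℝ) / 3) * (1 + 1 / (D : ℝ)) := by
      push_cast
      field_simp
    rw [Nat.factorial_succ, pow_succ]
    have h5 : (((D + 1 : ℕ) : ℝ) / 3) ^ D = ((D : ℝ) / 3) ^ D * (1 + 1 / (D : ℝ)) ^ D := by
      rw [h4, mul_pow]
    rw [h5]
    have h6 : ((D + 1 : ℕ) : ℝ) ≠ 0 := by positivity
    push_cast
    push_cast at h6
    field_simp
  rw [h3]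
  apply mul_le_mul_of_nonneg_left _ (by positivity)
  exact div_le_div_of_nonneg_right h1 (by norm_num)

theorem p_NU2 : Stmt_NU2 := by
  intro D hD
  induction D, hD using Nat.le_induction with
  | base => norm_num [Nat.factorial]
  | succ D hD ih =>
    have h1 := NU2_step D hD
    set a : ℝ := ((D : ℝ) / 3) ^ D / (D.factorial : ℝ) with ha
    set b : ℝ := (((D + 1 : ℕ) : ℝ) / 3) ^ (D + 1) / ((D + 1).factorial : ℝ) with hb
    have hb0 : 0 ≤ b := by rw [hb]; positivity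
    have ha0 : 0 ≤ a := by rw [ha]; positivity
    have h2 : b ^ 2 ≤ (a * (2.7182818286 / 3)) ^ 2 := pow_le_pow_left₀ hb0 h1 2
    have hDr : (9 : ℝ) ≤ D := by exact_mod_cast hD
    have h3 : 90 * ((((D + 1 : ℕ) : ℝ)) ^ 2 + 9) ≤ 109 * ((D : ℝ) ^ 2 + 9) := by
      push_cast
      nlinarith
    have h4 : 0 ≤ (D : ℝ) ^ 2 / 9 + 1 := by positivity
    calc (27 / 2 : ℝ) * ((((D + 1 : ℕ) : ℝ)) ^ 2 / 9 + 1) * b ^ 2
        ≤ (27 / 2 : ℝ) * ((109 / 90) * ((D : ℝ) ^ 2 / 9 + 1)) * (a * (2.7182818286 / 3)) ^ 2 := by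
          apply mul_le_mul _ h2 (by positivity) (by positivity)
          linarith
      _ = ((27 / 2 : ℝ) * ((D : ℝ) ^ 2 / 9 + 1) * a ^ 2) * ((109 / 90) * (2.7182818286 / 3) ^ 2) := by ring
      _ ≤ 1 * 1 := by
          apply mul_le_mul ih (by norm_num) (by norm_num) (by norm_num)
      _ = 1 := by norm_num

end Pool.RookLC.NL
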