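import Pool.Agent.Work.MP_6f78fb_nl.Basic

/-! Block NU4 (helper89). -/

open scoped BigOperators TensorProduct
open Classical

namespace Pool.RookLC.NL

open Pool.RookLC Pool.RookLC.Lin

/-- The first polynomial inequality. -/
theorem NU4_one {x y : ℝ} (hx : 0 ≤ x) (hy : 0 ≤ y) :
    (10 + x) * (10 + x + y) * (8 + x) ≤ 2 * ((7 + x) * ((9 + x + y) * (7 + x + y))) := by
  have e : 2 * ((7 + x) * ((9 + x + y) * (7 + x + y))) - (10 + x) * (10 + x + y) * (8 + x)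
      = (82 + 90 * x + 18 * x ^ 2 + x ^ 3) + (144 + 42 * x + 3 * x ^ 2) * y
        + 2 * (7 + x) * y ^ 2 := by
    ring
  have h : 0 ≤ (82 + 90 * x + 18 * x ^ 2 + x ^ 3) + (144 + 42 * x + 3 * x ^ 2) * y
        + 2 * (7 + x) * y ^ 2 := by positivity
  linarith

/-- The second polynomial inequality for `m = n`. -/
theorem NU4_two {x : ℝ} (hx : 0 ≤ x) :
    (10 + x) ^ 2 * ((8 + x) ^ 2 * (12 + x) ^ 2) ≤ (11 + x) * (9 + x) ^ 2 * (7 + x) ^ 4 := by
  have e : (11 + x) * (9 + x) ^ 2 * (7 + x) ^ 4 - (10 + x) ^ 2 * ((8 + x) ^ 2 * (12 + x) ^ 2)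
      = 1217691 + 1324011 * x + 569155 * x ^ 2 + 129483 * x ^ 3 + 17109 * x ^ 4 +
        1325 * x ^ 5 + 56 * x ^ 6 + x ^ 7 := by
    ring
  have h : 0 ≤ 1217691 + 1324011 * x + 569155 * x ^ 2 + 129483 * x ^ 3 + 17109 * x ^ 4 +
        1325 * x ^ 5 + 56 * x ^ 6 + x ^ 7 := by positivity
  linarith

/-- Monotonicity in `m`. -/
theorem NU4_three {x y : ℝ} (hx : 0 ≤ x) (hy : 0 ≤ y) :
    (10 + x + y) * ((9 + x) ^ 2 * (7 + x) ^ 2) ≤
      (10 + x) * ((9 + x + y) ^ 2 * (7 + x + y) ^ 2) := by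
  have e : (10 + x) * ((9 + x + y) ^ 2 * (7 + x + y) ^ 2) -
      (10 + x + y) * ((9 + x) ^ 2 * (7 + x) ^ 2)
      = y * ((9 + x) * (7 + x)) * (257 + 56 * x + 3 * x ^ 2) +
        (10 + x) * (2 * ((9 + x) * (7 + x)) * y ^ 2 + (y * (16 + 2 * x) + y ^ 2) ^ 2) := by
    ring
  have h : 0 ≤ y * ((9 + x) * (7 + x)) * (257 + 56 * x + 3 * x ^ 2) +
        (10 + x) * (2 * ((9 + x) * (7 + x)) * y ^ 2 + (y * (16 + 2 * x) + y ^ 2) ^ 2) := by
    positivity
  linarith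

theorem NU4_four {x y : ℝ} (hx : 0 ≤ x) (hy : 0 ≤ y) :
    (10 + x) * (10 + x + y) * ((8 + x) ^ 2 * (12 + x) ^ 2) ≤
      (11 + x) * ((7 + x) * ((9 + x + y) * (7 + x + y))) ^ 2 := by
  have h1 := mul_le_mul_of_nonneg_left (NU4_two hx) (by positivity : 0 ≤ 10 + x + y)
  have h2 := mul_le_mul_of_nonneg_left (NU4_three hx hy)
    (by positivity : 0 ≤ (11 + x) * (7 + x) ^ 2)
  have h3 : 0 < 10 + x := by positivity
  refine le_of_mul_le_mul_left ?_ h3
  calc (10 + x) * ((10 + x) * (10 + x + y) * ((8 + x) ^ 2 * (12 + x) ^ 2))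
      = (10 + x + y) * ((10 + x) ^ 2 * ((8 + x) ^ 2 * (12 + x) ^ 2)) := by ring
    _ ≤ (10 + x + y) * ((11 + x) * (9 + x) ^ 2 * (7 + x) ^ 4) := h1
    _ = (11 + x) * (7 + x) ^ 2 * ((10 + x + y) * ((9 + x) ^ 2 * (7 + x) ^ 2)) := by ring
    _ ≤ (11 + x) * (7 + x) ^ 2 * ((10 + x) * ((9 + x + y) ^ 2 * (7 + x + y) ^ 2)) := h2
    _ = (10 + x) * ((11 + x) * ((7 + x) * ((9 + x + y) * (7 + x + y))) ^ 2) := by ring

theorem p_NU4 : Stmt_NU4 := by
  intro n m i hi hin hnm θ hθ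
  have hi' : (9 : ℝ) ≤ i := by exact_mod_cast hi
  have hin' : (i : ℝ) + 1 ≤ n := by exact_mod_cast hin
  have hnm' : (n : ℝ) ≤ m := by exact_mod_cast hnm
  obtain ⟨x, hx⟩ : ∃ x : ℝ, x = (n : ℝ) - 10 := ⟨_, rfl⟩
  obtain ⟨y, hy⟩ : ∃ y : ℝ, y = (m : ℝ) - n := ⟨_, rfl⟩
  have hx0 : 0 ≤ x := by linarith
  have hy0 : 0 ≤ y := by linarith
  have hn : (n : ℝ) = 10 + x := by linarith
  have hm : (m : ℝ) = 10 + x + y := by linarith
  generalize (n : ℝ) = N at *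
  generalize (m : ℝ) = M at *
  generalize (i : ℝ) = I at *
  subst hn
  subst hm
  set E : ℝ := (7 + x) * ((9 + x + y) * (7 + x + y)) with hE
  have hE0 : 0 < E := by positivity
  have hθ' : θ = I * (I - 1) / ((9 + x) * E) := by
    rw [hθ, hE]
    congr 1
    ring
  have hθ0 : 0 ≤ θ := by
    rw [hθ']
    have : 0 ≤ I - 1 := by linarith
    have : 0 ≤ I := by linarith
    positivity
  have hθE : θ * E ≤ 8 + x := by
    rw [hθ', div_mul_eq_mul_div, div_le_iff₀ (by positivity)]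
    have h1 : I * (I - 1) ≤ (9 + x) * (8 + x) :=
      mul_le_mul (by linarith) (by linarith) (by linarith) (by linarith)
    calc I * (I - 1) * E ≤ (9 + x) * (8 + x) * E := mul_le_mul_of_nonneg_right h1 hE0.le
      _ = (8 + x) * ((9 + x) * E) := by ring
  have hnm0 : 0 ≤ (10 + x) * (10 + x + y) := by positivity
  refine ⟨?_, ?_⟩
  · refine le_of_mul_le_mul_right ?_ hE0
    calc (10 + x) * (10 + x + y) * θ * E = (10 + x) * (10 + x + y) * (θ * E) := by ring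
      _ ≤ (10 + x) * (10 + x + y) * (8 + x) := mul_le_mul_of_nonneg_left hθE hnm0
      _ ≤ 2 * E := NU4_one hx0 hy0
  · have hkey : (10 + x) * (10 + x + y) * θ ^ 2 * (12 + x) ^ 2 ≤ 11 + x := by
      have hE2 : 0 < E ^ 2 := by positivity
      refine le_of_mul_le_mul_right ?_ hE2
      have h1 : (θ * E) ^ 2 ≤ (8 + x) ^ 2 := pow_le_pow_left₀ (by positivity) hθE 2
      calc (10 + x) * (10 + x + y) * θ ^ 2 * (12 + x) ^ 2 * E ^ 2
          = (10 + x) * (10 + x + y) * (12 + x) ^ 2 * (θ * E) ^ 2 := by ring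
        _ ≤ (10 + x) * (10 + x + y) * (12 + x) ^ 2 * (8 + x) ^ 2 :=
            mul_le_mul_of_nonneg_left h1 (by positivity)
        _ = (10 + x) * (10 + x + y) * ((8 + x) ^ 2 * (12 + x) ^ 2) := by ring
        _ ≤ (11 + x) * E ^ 2 := NU4_four hx0 hy0
    obtain ⟨q, hq⟩ : ∃ q : ℝ, q = 10 + x - I := ⟨_, rfl⟩
    have hq1 : 1 ≤ q := by linarith
    rw [← hq]
    have hK0 : 0 < (I + 1) * (q + 1) := by
      have : 0 < I + 1 := by linarith
      have : 0 < q + 1 := by linarith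
      positivity
    have hK4 : 4 * ((I + 1) * (q + 1)) ≤ (12 + x) ^ 2 := by
      have e : 12 + x = (I + 1) + (q + 1) := by linarith
      rw [e]
      nlinarith [sq_nonneg ((I + 1) - (q + 1))]
    have hT : (10 + x) * (10 + x + y) * θ ^ 2 * (4 * ((I + 1) * (q + 1))) ≤ 11 + x :=
      (mul_le_mul_of_nonneg_left hK4 (by positivity)).trans hkey
    have h2 : 2 * ((10 + x) * (10 + x + y) * θ ^ 2) ≤ (11 + x) / (2 * ((I + 1) * (q + 1))) := by
      rw [le_div_iff₀ (by positivity)]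
      linarith
    have h3 : 1 / (2 * (I + 1)) ≤ (11 + x) / (2 * ((I + 1) * (q + 1))) := by
      have hI : 0 < I + 1 := by linarith
      have hq2 : 0 < q + 1 := by linarith
      rw [div_le_div_iff₀ (by positivity) (by positivity)]
      have : q + 1 ≤ 11 + x := by linarith
      nlinarith [mul_le_mul_of_nonneg_left this hI.le]
    have h4 : I * q / ((I + 1) * (q + 1)) + (11 + x) / (2 * ((I + 1) * (q + 1))) +
        (11 + x) / (2 * ((I + 1) * (q + 1))) = 1 := by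
      have hI : I + 1 ≠ 0 := by linarith
      have hq2 : q + 1 ≠ 0 := by linarith
      field_simp
      rw [hq]
      ring
    linarith

end Pool.RookLC.NL
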