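import Pool.Agent.Work.MP_6f78fb_nl.Basic

/-!
# Block NUM: the numerical inequality
-/

open scoped BigOperators TensorProduct
open Classical

noncomputable section

namespace Pool.RookLC.NL

open Pool.RookLC Pool.RookLC.Lin

theorem p_NUM (h1 : Stmt_NU1) (h2 : Stmt_NU2) : Stmt_NUM := by
  intro i D hD hDi h9
  have hD9 : 9 ≤ D := by
    have h3 : 9 * D ≤ D * D := by nlinarith
    exact Nat.le_of_mul_le_mul_right h3 (by omega)
  have a1 := h1 i D hD hDi h9
  have a2 := h2 D hD9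
  have hi9 : (i : ℝ) ≤ (D : ℝ) ^ 2 / 9 := by
    have h3 : (9 : ℝ) * i ≤ (D : ℝ) ^ 2 := by exact_mod_cast h9
    linarith
  have hfi : (0 : ℝ) < (i.factorial : ℝ) := by exact_mod_cast i.factorial_pos
  have hfD : (0 : ℝ) < (D.factorial : ℝ) := by exact_mod_cast D.factorial_pos
  have hi0 : (0 : ℝ) ≤ (i : ℝ) := Nat.cast_nonneg i
  have hpow : (i : ℝ) ^ D / ((D.factorial : ℝ)) ^ 2 ≤ (((D : ℝ) / 3) ^ D / (D.factorial : ℝ)) ^ 2 := by
    rw [div_pow]
    apply div_le_div_of_nonneg_right _ (by positivity)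
    calc (i : ℝ) ^ D ≤ ((D : ℝ) ^ 2 / 9) ^ D := pow_le_pow_left₀ hi0 hi9 D
      _ = (((D : ℝ) / 3) ^ D) ^ 2 := by
        rw [← pow_mul, mul_comm D 2, pow_mul]
        congr 1
        ring
  have hS : (12 : ℝ) * (i + 1) *
      ∑ t ∈ Finset.range (i - D + 1), ((i.choose t : ℝ)) ^ 2 * (t.factorial : ℝ) ≤
      (i.factorial : ℝ) := by
    set S := ∑ t ∈ Finset.range (i - D + 1), ((i.choose t : ℝ)) ^ 2 * (t.factorial : ℝ)
      with hSd
    calc (12 : ℝ) * (i + 1) * S = (3 / 2) * (i + 1) * (8 * S) := by ring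
      _ ≤ (3 / 2) * (i + 1) *
          (9 * (i.factorial : ℝ) * ((i : ℝ) ^ D / ((D.factorial : ℝ)) ^ 2)) :=
        mul_le_mul_of_nonneg_left a1 (by positivity)
      _ = (i.factorial : ℝ) * ((27 / 2) * (i + 1) * ((i : ℝ) ^ D / ((D.factorial : ℝ)) ^ 2)) := by
        ring
      _ ≤ (i.factorial : ℝ) * ((27 / 2) * ((D : ℝ) ^ 2 / 9 + 1) *
          (((D : ℝ) / 3) ^ D / (D.factorial : ℝ)) ^ 2) := by
        apply mul_le_mul_of_nonneg_left _ hfi.le
        apply mul_le_mul _ hpow (by positivity) (by positivity)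
        linarith
      _ ≤ (i.factorial : ℝ) * 1 := mul_le_mul_of_nonneg_left a2 hfi.le
      _ = (i.factorial : ℝ) := mul_one _
  have h4 : ((12 * (i + 1) * ∑ t ∈ Finset.range (i - D + 1), (i.choose t) ^ 2 * t.factorial : ℕ) :
      ℝ) ≤ ((i.factorial : ℕ) : ℝ) := by
    push_cast
    exact hS
  exact_mod_cast h4

end Pool.RookLC.NL
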