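import Pool.Agent.Work.MP_6f78fb_nl.Basic

/-!
# MP_6f78fb_co, THEOREM NL: block PLW
-/

open scoped BigOperators TensorProduct
open Classical

noncomputable section

namespace Pool.RookLC.NL

open Pool.RookLC Pool.RookLC.Lin

theorem p_PLW : Stmt_PLW := by
  intro Γ X X' W _ _ _ ρ a a' ha ha' p hp hpe
  refine ⟨{ toFun := fun F x => F (p x)
            map_add' := fun F F' => rfl
            map_smul' := fun c F => rfl }, ?_, ?_⟩
  · intro F F' h
    funext x
    obtain ⟨y, rfl⟩ := hp x
    exact congrFun h y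
  · intro g F
    funext x
    show ρ g (F (a g⁻¹ (p x))) = ρ g (F (p (a' g⁻¹ x)))
    rw [hpe]

end Pool.RookLC.NL
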