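import Pool.Agent.Work.MP_6f78fb_nl.Basic
import Pool.Agent.Work.MP_6f78fb_rk_helper98.PROJ

/-!
# MP_6f78fb_co, THEOREM NL, block PRJ: an equivariant projection onto the relations
-/

open scoped BigOperators TensorProduct
open Classical

noncomputable section

namespace Pool.RookLC.NL

open Pool.RookLC Pool.RookLC.Lin

theorem p_PRJ : Stmt_PRJ := by
  intro n m r i
  obtain ⟨b, h1, h2, h3⟩ := helper98.stmt_PROJ (G n m) (Fn n m) (fun g => rF g)
    (fun g h => (rho1 n m).map_mul g h) (rho1 n m).map_one (Rel n m r i) (rel_act r i)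
  exact ⟨b, h1, h2, fun g φ => LinearMap.congr_fun (h3 g) φ⟩

end Pool.RookLC.NL
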