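import Pool.Agent.Work.MP_6f78fb_nl.Interface
import Pool.Agent.Work.MP_6f78fb_rk_helper83.THIa
import Pool.Agent.Work.MP_6f78fb_rk_helper83.RG

/-! Block SPN: the values of a relation are sums over small parts of the placement. -/

open scoped BigOperators TensorProduct
open Classical

noncomputable section

namespace Pool.RookLC.NL

open Pool.RookLC Pool.RookLC.Lin Pool.RookLC.helper83

theorem SPN_unm {n m : ℕ} {α : Cf n m} (h : tt α = 0) (a : Fin n) : α a ≠ some none := by
  intro ha
  unfold tt at h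
  rw [Finset.card_eq_zero] at h
  have : a ∈ Finset.univ.filter (fun a => α a = some none) :=
    Finset.mem_filter.2 ⟨Finset.mem_univ _, ha⟩
  rw [h] at this
  exact absurd this (Finset.notMem_empty a)

theorem SPN_cols {n m : ℕ} (α : Cf n m) : (cols α).card ≤ (supp α).card := by
  have h1 : cols α ⊆ (supp α).biUnion
      (fun a => Finset.univ.filter (fun j => α a = some (some j))) := by
    intro j hj
    obtain ⟨a, ha⟩ := (Finset.mem_filter.1 hj).2
    rw [Finset.mem_biUnion]
    refine ⟨a, Finset.mem_filter.2 ⟨Finset.mem_univ _, by rw [ha]; simp⟩,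
      Finset.mem_filter.2 ⟨Finset.mem_univ _, ha⟩⟩
  refine (Finset.card_le_card h1).trans ?_
  have h2 := Finset.card_biUnion_le_card_mul (supp α)
    (fun a => Finset.univ.filter (fun j => α a = some (some j))) 1 (by
      intro a _
      rw [Finset.card_le_one]
      intro j hj k hk
      have e1 := (Finset.mem_filter.1 hj).2
      have e2 := (Finset.mem_filter.1 hk).2
      rw [e1] at e2
      simpa using e2)
  omega

/-- only the monomial of the placement survives in the alternating sum -/
theorem SPN_single {n m i : ℕ} (φ : Fn n m) (hsup : ∀ α, φ α ≠ 0 → Um i α) (α0 : Cf n m)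
    (h0 : Um i α0) (N : Finset (Fin n)) (hN : N = supp α0) (s1 s2 : Fin n → St m)
    (hs1N : ∀ a ∈ N, s1 a = α0 a) (hs2N : ∀ a ∈ N, s2 a = none) :
    ∑ α : Cf n m, φ α * ((∏ a ∈ Nᶜ, ev (α a) (s1 a)) *
      ∏ a ∈ N, (ev (α a) (s1 a) - ev (α a) (s2 a))) = φ α0 := by
  obtain ⟨hv0, ht0, hd0⟩ := h0
  have hNmem : ∀ a, a ∈ N ↔ α0 a ≠ none := by
    intro a
    rw [hN]
    simp [supp]
  have hNcard : N.card = i := by
    rw [hN]
    exact hd0
  have hunm0 := SPN_unm ht0
  rw [Finset.sum_eq_single α0]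
  · have h1 : ∏ a ∈ Nᶜ, ev (α0 a) (s1 a) = 1 := by
      refine Finset.prod_eq_one (fun a ha => ?_)
      have h2 : α0 a = none := by
        by_contra h3
        exact Finset.mem_compl.1 ha ((hNmem a).2 h3)
      rw [h2, ev_none]
    have h2 : ∏ a ∈ N, (ev (α0 a) (s1 a) - ev (α0 a) (s2 a)) = 1 := by
      refine Finset.prod_eq_one (fun a ha => ?_)
      rw [hs1N a ha, hs2N a ha]
      rcases hs : α0 a with _ | _ | j
      · exact absurd hs ((hNmem a).1 ha)
      · exact absurd hs (hunm0 a)
      · rw [ev_rook, ev_rook]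
        simp
    rw [h1, h2, one_mul, mul_one]
  · intro α _ hne
    by_contra hne0
    have hg0 : φ α ≠ 0 := fun h => hne0 (by rw [h, zero_mul])
    obtain ⟨_, ht, hd⟩ := hsup α hg0
    have hp0 : ∏ a ∈ N, (ev (α a) (s1 a) - ev (α a) (s2 a)) ≠ 0 :=
      fun h => hne0 (by rw [h, mul_zero, mul_zero])
    rw [Finset.prod_ne_zero_iff] at hp0
    have hnn : ∀ a ∈ N, α a ≠ none := by
      intro a ha h
      apply hp0 a ha
      rw [h, ev_none, ev_none, sub_self]
    have hsupp : supp α = N := by
      symm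
      refine Finset.eq_of_subset_of_card_le ?_ ?_
      · intro a ha
        exact Finset.mem_filter.2 ⟨Finset.mem_univ _, hnn a ha⟩
      · rw [hNcard, ← hd]
        exact le_rfl
    apply hne
    funext a
    by_cases haN : a ∈ N
    · have h1 := hp0 a haN
      rw [hs1N a haN, hs2N a haN] at h1
      rcases hs : α a with _ | _ | j
      · exact absurd hs (hnn a haN)
      · exact absurd hs (SPN_unm ht a)
      · rw [hs, ev_rook, ev_rook] at h1
        by_cases h2 : α0 a = some (some j)
        · exact h2.symm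
        · exfalso
          apply h1
          rw [if_neg h2]
          simp
    · have h1 : α0 a = none := by
        by_contra h3
        exact haN ((hNmem a).2 h3)
      rw [h1]
      by_contra h3
      have h4 : a ∈ supp α := Finset.mem_filter.2 ⟨Finset.mem_univ _, h3⟩
      rw [hsupp] at h4
      exact haN h4
  · intro h
    exact absurd (Finset.mem_univ α0) h

/-- the alternating sum of the values of `Th φ + q` -/
theorem SPN_alt {n m i : ℕ} (φ : Fn n m) (hsup : ∀ α, φ α ≠ 0 → Um i α) (α0 : Cf n m)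
    (h0 : Um i α0) (N : Finset (Fin n)) (hN : N = supp α0) (s1 s2 : Fin n → St m)
    (hs1N : ∀ a ∈ N, s1 a = α0 a) (hs2N : ∀ a ∈ N, s2 a = none) (q : Poly n m)
    (hq : q = 0 ∨ q.totalDegree < i) :
    ∑ S ∈ N.powerset, (-1 : ℂ) ^ S.card *
      MvPolynomial.eval (mat (tog s1 s2 S)) (Th n m φ + q) = φ α0 := by
  have hNcard : N.card = i := by
    rw [hN]
    exact h0.2.2
  have hq0 : ∑ S ∈ N.powerset, (-1 : ℂ) ^ S.card *
      MvPolynomial.eval (mat (tog s1 s2 S)) q = 0 := by
    rcases hq with rfl | hq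
    · simp
    · exact alt_poly N s1 s2 q (by rw [hNcard]; exact hq)
  have h1 : ∀ S ∈ N.powerset, (-1 : ℂ) ^ S.card *
      MvPolynomial.eval (mat (tog s1 s2 S)) (Th n m φ) =
      ∑ α : Cf n m, φ α * ((-1 : ℂ) ^ S.card *
        ∏ a, (if a ∈ S then ev (α a) (s2 a) else ev (α a) (s1 a))) := by
    intro S _
    rw [eval_Th, Finset.mul_sum]
    refine Finset.sum_congr rfl (fun α _ => ?_)
    have h2 : ∏ a, ev (α a) (tog s1 s2 S a) =
        ∏ a, (if a ∈ S then ev (α a) (s2 a) else ev (α a) (s1 a)) := by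
      refine Finset.prod_congr rfl (fun a _ => ?_)
      unfold tog
      split_ifs <;> rfl
    rw [h2]
    ring
  have h2 : ∑ S ∈ N.powerset, (-1 : ℂ) ^ S.card *
      MvPolynomial.eval (mat (tog s1 s2 S)) (Th n m φ) = φ α0 := by
    rw [Finset.sum_congr rfl h1, Finset.sum_comm,
      ← SPN_single φ hsup α0 h0 N hN s1 s2 hs1N hs2N]
    refine Finset.sum_congr rfl (fun α _ => ?_)
    rw [← Finset.mul_sum, alt_prod]
  simp_rw [map_add, mul_add]
  rw [Finset.sum_add_distrib, h2, hq0, add_zero]

/-- the additional rooks -/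
def SPN_zz {n m : ℕ} (N : Finset (Fin n)) (J : Finset (Fin m)) : Fin n → Option (Fin m) :=
  if h : (Nᶜ).card + J.card ≤ m then Classical.choose (exists_zz Nᶜ J h) else fun _ => none

theorem SPN_zz_spec {n m : ℕ} (N : Finset (Fin n)) (J : Finset (Fin m))
    (h : (Nᶜ).card + J.card ≤ m) :
    (∀ a, a ∈ Nᶜ ↔ SPN_zz N J a ≠ none) ∧
      (∀ a b j, SPN_zz N J a = some j → SPN_zz N J b = some j → a = b) ∧
      ∀ a j, SPN_zz N J a = some j → j ∉ J := by
  unfold SPN_zz
  rw [dif_pos h]
  exact Classical.choose_spec (exists_zz Nᶜ J h)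

/-- the configuration equal to `β` on `N` and with the additional rooks outside -/
def SPN_w {n m : ℕ} (N : Finset (Fin n)) (J : Finset (Fin m)) (β : Cf n m) : Cf n m :=
  fun a => if a ∈ N then β a else (SPN_zz N J a).map some

theorem p_SPN : Stmt_SPN := by
  intro n m r i s k hn hm hr φ hφ
  obtain ⟨hsup, hTh⟩ := hφ
  obtain ⟨q, hq, hv⟩ := (helper83.stmt_RG n m (UZ n m r) i (Th n m φ)
    (Th_homog φ i (fun α h => (hsup α h).2.2))).1 hTh
  refine ⟨fun N J β => MvPolynomial.eval (mat (SPN_w N J β)) (Th n m φ + q), fun α hα => ?_⟩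
  obtain ⟨hv0, ht0, hd0⟩ := hα
  obtain ⟨N, hN⟩ : ∃ N, N = supp α := ⟨_, rfl⟩
  obtain ⟨J, hJ⟩ : ∃ J, J = cols α := ⟨_, rfl⟩
  have hNmem : ∀ a, a ∈ N ↔ α a ≠ none := by
    intro a
    rw [hN]
    simp [supp]
  have hNcard : N.card = i := by
    rw [hN]
    exact hd0
  have hJcard : J.card ≤ i := by
    rw [hJ, ← hNcard, hN]
    exact SPN_cols α
  have hNc : (Nᶜ).card = k := by
    rw [Finset.card_compl, Fintype.card_fin, hNcard]
    omega
  have hunm0 := SPN_unm ht0
  obtain ⟨hz1, hz2, hz3⟩ := SPN_zz_spec N J (by omega)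
  obtain ⟨s1, hs1N, hs1C⟩ : ∃ s1 : Fin n → St m, (∀ a ∈ N, s1 a = α a) ∧
      ∀ a, a ∉ N → s1 a = (SPN_zz N J a).map some :=
    ⟨fun a => if a ∈ N then α a else (SPN_zz N J a).map some, fun a h => by simp [h],
      fun a h => by simp [h]⟩
  obtain ⟨s2, hs2N, hs2C⟩ : ∃ s2 : Fin n → St m, (∀ a ∈ N, s2 a = none) ∧
      ∀ a, a ∉ N → s2 a = (SPN_zz N J a).map some :=
    ⟨fun a => if a ∈ N then none else (SPN_zz N J a).map some, fun a h => by simp [h],
      fun a h => by simp [h]⟩
  have hw : ∀ S ⊆ N, SPN_w N J (del S α) = tog s1 s2 S := by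
    intro S hS
    funext a
    unfold SPN_w tog del
    by_cases haN : a ∈ N
    · rw [if_pos haN]
      by_cases haS : a ∈ S
      · rw [if_pos haS, if_pos haS, hs2N a haN]
      · rw [if_neg haS, if_neg haS, hs1N a haN]
    · have haS : a ∉ S := fun h => haN (hS h)
      rw [if_neg haN, if_neg haS, hs1C a haN]
  have hst : ∀ S a j, tog s1 s2 S a = some (some j) →
      (a ∈ N ∧ α a = some (some j)) ∨ (a ∉ N ∧ SPN_zz N J a = some j) := by
    intro S a j h
    unfold tog at h
    by_cases haN : a ∈ N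
    · refine Or.inl ⟨haN, ?_⟩
      split_ifs at h
      · rw [hs2N a haN] at h
        simp at h
      · rw [hs1N a haN] at h
        exact h
    · refine Or.inr ⟨haN, ?_⟩
      split_ifs at h
      · rw [hs2C a haN] at h
        simpa using h
      · rw [hs1C a haN] at h
        simpa using h
  have hcol : ∀ a j, α a = some (some j) → j ∈ J := fun a j h => by
    rw [hJ]
    exact Finset.mem_filter.2 ⟨Finset.mem_univ _, a, h⟩
  have hvalid : ∀ S, Valid (tog s1 s2 S) := by
    intro S a b j ha hb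
    rcases hst S a j ha with ⟨_, h1⟩ | ⟨_, h1⟩
    · rcases hst S b j hb with ⟨_, h2⟩ | ⟨_, h2⟩
      · exact hv0 a b j h1 h2
      · exact absurd (hcol a j h1) (hz3 b j h2)
    · rcases hst S b j hb with ⟨_, h2⟩ | ⟨_, h2⟩
      · exact absurd (hcol b j h2) (hz3 a j h1)
      · exact hz2 a b j h1 h2
  have hunm : ∀ S a, tog s1 s2 S a ≠ some none := by
    intro S a h
    unfold tog at h
    by_cases haN : a ∈ N
    · split_ifs at h
      · rw [hs2N a haN] at h; simp at h
      · rw [hs1N a haN] at h; exact hunm0 a h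
    · split_ifs at h
      · rw [hs2C a haN] at h
        rcases hza : SPN_zz N J a with _ | j
        · rw [hza] at h; simp at h
        · rw [hza] at h; simp at h
      · rw [hs1C a haN] at h
        rcases hza : SPN_zz N J a with _ | j
        · rw [hza] at h; simp at h
        · rw [hza] at h; simp at h
  have hdd : ∀ S ⊆ N, dd (tog s1 s2 S) = dd (del S α) + k := by
    intro S hS
    have e : (Finset.univ.filter fun a => tog s1 s2 S a ≠ none) =
        (Finset.univ.filter fun a => del S α a ≠ none) ∪ Nᶜ := by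
      ext a
      simp only [Finset.mem_union, Finset.mem_filter, Finset.mem_univ, true_and]
      by_cases haN : a ∈ N
      · have h1 : a ∉ Nᶜ := fun h => Finset.mem_compl.1 h haN
        rw [← hw S hS]
        simp only [h1, or_false, SPN_w, if_pos haN]
      · have h1 : a ∈ Nᶜ := Finset.mem_compl.2 haN
        have h2 := (hz1 a).1 h1
        have haS : a ∉ S := fun h => haN (hS h)
        have h3 : tog s1 s2 S a ≠ none := by
          unfold tog
          rw [if_neg haS, hs1C a haN]
          intro h4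
          exact h2 (by simpa using h4)
        simp only [h1, h3, or_true, not_false_eq_true, ne_eq]
    unfold dd
    rw [e, Finset.card_union_of_disjoint, hNc]
    rw [Finset.disjoint_left]
    intro a ha haN
    have h1 := (Finset.mem_filter.1 ha).2
    apply h1
    unfold del
    split_ifs
    · rfl
    · by_contra h2
      exact Finset.mem_compl.1 haN ((hNmem a).2 h2)
  have key := SPN_alt φ hsup α ⟨hv0, ht0, hd0⟩ N hN s1 s2 hs1N hs2N q hq
  rw [← key, ← hN, ← hJ]
  refine Finset.sum_congr rfl (fun S hS => ?_)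
  have hSN := Finset.mem_powerset.1 hS
  by_cases hle : dd (del S α) ≤ s
  · rw [if_pos hle]
    show _ = (-1 : ℂ) ^ S.card * MvPolynomial.eval (mat (SPN_w N J (del S α))) (Th n m φ + q)
    rw [hw S hSN]
  · rw [if_neg hle]
    have h1 : mat (tog s1 s2 S) ∈ UZ n m r :=
      mat_mem _ r (hvalid S) (hunm S) (by rw [hdd S hSN]; omega)
    have h2 : MvPolynomial.eval (mat (tog s1 s2 S)) (Th n m φ + q) = 0 := hv _ h1
    rw [h2, mul_zero]

end Pool.RookLC.NL
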