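import Pool.Agent.Work.MP_6f78fb_nl.Interface
import Pool.Agent.Work.MP_6f78fb_rk_helper27.TRS

/-!
# MP_6f78fb_co, THEOREM NL, block TRP: transposition
-/

set_option autoImplicit false

open scoped BigOperators TensorProduct
open Classical

noncomputable section

namespace Pool.RookLC.NL

open Pool.RookLC Pool.RookLC.Lin

theorem TRP_transfer {n m r n' m' r' i : ℕ} (H : Subgroup (G n m))
    (H' : Subgroup (G n' m')) (ι : Poly n m →ₐ[ℂ] Poly n' m')
    (h1 : ∀ (d : ℕ) (f : Poly n m), f.IsHomogeneous d → (ι f).IsHomogeneous d)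
    (h2 : grI (UZ n m r) ≤ (grI (UZ n' m' r')).comap ι)
    (h3 : ∀ (d : ℕ) (f : Poly n m), f.IsHomogeneous d → ι f ∈ grI (UZ n' m' r') →
      f ∈ grI (UZ n m r))
    (h4 : ∀ (d : ℕ) (f' : Poly n' m'), f'.IsHomogeneous d → ∃ f : Poly n m, f.IsHomogeneous d ∧
      f' - ι f ∈ grI (UZ n' m' r'))
    (φ : G n m → G n' m') (h5 : ∀ (g : G n m) (f : Poly n m), ι (actP g f) = actP (φ g) (ι f))
    (hφ : ∀ g ∈ H, φ g ∈ H') (hS : SurjOn H' r' i) : SurjOn H r i := by
  obtain ⟨ιR, hιR⟩ : ∃ ιR : RR n m r →ₐ[ℂ] RR n' m' r', ∀ f : Poly n m,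
      ιR (Ideal.Quotient.mk (grI (UZ n m r)) f) = Ideal.Quotient.mk (grI (UZ n' m' r')) (ι f) :=
    ⟨Ideal.quotientMapₐ (grI (UZ n' m' r')) ι h2, fun _ => rfl⟩
  have hmem : ∀ d, ∀ v ∈ V n m r d, ιR.toLinearMap v ∈ V n' m' r' d := by
    rintro d _ ⟨f, hf, rfl⟩
    rw [SetLike.mem_coe, MvPolynomial.mem_homogeneousSubmodule] at hf
    refine ⟨ι f, ?_, (hιR f).symm⟩
    rw [SetLike.mem_coe, MvPolynomial.mem_homogeneousSubmodule]
    exact h1 d f hf
  have hE : ∀ d, ∃ E : V n m r d ≃ₗ[ℂ] V n' m' r' d, ∀ g : G n m,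
      E.toLinearMap ∘ₗ actV n m r d g = actV n' m' r' d (φ g) ∘ₗ E.toLinearMap := by
    intro d
    let e : V n m r d →ₗ[ℂ] V n' m' r' d := ιR.toLinearMap.restrict (hmem d)
    have he : ∀ v : V n m r d, ((e v : V n' m' r' d) : RR n' m' r') = ιR (v : RR n m r) :=
      fun _ => rfl
    have hinj : Function.Injective e := by
      rw [injective_iff_map_eq_zero]
      rintro ⟨v, f, hf, rfl⟩ hv
      rw [SetLike.mem_coe, MvPolynomial.mem_homogeneousSubmodule] at hf
      have h6 := congrArg (fun x : V n' m' r' d => (x : RR n' m' r')) hv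
      have h7 : ιR (Ideal.Quotient.mk (grI (UZ n m r)) f) = 0 := h6
      rw [hιR, Ideal.Quotient.eq_zero_iff_mem] at h7
      have h8 := h3 d f hf h7
      apply Subtype.ext
      change Ideal.Quotient.mk (grI (UZ n m r)) f = 0
      rw [Ideal.Quotient.eq_zero_iff_mem]
      exact h8
    have hsur : Function.Surjective e := by
      rintro ⟨v, f', hf', rfl⟩
      rw [SetLike.mem_coe, MvPolynomial.mem_homogeneousSubmodule] at hf'
      obtain ⟨f, hf, hff⟩ := h4 d f' hf'
      refine ⟨⟨Ideal.Quotient.mk (grI (UZ n m r)) f, f, ?_, rfl⟩, ?_⟩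
      · rw [SetLike.mem_coe, MvPolynomial.mem_homogeneousSubmodule]
        exact hf
      · apply Subtype.ext
        rw [he]
        change ιR (Ideal.Quotient.mk (grI (UZ n m r)) f)
          = Ideal.Quotient.mk (grI (UZ n' m' r')) f'
        rw [hιR]
        exact (Ideal.Quotient.eq.2 hff).symm
    refine ⟨LinearEquiv.ofBijective e ⟨hinj, hsur⟩, fun g => ?_⟩
    refine LinearMap.ext fun v => ?_
    obtain ⟨v, f, hf, rfl⟩ := v
    apply Subtype.ext
    change ιR (actR n m r g (Ideal.Quotient.mk (grI (UZ n m r)) f))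
      = actR n' m' r' (φ g) (ιR (Ideal.Quotient.mk (grI (UZ n m r)) f))
    have h6 : ∀ (n m r : ℕ) (g : G n m) (f : Poly n m),
        actR n m r g (Ideal.Quotient.mk (grI (UZ n m r)) f)
          = Ideal.Quotient.mk (grI (UZ n m r)) (actP g f) := fun _ _ _ _ _ => rfl
    rw [h6, hιR, hιR, h6, h5]
  choose E hEg using hE
  obtain ⟨Φ, hΦ, hΦg⟩ := hS
  refine ⟨(TensorProduct.congr (E (i - 1)) (E (i + 1))).symm.toLinearMap ∘ₗ Φ ∘ₗ
    (TensorProduct.congr (E i) (E i)).toLinearMap, ?_, fun g hg => ?_⟩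
  · rw [LinearMap.coe_comp, LinearMap.coe_comp]
    exact (TensorProduct.congr (E (i - 1)) (E (i + 1))).symm.surjective.comp
      (hΦ.comp (TensorProduct.congr (E i) (E i)).surjective)
  · have h6 : ∀ a b : ℕ, (TensorProduct.congr (E a) (E b)).toLinearMap ∘ₗ
        TensorProduct.map (actV n m r a g) (actV n m r b g)
        = TensorProduct.map (actV n' m' r' a (φ g)) (actV n' m' r' b (φ g)) ∘ₗ
          (TensorProduct.congr (E a) (E b)).toLinearMap := by
      intro a b
      have h7 : (TensorProduct.congr (E a) (E b)).toLinearMap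
          = TensorProduct.map (E a).toLinearMap (E b).toLinearMap := rfl
      rw [h7, ← TensorProduct.map_comp, ← TensorProduct.map_comp, hEg, hEg]
    refine LinearMap.ext fun x => ?_
    have h7 := fun y => congrArg (fun L => L y) (h6 i i)
    have h8 := fun y => congrArg (fun L => L y) (h6 (i - 1) (i + 1))
    have h9 := fun y => congrArg (fun L => L y) (hΦg (φ g) (hφ g hg))
    simp only [LinearMap.comp_apply, LinearEquiv.coe_coe] at h7 h8 h9 ⊢
    rw [h7, h9, LinearEquiv.symm_apply_eq, h8, LinearEquiv.apply_symm_apply]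

theorem p_TRP : Stmt_TRP := by
  intro n m r i H H' hφ hS
  refine TRP_transfer H H'
    (MvPolynomial.rename (R := ℂ) (Prod.swap : Fin n × Fin m → Fin m × Fin n))
    (fun d f hf => hf.rename_isHomogeneous) (helper27.grI_swap n m r) ?_ ?_
    (fun g => (g.2, g.1)) ?_ hφ hS
  · intro d f _ hf
    have h := helper27.grI_swap m n r hf
    rw [Ideal.mem_comap] at h
    change MvPolynomial.rename (Prod.swap : Fin m × Fin n → _)
      (MvPolynomial.rename (Prod.swap : Fin n × Fin m → _) f) ∈ _ at h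
    rwa [helper27.swap_swap'] at h
  · intro d f' hf'
    refine ⟨MvPolynomial.rename (Prod.swap : Fin m × Fin n → _) f', hf'.rename_isHomogeneous, ?_⟩
    rw [helper27.swap_swap', sub_self]
    exact Ideal.zero_mem _
  · intro g f
    unfold actP
    rw [MvPolynomial.rename_rename, MvPolynomial.rename_rename]
    rfl

end Pool.RookLC.NL
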