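import Pool.Agent.Work.MP_6f78fb_nl.Basic

/-!
# MP_6f78fb_co, THEOREM NL: block TWI (untwisting)
-/

set_option autoImplicit false

open scoped BigOperators TensorProduct
open Classical

noncomputable section

namespace Pool.RookLC.NL

open Pool.RookLC Pool.RookLC.Lin

/-- the orbit relation -/
def TWI_st {Γ Y : Type} [Group Γ] {b : Γ → Y → Y} (hb : IsAct b) : Setoid Y where
  r y y' := ∃ g, b g y = y'
  iseqv :=
    { refl := fun y => ⟨1, hb.one y⟩
      symm := by
        rintro y y' ⟨g, rfl⟩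
        exact ⟨g⁻¹, by rw [← hb.mul, inv_mul_cancel, hb.one]⟩
      trans := by
        rintro y y' y'' ⟨g, rfl⟩ ⟨h, rfl⟩
        exact ⟨h * g, hb.mul h g y⟩ }

theorem TWI_gam {Γ Y : Type} [Group Γ] {b : Γ → Y → Y} (hb : IsAct b) (hf : IsFree b) :
    ∃ γ : Y → Γ, ∀ g y, γ (b g y) = g * γ y := by
  have h1 : ∀ y : Y, ∃ g, b g (Quotient.mk (TWI_st hb) y).out = y := fun y =>
    Quotient.exact (s := TWI_st hb) (Quotient.out_eq (Quotient.mk (TWI_st hb) y))
  choose γ hγ using h1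
  refine ⟨γ, fun g y => ?_⟩
  have h2 : Quotient.mk (TWI_st hb) (b g y) = Quotient.mk (TWI_st hb) y :=
    (Quotient.sound (s := TWI_st hb) ⟨g, rfl⟩).symm
  have h3 := hγ (b g y)
  rw [h2] at h3
  have h4 : b (γ (b g y)) (Quotient.mk (TWI_st hb) y).out =
      b (g * γ y) (Quotient.mk (TWI_st hb) y).out := by
    rw [h3, hb.mul, hγ]
  have h5 := hf ((g * γ y)⁻¹ * γ (b g y)) (Quotient.mk (TWI_st hb) y).out (by
    rw [hb.mul, h4, ← hb.mul, inv_mul_cancel, hb.one])
  rw [inv_mul_eq_one] at h5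
  exact h5.symm

theorem p_TWI : Stmt_TWI := by
  intro Γ Y W _ _ _ _ _ _ ρ b hb hf
  obtain ⟨γ, hγ⟩ := TWI_gam hb hf
  have hc : IsAct (fun (g : Γ) (q : Fin (Module.finrank ℂ W) × Y) => (q.1, b g q.2)) :=
    { mul := fun g h q => Prod.ext rfl (hb.mul g h q.2)
      one := fun q => Prod.ext rfl (hb.one q.2) }
  refine ⟨fun g q => (q.1, b g q.2), hc, fun g q h => hf g q.2 (congrArg Prod.snd h), ?_⟩
  refine ⟨{ toFun := fun F q => (Module.finBasis ℂ W).repr (ρ (γ q.2)⁻¹ (F q.2)) q.1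
            map_add' := fun F F' => by
              funext q
              simp
            map_smul' := fun t F => by
              funext q
              simp }, ?_, ?_⟩
  · intro F F' h
    funext y
    have h1 : (Module.finBasis ℂ W).repr (ρ (γ y)⁻¹ (F y)) =
        (Module.finBasis ℂ W).repr (ρ (γ y)⁻¹ (F' y)) :=
      Finsupp.ext fun j => congrFun h (j, y)
    have h2 : ρ (γ y)⁻¹ (F y) = ρ (γ y)⁻¹ (F' y) := (Module.finBasis ℂ W).repr.injective h1
    have h3 : ∀ v : W, ρ (γ y) (ρ (γ y)⁻¹ v) = v := fun v => by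
      rw [← Module.End.mul_apply, ← map_mul, mul_inv_cancel, map_one]
      rfl
    rw [← h3 (F y), h2, h3]
  · intro g F
    funext q
    show (Module.finBasis ℂ W).repr (ρ (γ q.2)⁻¹ (ρ g (F (b g⁻¹ q.2)))) q.1 =
      (Module.finBasis ℂ W).repr (ρ (γ (b g⁻¹ q.2))⁻¹ (F (b g⁻¹ q.2))) q.1
    rw [hγ, mul_inv_rev, inv_inv, map_mul, Module.End.mul_apply]

end Pool.RookLC.NL
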