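import Pool.Agent.Work.MP_6f78fb_nl.Interface

/-!
# MP_6f78fb_co, THEOREM NL: embeddings
-/

open scoped BigOperators TensorProduct
open Classical

noncomputable section

namespace Pool.RookLC.NL

open Pool.RookLC Pool.RookLC.Lin

theorem Emb_trans {Γ U V W : Type} [Group Γ] [AddCommGroup U] [Module ℂ U] [AddCommGroup V]
    [Module ℂ V] [AddCommGroup W] [Module ℂ W] {ρ : Representation ℂ Γ U}
    {σ : Representation ℂ Γ V} {τ : Representation ℂ Γ W} (h1 : Emb ρ σ) (h2 : Emb σ τ) :
    Emb ρ τ := by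
  obtain ⟨f, hf, hfe⟩ := h1
  obtain ⟨g, hg, hge⟩ := h2
  exact ⟨g ∘ₗ f, hg.comp hf, fun x v => by
    rw [LinearMap.comp_apply, LinearMap.comp_apply, hfe, hge]⟩

theorem Emb_refl {Γ U : Type} [Group Γ] [AddCommGroup U] [Module ℂ U]
    (ρ : Representation ℂ Γ U) : Emb ρ ρ := ⟨LinearMap.id, Function.injective_id, fun _ _ => rfl⟩

theorem Emb_prod {Γ U V U' V' : Type} [Group Γ] [AddCommGroup U] [Module ℂ U] [AddCommGroup V]
    [Module ℂ V] [AddCommGroup U'] [Module ℂ U'] [AddCommGroup V'] [Module ℂ V']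
    {ρ : Representation ℂ Γ U} {σ : Representation ℂ Γ V} {ρ' : Representation ℂ Γ U'}
    {σ' : Representation ℂ Γ V'} (h1 : Emb ρ ρ') (h2 : Emb σ σ') :
    Emb (ρ.prod σ) (ρ'.prod σ') := by
  obtain ⟨f, hf, hfe⟩ := h1
  obtain ⟨g, hg, hge⟩ := h2
  refine ⟨f.prodMap g, ?_, ?_⟩
  · rintro ⟨a, b⟩ ⟨c, d⟩ h
    have h1 : f a = f c := congrArg Prod.fst h
    have h2 : g b = g d := congrArg Prod.snd h
    exact Prod.ext (hf h1) (hg h2)
  · rintro x ⟨a, b⟩
    exact Prod.ext (hfe x a) (hge x b)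

/-- action on a disjoint union -/
def aSum {Γ X Y : Type} (a : Γ → X → X) (b : Γ → Y → Y) (g : Γ) : X ⊕ Y → X ⊕ Y :=
  Sum.map (a g) (b g)

theorem isAct_aSum {Γ X Y : Type} [Group Γ] {a : Γ → X → X} {b : Γ → Y → Y} (ha : IsAct a)
    (hb : IsAct b) : IsAct (aSum a b) where
  mul g h x := by
    rcases x with x | x
    · exact congrArg Sum.inl (ha.mul g h x)
    · exact congrArg Sum.inr (hb.mul g h x)
  one x := by
    rcases x with x | x
    · exact congrArg Sum.inl (ha.one x)
    · exact congrArg Sum.inr (hb.one x)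

theorem isFree_aSum {Γ X Y : Type} [Group Γ] {a : Γ → X → X} {b : Γ → Y → Y} (ha : IsFree a)
    (hb : IsFree b) : IsFree (aSum a b) := by
  intro g x h
  rcases x with x | x
  · exact ha g x (Sum.inl_injective h)
  · exact hb g x (Sum.inr_injective h)

theorem Emb_sum {Γ X Y : Type} [Group Γ] {a : Γ → X → X} {b : Γ → Y → Y} (ha : IsAct a)
    (hb : IsAct b) : Emb ((fr a ha).prod (fr b hb)) (fr (aSum a b) (isAct_aSum ha hb)) := by
  refine ⟨{ toFun := fun F => Sum.elim F.1 F.2
            map_add' := fun F F' => by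
              funext x
              rcases x with x | x <;> rfl
            map_smul' := fun c F => by
              funext x
              rcases x with x | x <;> rfl }, ?_, ?_⟩
  · rintro ⟨F1, F2⟩ ⟨F1', F2'⟩ h
    refine Prod.ext (funext fun x => ?_) (funext fun x => ?_)
    · exact congrFun h (Sum.inl x)
    · exact congrFun h (Sum.inr x)
  · rintro g ⟨F1, F2⟩
    funext x
    rcases x with x | x <;> rfl

end Pool.RookLC.NL
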