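import Pool.Agent.Work.MP_6f78fb_lin.Interface
import Pool.Agent.Work.MP_6f78fb_lin.B_FINA
import Pool.Agent.Work.MP_6f78fb_nl.Stmt

/-!
# MP_6f78fb_co, THEOREM NL: definitions
-/

open scoped BigOperators TensorProduct
open Classical

noncomputable section

namespace Pool.RookLC.NL

open Pool.RookLC Pool.RookLC.Lin

/-! ## A. Actions and representations on functions -/

/-- an action, written as a function -/
structure IsAct {Γ X : Type} [Group Γ] (a : Γ → X → X) : Prop where
  mul : ∀ g h x, a (g * h) x = a g (a h x)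
  one : ∀ x, a 1 x = x

/-- a free action -/
def IsFree {Γ X : Type} [Group Γ] (a : Γ → X → X) : Prop := ∀ g x, a g x = x → g = 1

/-- the functions on `X` with values in the representation `ρ`: `(g f)(x) = g (f (g⁻¹ x))` -/
def frW {Γ X W : Type} [Group Γ] [AddCommGroup W] [Module ℂ W] (ρ : Representation ℂ Γ W)
    (a : Γ → X → X) (ha : IsAct a) : Representation ℂ Γ (X → W) where
  toFun g :=
    { toFun := fun f x => ρ g (f (a g⁻¹ x))
      map_add' := fun f f' => by funext x; simp
      map_smul' := fun c f => by funext x; simp }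
  map_one' := by
    refine LinearMap.ext fun f => funext fun x => ?_
    show ρ 1 (f (a 1⁻¹ x)) = f x
    rw [inv_one, ha.one, map_one]
    rfl
  map_mul' g k := by
    refine LinearMap.ext fun f => funext fun x => ?_
    show ρ (g * k) (f (a (g * k)⁻¹ x)) = ρ g (ρ k (f (a k⁻¹ (a g⁻¹ x))))
    rw [mul_inv_rev, ha.mul, map_mul]
    rfl

/-- the complex functions on `X`: `(g f)(x) = f (g⁻¹ x)` -/
def fr {Γ X : Type} [Group Γ] (a : Γ → X → X) (ha : IsAct a) : Representation ℂ Γ (X → ℂ) where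
  toFun g :=
    { toFun := fun f x => f (a g⁻¹ x)
      map_add' := fun f f' => by funext x; simp
      map_smul' := fun c f => by funext x; simp }
  map_one' := by
    refine LinearMap.ext fun f => funext fun x => ?_
    show f (a 1⁻¹ x) = f x
    rw [inv_one, ha.one]
  map_mul' g k := by
    refine LinearMap.ext fun f => funext fun x => ?_
    show f (a (g * k)⁻¹ x) = f (a k⁻¹ (a g⁻¹ x))
    rw [mul_inv_rev, ha.mul]

theorem frW_apply {Γ X W : Type} [Group Γ] [AddCommGroup W] [Module ℂ W]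
    (ρ : Representation ℂ Γ W) (a : Γ → X → X) (ha : IsAct a) (g : Γ) (f : X → W) (x : X) :
    frW ρ a ha g f x = ρ g (f (a g⁻¹ x)) := rfl

theorem fr_apply {Γ X : Type} [Group Γ] (a : Γ → X → X) (ha : IsAct a) (g : Γ) (f : X → ℂ)
    (x : X) : fr a ha g f x = f (a g⁻¹ x) := rfl

/-! ## B. Placements -/

/-- the placements of size `i` -/
abbrev Z (n m i : ℕ) : Type := {α : Cf n m // Um i α}

theorem um_act {n m : ℕ} (g : G n m) (i : ℕ) (α : Cf n m) : Um i (actC g α) ↔ Um i α := by
  have h := (helper70.stmt_ACT n m).2.2.1 g α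
  unfold Um
  rw [h.1, h.2.1, h.2.2]

/-- the action on the placements of size `i` -/
def aZ {n m : ℕ} (i : ℕ) (g : G n m) (z : Z n m i) : Z n m i :=
  ⟨actC g z.1, (um_act g i z.1).2 z.2⟩

/-- the action of a subgroup on the placements of size `i` -/
def aH {n m : ℕ} (H : Subgroup (G n m)) (i : ℕ) (h : H) (z : Z n m i) : Z n m i := aZ i (h : G n m) z

/-- the action of a subgroup on pairs of placements -/
def aH2 {n m : ℕ} (H : Subgroup (G n m)) (i j : ℕ) (h : H) (z : Z n m i × Z n m j) :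
    Z n m i × Z n m j := (aH H i h z.1, aH H j h z.2)

theorem isAct_aH {n m : ℕ} (H : Subgroup (G n m)) (i : ℕ) : IsAct (aH H i) where
  mul g h z := Subtype.ext (FINA_act n m g h z.1)
  one z := Subtype.ext (FINA_one n m z.1)

theorem isAct_aH2 {n m : ℕ} (H : Subgroup (G n m)) (i j : ℕ) : IsAct (aH2 H i j) where
  mul g h z := Prod.ext ((isAct_aH H i).mul g h z.1) ((isAct_aH H j).mul g h z.2)
  one z := Prod.ext ((isAct_aH H i).one z.1) ((isAct_aH H j).one z.2)

/-- delete the rows of `S` -/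
def del {n m : ℕ} (S : Finset (Fin n)) (α : Cf n m) : Cf n m := fun a => if a ∈ S then none else α a

/-- the placements with row set `S` and column set `T` -/
abbrev BB (n m : ℕ) (S : Finset (Fin n)) (T : Finset (Fin m)) : Type :=
  {β : Cf n m // Valid β ∧ tt β = 0 ∧ supp β = S ∧ cols β = T}

/-- `N` a set of `i` rows, `J` a set of `i` columns, `β` a placement of size at most `s` inside
`N × J` -/
def Yok {n m : ℕ} (i s : ℕ) (y : Finset (Fin n) × Finset (Fin m) × Cf n m) : Prop :=
  y.1.card = i ∧ y.2.1.card = i ∧ Valid y.2.2 ∧ tt y.2.2 = 0 ∧ dd y.2.2 ≤ s ∧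
    supp y.2.2 ⊆ y.1 ∧ cols y.2.2 ⊆ y.2.1

/-! ## C. Relations -/

/-- the relations of degree `i` between the placement monomials -/
def Rel (n m r i : ℕ) : Submodule ℂ (Fn n m) where
  carrier := {φ | (∀ α, φ α ≠ 0 → Um i α) ∧ Th n m φ ∈ grI (UZ n m r)}
  zero_mem' := ⟨fun α h => absurd rfl h, by rw [map_zero]; exact Ideal.zero_mem _⟩
  add_mem' := by
    rintro f g ⟨hf, hf'⟩ ⟨hg, hg'⟩
    refine ⟨fun α h => ?_, by rw [map_add]; exact Ideal.add_mem _ hf' hg'⟩
    by_contra hv
    have h1 : f α = 0 := by by_contra h1; exact hv (hf α h1)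
    have h2 : g α = 0 := by by_contra h2; exact hv (hg α h2)
    exact h (by rw [Pi.add_apply, h1, h2, add_zero])
  smul_mem' := by
    rintro c f ⟨hf, hf'⟩
    refine ⟨fun α h => hf α (fun h1 => h (by rw [Pi.smul_apply, h1, smul_zero])), ?_⟩
    rw [map_smul, MvPolynomial.smul_eq_C_mul]
    exact Ideal.mul_mem_left _ _ hf'

/-- the representation on the functions on the configurations -/
def rho1 (n m : ℕ) : Representation ℂ (G n m) (Fn n m) where
  toFun g := rF g
  map_one' := by
    refine LinearMap.ext fun f => funext fun α => ?_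
    show f (actC (1 : G n m)⁻¹ α) = f α
    rw [inv_one, FINA_one]
  map_mul' g k := by
    refine LinearMap.ext fun f => funext fun α => ?_
    show f (actC (g * k)⁻¹ α) = f (actC k⁻¹ (actC g⁻¹ α))
    rw [mul_inv_rev, FINA_act]

/-- the relations are stable -/
theorem rel_act {n m : ℕ} (r i : ℕ) : ∀ g, ∀ φ ∈ Rel n m r i, rho1 n m g φ ∈ Rel n m r i := by
  rintro g φ ⟨h1, h2⟩
  refine ⟨fun α h => ?_, ?_⟩
  · have h3 : Um i (actC g⁻¹ α) := h1 _ h
    exact (um_act g⁻¹ i α).1 h3
  · have h3 : Th n m (rho1 n m g φ) = actP g (Th n m φ) :=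
      (helper70.stmt_ACT n m).2.2.2.2.2.2.2 g φ
    rw [h3]
    exact grI_act g h2

/-- the representation of a subgroup on the relations -/
def rhoR {n m : ℕ} (H : Subgroup (G n m)) (r i : ℕ) : Representation ℂ H (Rel n m r i) :=
  (FINA_sub (rho1 n m) (Rel n m r i) (rel_act r i)).comp H.subtype

/-- the representation of a subgroup on `V_i ⊗ V_i` -/
def rhoT {n m : ℕ} (H : Subgroup (G n m)) (r i : ℕ) :
    Representation ℂ H (V n m r i ⊗[ℂ] V n m r i) := (FINA_rT n m r i).comp H.subtype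

/-- Surjection of `H`-modules `V_i ⊗ V_i ↠ V_{i-1} ⊗ V_{i+1}`. -/
def SurjOn {n m : ℕ} (H : Subgroup (G n m)) (r i : ℕ) : Prop :=
  ∃ Φ : (V n m r i ⊗[ℂ] V n m r i) →ₗ[ℂ] (V n m r (i - 1) ⊗[ℂ] V n m r (i + 1)),
    Function.Surjective Φ ∧
    ∀ g ∈ H, Φ ∘ₗ TensorProduct.map (actV n m r i g) (actV n m r i g) =
      TensorProduct.map (actV n m r (i - 1) g) (actV n m r (i + 1) g) ∘ₗ Φ

end Pool.RookLC.NL
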