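import Pool.Agent.Work.MP_6f78fb_nl.Skel
import Pool.Agent.Work.MP_6f78fb_nl.B_EQI
import Pool.Agent.Work.MP_6f78fb_nl.B_FEM
import Pool.Agent.Work.MP_6f78fb_nl.B_TWI
import Pool.Agent.Work.MP_6f78fb_nl.B_FRC
import Pool.Agent.Work.MP_6f78fb_nl.B_PLW
import Pool.Agent.Work.MP_6f78fb_nl.B_PLF
import Pool.Agent.Work.MP_6f78fb_nl.B_FPT
import Pool.Agent.Work.MP_6f78fb_nl.B_PRJ
import Pool.Agent.Work.MP_6f78fb_nl.B_SPN
import Pool.Agent.Work.MP_6f78fb_nl.B_DIM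
import Pool.Agent.Work.MP_6f78fb_nl.B_CNB
import Pool.Agent.Work.MP_6f78fb_nl.B_CIN
import Pool.Agent.Work.MP_6f78fb_nl.B_CNZ
import Pool.Agent.Work.MP_6f78fb_nl.B_CNY
import Pool.Agent.Work.MP_6f78fb_nl.B_FXB
import Pool.Agent.Work.MP_6f78fb_nl.B_FXR
import Pool.Agent.Work.MP_6f78fb_nl.B_HCD
import Pool.Agent.Work.MP_6f78fb_nl.B_NU1
import Pool.Agent.Work.MP_6f78fb_nl.B_NU2
import Pool.Agent.Work.MP_6f78fb_nl.B_NUM
import Pool.Agent.Work.MP_6f78fb_nl.B_GAP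
import Pool.Agent.Work.MP_6f78fb_nl.B_NU4
import Pool.Agent.Work.MP_6f78fb_nl.B_ASC
import Pool.Agent.Work.MP_6f78fb_nl.B_ASA
import Pool.Agent.Work.MP_6f78fb_nl.B_ASB
import Pool.Agent.Work.MP_6f78fb_nl.B_TRP
import Pool.Agent.Work.MP_6f78fb_nl.B_FSW
import Pool.Agent.Work.MP_6f78fb_nl.B_HSO
import Pool.Agent.Work.MP_6f78fb_nl.B_HIL

/-!
# MP_6f78fb_co, THEOREM NL: the blocks put together
-/

open scoped BigOperators TensorProduct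
open Classical

noncomputable section

namespace Pool.RookLC.NL

open Pool.RookLC Pool.RookLC.Lin

theorem all : ∀ n m r : ℕ, 1 ≤ r →
    (∀ i : ℕ, 1 ≤ i → i < min n m → (i + r ≤ min n m ∨ 9 * i ≤ (min n m + 1 - r) ^ 2) →
      (∀ H : Subgroup (G n m), FreeOn H → HasSurjOn H r i) ∧
      hilb n m r (i - 1) * hilb n m r (i + 1) ≤ hilb n m r i ^ 2) ∧
    (r ≤ min n m → 9 * min n m ≤ (min n m + 1 - r) ^ 2 →
      (∀ H : Subgroup (G n m), FreeOn H → EquivLogConcaveOn H r) ∧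
      ∀ i : ℕ, 1 ≤ i → hilb n m r (i - 1) * hilb n m r (i + 1) ≤ hilb n m r i ^ 2) := by
  have hCIN := p_CIN p_CNB
  have hCNZ := p_CNZ hCIN
  exact SK_all (p_DIM p_SPN) hCNZ (p_CNY hCIN) (p_NUM p_NU1 p_NU2) p_GAP (p_FXR (p_FXB hCIN) hCNZ)
    p_HCD p_NU4 (p_ASA p_EQI p_FEM p_TWI p_FRC p_PLW p_PLF p_FPT (p_ASC p_PRJ)) p_ASB p_TRP p_FSW
    p_HSO p_HIL

end Pool.RookLC.NL
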