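import Pool.Agent.Work.MP_6f78fb_nl.Defs

/-!
# MP_6f78fb_co, THEOREM NL: statements of the blocks, with complete proofs

Paper proof: note 3393. Everything is elementary. Library (all proved, import what you need):
`Pool.Agent.Work.MP_6f78fb_lin.B_CANCEL` (`Lin.stmt_CANCEL`), `.B_RETR` (`Lin.stmt_RETR`), `.B_CC`
(`Lin.stmt_CC`), `.B_TJ` (`Lin.stmt_TJ`), `.B_FINA`, `MP_6f78fb_rk_helper98.PROJ`
(`helper98.stmt_PROJ`), `MP_6f78fb_rk_helper83.RG` (`helper83.stmt_RG`), `.THIa`,
`MP_6f78fb_rk_helper70.ACT`, `MP_6f78fb_rk_helper27.Transfer`.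
-/

open scoped BigOperators TensorProduct
open Classical

noncomputable section

namespace Pool.RookLC.NL

open Pool.RookLC Pool.RookLC.Lin

/-! ## A. Free actions (nothing about placements) -/

/-- EQI. Two finite sets with free actions of a finite group, `card X ≤ card Y`: there is an
equivariant injection.
PROOF. Make `X` a `MulAction` (local instance from `a`). The action being free, the map
`Γ × (set of orbits) → X`, `(g, o) ↦ a g (rep o)`, `rep` a choice of representatives
(`Quotient.out`), is a bijection: onto, as `x` is in its orbit; one-to-one, as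
`a g (rep o) = a g' (rep o')` gives `o = o'` and `a (g'⁻¹ g) (rep o) = rep o`, so `g = g'`. So
`card X = card Γ * card (orbits of X)`, the same for `Y`, `card Γ > 0`, and there is an injection `e` of
the set of orbits of `X` into that of `Y`. Put `f (a g (rep o)) = b g (rep (e o))`. Equivariance:
`f (a h (a g (rep o))) = f (a (h g) (rep o)) = b (h g) (rep (e o)) = b h (f (a g (rep o)))`. -/
def Stmt_EQI : Prop := ∀ (Γ X Y : Type) [Group Γ] [Fintype Γ] [Fintype X] [Fintype Y]
  (a : Γ → X → X) (b : Γ → Y → Y), IsAct a → IsAct b → IsFree a → IsFree b →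
  Fintype.card X ≤ Fintype.card Y →
  ∃ f : X → Y, Function.Injective f ∧ ∀ g x, f (a g x) = b g (f x)

/-- FEM. An equivariant injection of sets gives an embedding of the function spaces.
PROOF. `F ↦ (y ↦ if h : ∃ x, f x = y then F h.choose else 0)`; the value at `f x` is `F x`. Linear,
injective. Equivariance: at `y` the two sides are `F (a g⁻¹ x)` if `y = f x` (since
`b g⁻¹ (f x) = f (a g⁻¹ x)`), and `0` if `y` is not in the image (then `b g⁻¹ y` is not either,
since `y = b g (b g⁻¹ y)`). -/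
def Stmt_FEM : Prop := ∀ (Γ X Y : Type) [Group Γ] (a : Γ → X → X) (b : Γ → Y → Y) (ha : IsAct a)
  (hb : IsAct b) (f : X → Y), Function.Injective f → (∀ g x, f (a g x) = b g (f x)) →
  Emb (fr a ha) (fr b hb)

/-- TWI. Functions on a free finite set `Y` with values in a representation `W` of dimension `d`
embed in the complex functions on `{1..d} × Y`, the group acting on `Y` only.
PROOF. The action `c g (j, y) = (j, b g y)` is free. Choose representatives of the orbits: a map
`γ : Y → Γ` with `γ (b g y) = g * γ y` for all `g, y` (`y = b (γ y) (rep of the orbit of y)`, `γ y`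
unique by freeness). Take a basis `w` of `W` (`Module.finBasis ℂ W`) and send `F : Y → W` to
`(j, y) ↦ (w.repr (ρ (γ y)⁻¹ (F y))) j`. Linear; injective since `ρ (γ y)⁻¹` and `w.repr` are.
Equivariance: `ρ (γ y)⁻¹ (ρ g (F (b g⁻¹ y))) = ρ (γ (b g⁻¹ y))⁻¹ (F (b g⁻¹ y))` because
`γ (b g⁻¹ y) = g⁻¹ γ y`. -/
def Stmt_TWI : Prop := ∀ (Γ Y W : Type) [Group Γ] [Fintype Γ] [Fintype Y] [AddCommGroup W]
  [Module ℂ W] [FiniteDimensional ℂ W] (ρ : Representation ℂ Γ W) (b : Γ → Y → Y) (hb : IsAct b),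
  IsFree b → ∃ (c : Γ → (Fin (Module.finrank ℂ W) × Y) → (Fin (Module.finrank ℂ W) × Y))
    (hc : IsAct c), IsFree c ∧ Emb (frW ρ b hb) (fr c hc)

/-- FRC. Every finite set with an action is an equivariant image of a finite set with a free action,
of cardinality the sum of the numbers of fixed points.
PROOF. `X' = Γ × (set of orbits)`, `a' h (g, o) = (h g, o)` (free), `p (g, o) = a g (rep o)`,
`rep` a choice of representatives: onto, equivariant. `card X' = card Γ * (number of orbits)`, which is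
the sum of the numbers of fixed points by Burnside
(`MulAction.sum_card_fixedBy_eq_card_orbits_mul_card_group`). -/
def Stmt_FRC : Prop := ∀ (Γ X : Type) [Group Γ] [Fintype Γ] [Fintype X] (a : Γ → X → X), IsAct a →
  ∃ (X' : Type) (_ : Fintype X') (a' : Γ → X' → X') (p : X' → X), IsAct a' ∧ IsFree a' ∧
    Function.Surjective p ∧ (∀ g x, p (a' g x) = a g (p x)) ∧
    Fintype.card X' = ∑ g : Γ, Fintype.card {x // a g x = x}

/-- PLW. Composition with an equivariant surjection.
PROOF. `F ↦ F ∘ p` is linear, injective (`p` is onto) and equivariant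
(`p (a' g⁻¹ x) = a g⁻¹ (p x)`). -/
def Stmt_PLW : Prop := ∀ (Γ X X' W : Type) [Group Γ] [AddCommGroup W] [Module ℂ W]
  (ρ : Representation ℂ Γ W) (a : Γ → X → X) (a' : Γ → X' → X') (ha : IsAct a) (ha' : IsAct a')
  (p : X' → X), Function.Surjective p → (∀ g x, p (a' g x) = a g (p x)) →
  Emb (frW ρ a ha) (frW ρ a' ha')

/-- PLF. The same for complex functions. -/
def Stmt_PLF : Prop := ∀ (Γ X X' : Type) [Group Γ] (a : Γ → X → X) (a' : Γ → X' → X')
  (ha : IsAct a) (ha' : IsAct a') (p : X' → X), Function.Surjective p →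
  (∀ g x, p (a' g x) = a g (p x)) → Emb (fr a ha) (fr a' ha')

/-- FPT. The number of points with trivial stabiliser.
PROOF. A point without this property is fixed by some `g ≠ 1`: union bound
(`Finset.card_biUnion_le`). -/
def Stmt_FPT : Prop := ∀ (Γ Y : Type) [Group Γ] [Fintype Γ] [Fintype Y] (a : Γ → Y → Y), IsAct a →
  Fintype.card Y ≤ Fintype.card {y // ∀ g, a g y = y → g = 1} +
    ∑ g ∈ (Finset.univ : Finset Γ).erase 1, Fintype.card {y // a g y = y}

/-! ## B. The dimension of the space of relations -/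

/-- PRJ. An equivariant projection onto the relations.
PROOF. `helper98.stmt_PROJ` for the group `G n m`, the space `Fn n m`, `ρ g = rF g`
(`rho1 n m` is a representation) and the subspace `Rel n m r i`, stable by `rel_act`. -/
def Stmt_PRJ : Prop := ∀ n m r i : ℕ, ∃ b : Fn n m →ₗ[ℂ] Fn n m, (∀ φ, b φ ∈ Rel n m r i) ∧
  (∀ φ ∈ Rel n m r i, b φ = φ) ∧ ∀ g φ, b (rF g φ) = rF g (b φ)

/-- SPN. The values of a relation of degree `i` are sums over small parts of the placement.
PROOF. As `Lin.stmt_INJ0` (file `MP_6f78fb_lin/B_INJ0.lean`; most of it can be copied). By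
`helper83.stmt_RG` there is `q` of degree `< i` (or `0`) such that `P = Th n m φ + q` vanishes on
`UZ n m r`. Fix for every pair `(N, J)` of a set of `i` rows and a set of `i` columns an injective
map `zz` of the `k` rows outside `N` to the columns outside `J` (possible since `m - i ≥ k`; lemma
`exists_zz`). For `α` with `Um i α`, `N = supp α`, `J = cols α` (`J.card = i`) and `S ⊆ N` let
`w_S` = `del S α` on `N`, `zz` outside `N`: a valid unmarked configuration with `i - S.card + k`
rooks. Put `Gf N J β = eval (mat (β on N, zz outside N)) P` (junk if not of this kind); so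
`Gf N J (del S α) = eval (mat w_S) P`. Then
`∑_{S ⊆ N} (-1)^S.card eval (mat w_S) P = φ α`: the alternating sum of `q` is `0` (`alt_poly`), and
for `Th n m φ` only the monomial of `α` survives (`alt_prod`, as in INJ0). The terms with
`dd (del S α) = i - S.card > s` vanish, because then `w_S` has at least `s + 1 + k = r` rooks, so
`mat w_S ∈ UZ n m r` (`mat_mem`). -/
def Stmt_SPN : Prop := ∀ n m r i s k : ℕ, n = i + k → i + k ≤ m → r = s + 1 + k →
  ∀ φ ∈ Rel n m r i, ∃ Gf : Finset (Fin n) → Finset (Fin m) → Cf n m → ℂ, ∀ α, Um i α →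
    φ α = ∑ S ∈ (supp α).powerset,
      if dd (del S α) ≤ s then (-1 : ℂ) ^ S.card * Gf (supp α) (cols α) (del S α) else 0

/-- DIM. The dimension of the space of relations is at most the number of triples `Yok`.
PROOF. Let `YY` be the subtype of `Yok i s`. Define the linear map `L : (YY → ℂ) → Fn n m`,
`(L x) α = if Um i α then ∑ S ∈ (supp α).powerset, if h : Yok i s (supp α, cols α, del S α) then
(-1)^S.card * x ⟨_, h⟩ else 0, else 0`. For `Um i α` and `S ⊆ supp α`,
`Yok i s (supp α, cols α, del S α)` holds iff `dd (del S α) ≤ s` (`(supp α).card = dd α = i`,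
`(cols α).card = i` because `α` is valid and unmarked, `del S α` is valid and unmarked,
`supp (del S α) ⊆ supp α`, `cols (del S α) ⊆ cols α`). So by SPN every `φ` in `Rel n m r i` is
`L x` with `x y = Gf y.1 y.2.1 y.2.2` (and both are `0` at `α` without `Um i α`). Hence
`Rel ≤ range L` and `finrank (range L) ≤ finrank (YY → ℂ) = card YY`. -/
def Stmt_DIM : Prop := ∀ n m r i s k : ℕ, n = i + k → i + k ≤ m → r = s + 1 + k →
  Module.finrank ℂ (Rel n m r i) ≤
    Fintype.card {y : Finset (Fin n) × Finset (Fin m) × Cf n m // Yok i s y}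

/-! ## C. Counting -/

/-- CNB. There are `t!` placements with given row set and column set of size `t`.
PROOF. A bijection with `{x // x ∈ S} ≃ {x // x ∈ T}` (`Fintype.card_equiv`): to `β` (valid,
unmarked) corresponds the map `a ↦` the column of the rook in row `a` (`β a = some (some j)`,
`j ∈ cols β = T`), injective by `Valid`, so bijective (equal cardinalities, or because `cols β = T`);
conversely to `e` corresponds `β a = if h : a ∈ S then some (some (e ⟨a, h⟩).1) else none`. -/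
def Stmt_CNB : Prop := ∀ (n m : ℕ) (S : Finset (Fin n)) (T : Finset (Fin m)), S.card = T.card →
  Fintype.card (BB n m S T) = S.card.factorial

/-- CIN. The number of placements of size `t` inside `N × J`.
PROOF. To `β` correspond `supp β ∈ powersetCard t N`, `cols β ∈ powersetCard t J`
(`(supp β).card = dd β = t` by definition, `(cols β).card = (supp β).card` for valid unmarked `β`) and
`β` as an element of `BB n m (supp β) (cols β)`, which has `t!` elements by CNB. Sum over the fibres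
(`Finset.card_eq_sum_card_fiberwise`, or an equivalence with a sigma type); `Finset.card_powersetCard`. -/
def Stmt_CIN : Prop := ∀ (n m : ℕ) (N : Finset (Fin n)) (J : Finset (Fin m)) (t : ℕ),
  Fintype.card {β : Cf n m // Valid β ∧ tt β = 0 ∧ dd β = t ∧ supp β ⊆ N ∧ cols β ⊆ J} =
    N.card.choose t * J.card.choose t * t.factorial

/-- CNZ. The number of rook placements of size `i`.
PROOF. CIN with `N = univ`, `J = univ`. -/
def Stmt_CNZ : Prop := ∀ n m i : ℕ,
  Fintype.card (Z n m i) = n.choose i * m.choose i * i.factorial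

/-- CNY. The number of triples `Yok`.
PROOF. For given `N`, `J` of size `i` the placements inside `N × J` of size at most `s` are counted by
CIN: `∑_{t ≤ s} (i.choose t)^2 t!`; there are `n.choose i * m.choose i` pairs `(N, J)`. -/
def Stmt_CNY : Prop := ∀ n m i s : ℕ,
  Fintype.card {y : Finset (Fin n) × Finset (Fin m) × Cf n m // Yok i s y} ≤
    n.choose i * m.choose i * ∑ t ∈ Finset.range (s + 1), (i.choose t) ^ 2 * t.factorial

/-- FXB. Placements fixed by an element without fixed cell: double counting.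
PROOF. Let `s = g.1`, `t = g.2`, `A` a placement of size `j` with `actC g A = A`, and write `A a` for
the column of the rook in the row `a ∈ supp A`. `A (s a) = t (A a)` (`helper70.actC_apply`), so
`s` permutes `supp A`; `s a ≠ a` for `a ∈ supp A` (otherwise `t (A a) = A a` and the cell `(a, A a)` is
fixed), and so `t (A a) = A (s a) ≠ A a`. For `a ∈ supp A` and `a' ∈ supp A` different from
`a, s a, s⁻¹ a` (at least `j - 3` choices) the four rows `a, s a, a', s a'` are distinct elements of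
`supp A` and their columns `c, t c, c', t c'` (`c = A a`, `c' = A a'`) are distinct. So
`j (j - 3) (number of A)` is at most the number of tuples `(a, c, a', c', A)` with
`s a ≠ a`, `t c ≠ c`, `a' ∉ {a, s a}`, `c' ∉ {c, t c}`, `R = {a, s a, a', s a'}` of cardinality 4,
`C = {c, t c, c', t c'}` of cardinality 4, and `A` a placement of size `j` with rooks in
`(a, c), (s a, t c), (a', c'), (s a', t c')`. There are at most `n m (n-2) (m-2)` tuples
`(a, c, a', c')`, and for each of them `A ↦ del R A` is an injection of the `A` into the placements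
of size `j - 4` inside `Rᶜ × Cᶜ`, of number `(n-4 choose j-4) (m-4 choose j-4) (j-4)!` by CIN. -/
def Stmt_FXB : Prop := ∀ (n m j : ℕ) (g : G n m), (∀ a c, ¬ (g.1 a = a ∧ g.2 c = c)) → 4 ≤ j →
  j * (j - 3) * Fintype.card {z : Z n m j // aZ j g z = z} ≤
    n * m * ((n - 2) * (m - 2)) *
      ((n - 4).choose (j - 4) * (m - 4).choose (j - 4) * (j - 4).factorial)

/-- FXR. The proportion of the fixed placements.
PROOF. By CNZ `z_j = C(n,j) C(m,j) j!`, and `C(n,j) * (j (j-1) (j-2) (j-3)) =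
C(n-4,j-4) * (n (n-1) (n-2) (n-3))` (`Nat.choose_mul_succ_eq`, `Nat.succ_mul_choose_eq` four times, or
descending factorials; put `n = n' + 4`, `j = j' + 4`), the same for `m`, and
`j! = (j-4)! j (j-1) (j-2) (j-3)`. So
`z_j * j (j-1) (j-2) (j-3) = n (n-1) (n-2) (n-3) m (m-1) (m-2) (m-3) C(n-4,j-4) C(m-4,j-4) (j-4)!`.
Multiply FXB by `(n-1) (n-3) (m-1) (m-3) (j-1) (j-2)` and cancel `j (j-1) (j-2) (j-3) > 0`. -/
def Stmt_FXR : Prop := ∀ (n m j : ℕ) (g : G n m), (∀ a c, ¬ (g.1 a = a ∧ g.2 c = c)) → 4 ≤ j →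
  j ≤ n → j ≤ m →
  (n - 1) * (n - 3) * ((m - 1) * (m - 3)) * Fintype.card {z : Z n m j // aZ j g z = z} ≤
    (j - 1) * (j - 2) * Fintype.card (Z n m j)

/-- HCD. The order of a group acting freely on the cells.
PROOF. `h ↦ (h.1 a0, h.2 c0)` is injective on `H` for a fixed cell `(a0, c0)`. -/
def Stmt_HCD : Prop := ∀ (n m : ℕ) (H : Subgroup (G n m)), 1 ≤ n → 1 ≤ m → FreeOn H →
  Fintype.card H ≤ n * m

/-- NU1. A sequence decreasing by a factor 9.
PROOF. Let `u d = i^d / (d!)^2` (real numbers). (1) For `d ≤ i`: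
`(i.choose (i-d))^2 (i-d)! / i! = i.choose d / d! ≤ u d`, because `i.choose d * d! * (i-d)! = i!`
and `i.choose d * d! ≤ i^d` (`Nat.choose_le_pow_div` or `Nat.descFactorial_le_pow`). (2) For
`d ≥ D`: `u (d+1) = u d * i/(d+1)^2 ≤ u d / 9`, since `9 i ≤ D^2 ≤ (d+1)^2`. So
`∑_{d=D}^{i} u d ≤ (9/8) u D` (induction: `∑_{d=D}^{D+l} u d ≤ (9/8) u D - (1/8) u (D+l)`).
(3) `t ↦ i - t` maps `range (i-D+1)` to `[D, i]`. Multiply by `i!`. -/
def Stmt_NU1 : Prop := ∀ i D : ℕ, 1 ≤ D → D ≤ i → 9 * i ≤ D ^ 2 →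
  (8 : ℝ) * ∑ t ∈ Finset.range (i - D + 1), ((i.choose t : ℝ)) ^ 2 * (t.factorial : ℝ) ≤
    9 * (i.factorial : ℝ) * ((i : ℝ) ^ D / ((D.factorial : ℝ)) ^ 2)

/-- NU2. The numerical inequality for `D ≥ 9`.
PROOF. Let `w D = (27/2) (D^2/9 + 1) ((D/3)^D / D!)^2`. `w 9 ≤ 1` (norm_num: `135 (3^9/9!)^2`,
about `.397`). `w (D+1) ≤ w D` for `D ≥ 9`: the quotient is
`((D+1)^2 + 9)/(D^2 + 9) * ((1 + 1/D)^D / 3)^2`, because
`((D+1)/3)^(D+1)/(D+1)! = (1/3) (1 + 1/D)^D (D/3)^D/D!`; here `(1 + 1/D)^D ≤ exp 1 < 2.7182818286`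
(`Real.add_one_le_exp`, `Real.exp_one_lt_d9`), and `90 ((D+1)^2 + 9) ≤ 109 (D^2 + 9)` for `D ≥ 9`
(`19 D^2 - 180 D + 81 ≥ 0`), and `(109/90) (2.7182818286)^2/9 < 1`. -/
def Stmt_NU2 : Prop := ∀ D : ℕ, 9 ≤ D →
  (27 / 2 : ℝ) * ((D : ℝ) ^ 2 / 9 + 1) * (((D : ℝ) / 3) ^ D / (D.factorial : ℝ)) ^ 2 ≤ 1

/-- NUM. The numerical inequality.
PROOF. `D ≤ i` and `9 i ≤ D^2` give `D ≥ 9`. By NU1 the left side is at most
`12 (i+1) (9/8) i! i^D/(D!)^2 ≤ i! (27/2) (D^2/9 + 1) ((D^2/9)^D/(D!)^2) ≤ i!` by NU2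
(`(D^2/9)^D = ((D/3)^D)^2`, `i ≤ D^2/9`). -/
def Stmt_NUM : Prop := ∀ i D : ℕ, 1 ≤ D → D ≤ i → 9 * i ≤ D ^ 2 →
  12 * (i + 1) * ∑ t ∈ Finset.range (i - D + 1), (i.choose t) ^ 2 * t.factorial ≤ i.factorial

/-- GAP. Quantitative log-concavity of the numbers of placements.
PROOF. For `1 ≤ i < n`, `i < m`: `n.choose (i-1) * (n-i+1) = n.choose i * i` and
`n.choose (i+1) * (i+1) = n.choose i * (n-i)` (`Nat.choose_succ_right_eq`), so
`z_{i-1} z_{i+1} (i+1) (n-i+1) (m-i+1) = z_i^2 i (n-i) (m-i) ≤ z_i^2 i (n-i) (m-i+1)`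
(factorials: `(i-1)! (i+1)! i = (i!)^2 (i+1)`). Cancel `m-i+1`. -/
def Stmt_GAP : Prop := ∀ n m i : ℕ, 1 ≤ i → i < n → i < m →
  (i + 1) * (n - i + 1) * ((n.choose (i - 1) * m.choose (i - 1) * (i - 1).factorial) *
      (n.choose (i + 1) * m.choose (i + 1) * (i + 1).factorial)) ≤
    i * (n - i) * (n.choose i * m.choose i * i.factorial) ^ 2

/-- NU4. The final numerical inequalities.
PROOF. Let `θ` be the quantity in the statement; `i (i-1) ≤ (n-1) (n-2)`, so
`θ ≤ (n-2)/((n-3) (m-1) (m-3))`. (1) `n m (n-2) ≤ 2 (n-3) (m-1) (m-3)` for `10 ≤ n ≤ m`. (2)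
`1 - i (n-i)/((i+1) (n-i+1)) = (n+1)/((i+1) (n-i+1))`, and `1/(2 (i+1)) ≤ (n+1)/(2 (i+1) (n-i+1))`,
so it is enough that `2 n m θ^2 ≤ (n+1)/(2 (i+1) (n-i+1))`; `4 (i+1) (n-i+1) ≤ (n+2)^2` (arithmetic-geometric
mean), so it is enough that `n m (n-2)^2 (n+2)^2 ≤ (n+1) (n-3)^2 (m-1)^2 (m-3)^2`. For `m = n = 10 + x`
the difference of the two sides (divided by nothing: use
`n^2 (n^2-4)^2 ≤ (n+1) (n-1)^2 (n-3)^4`) is
`1217691 + 1324011 x + 569155 x^2 + 129483 x^3 + 17109 x^4 + 1325 x^5 + 56 x^6 + x^7 ≥ 0`, and for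
`m ≥ n`: `m (n-1)^2 (n-3)^2 ≤ n (m-1)^2 (m-3)^2` (`m = n + y`, or monotonicity of
`(m-1)^2/m` and of `(m-3)^2`). -/
def Stmt_NU4 : Prop := ∀ n m i : ℕ, 9 ≤ i → i < n → n ≤ m → ∀ θ : ℝ,
  θ = (i : ℝ) * ((i : ℝ) - 1) /
    (((n : ℝ) - 1) * ((n : ℝ) - 3) * (((m : ℝ) - 1) * ((m : ℝ) - 3))) →
  (n : ℝ) * m * θ ≤ 2 ∧
  (i : ℝ) * ((n : ℝ) - i) / (((i : ℝ) + 1) * ((n : ℝ) - i + 1)) + 2 * (n * m * θ ^ 2) +
    1 / (2 * ((i : ℝ) + 1)) ≤ 1

/-! ## D. Representations -/

/-- ASC. The joint embedding of the functions on the pairs.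
PROOF. As the first half of `Lin.stmt_FINA` (`MP_6f78fb_lin/B_FINA.lean`). Let `b` be the projection
of PRJ, and for `F : Z n m i × Z n m i → ℂ` let `F' : Fn2 n m` be its extension by zero (linear,
`F'` supported in `Um i × Um i`, `(h F)' = rF2 h F'` by `um_act`). The map
`F ↦ (cc n m r i i F', (β ↦ b (fun α => F' (α, β))), (α ↦ b (fun β => F' (α, β))))` (the last two
with values in `Rel n m r i`, by PRJ) is linear and equivariant (`Stmt_CC`, first part, and the
equivariance of `b`: `b (fun α => F' (h⁻¹ α, h⁻¹ β)) = rF h (b (fun α => F' (α, h⁻¹ β)))`).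
Injective: if the image is `0` then `cc F' = 0`, `b (fun α => F' (α, β)) = 0` for all `β` (for `β`
not of size `i` the function is `0`), the same for the second variable, so `F' = 0` by `Stmt_TJ`
(its hypothesis: `φ` with `Um i`-support, `Th n m φ ∈ grI`, `b φ = 0` is in `Rel`, so
`φ = b φ = 0`). -/
def Stmt_ASC : Prop := ∀ (n m r i : ℕ) (H : Subgroup (G n m)),
  Emb (W := (V n m r i ⊗[ℂ] V n m r i) × ((Z n m i → Rel n m r i) × (Z n m i → Rel n m r i)))
    (fr (aH2 H i i) (isAct_aH2 H i i))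
    ((rhoT H r i).prod ((frW (rhoR H r i) (aH H i) (isAct_aH H i)).prod
      (frW (rhoR H r i) (aH H i) (isAct_aH H i))))

/-- ASA. The functions on `Z_{i-1} × Z_{i+1}` embed in `V_i ⊗ V_i`.
PROOF. Put `d = finrank (Rel n m r i)`, `f_j h` = number of fixed points of `aH H j h`. FRC gives free
covers `X'` of `Z_{i-1} × Z_{i+1}` (`card X' = ∑ h, f_{i-1} h * f_{i+1} h`) and `Z'` of `Z_i`
(`card Z' = ∑ h, f_i h`). By PLW and TWI `frW (rhoR H r i) (aH H i) _` embeds in `fr c hc`, `c` a free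
action on `P = Fin d × Z'`. Let `Y` be the subset of the points of `Z_i × Z_i` with trivial stabiliser
(stable: if `y` has trivial stabiliser so has `a g y`), so by FPT
`z_i^2 ≤ card Y + ∑_{h ≠ 1} (f_i h)^2` (`h` fixes `(α, β)` iff it fixes both). So by the hypothesis `card X' + 2 card P ≤ card Y`.
By EQI, FEM (twice: `X' ⊕ (P ⊕ P)` into `Y`, and `Y` into `Z_i × Z_i`) `fr` on `X' ⊕ (P ⊕ P)` embeds in
`fr (aH2 H i i)`, so by ASC in `(rhoT H r i).prod K`, `K = frW × frW`. With `Emb_sum` and `Emb_prod`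
(file Basic) and PLF: `Emb ((fr (aH2 H (i-1) (i+1)) _).prod (P2)) ((rhoT H r i).prod K)`,
`P2 = (fr c hc).prod (fr c hc)`, and `Emb K P2`: apply `Stmt_CANCEL`.
Finite-dimensionality of `V_i ⊗ V_i`: `Lin.FINA_fin`. -/
def Stmt_ASA : Prop := ∀ (n m r i : ℕ) (H : Subgroup (G n m)),
  (∑ h : H, Fintype.card {z : Z n m (i - 1) // aH H (i - 1) h z = z} *
      Fintype.card {z : Z n m (i + 1) // aH H (i + 1) h z = z}) +
    2 * Module.finrank ℂ (Rel n m r i) *
      (∑ h : H, Fintype.card {z : Z n m i // aH H i h z = z}) +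
    (∑ h ∈ (Finset.univ : Finset H).erase 1,
      Fintype.card {z : Z n m i // aH H i h z = z} ^ 2) ≤ Fintype.card (Z n m i) ^ 2 →
  Emb (W := V n m r i ⊗[ℂ] V n m r i) (fr (aH2 H (i - 1) (i + 1))
    (isAct_aH2 H (i - 1) (i + 1))) (rhoT H r i)

/-- ASB. From the embedding to the surjection.
PROOF. As `Lin.FINA_surj`. `Stmt_RETR` gives a surjective equivariant linear map `f` from
`V_i ⊗ V_i` to the functions on `Z_{i-1} × Z_{i+1}`; compose with the extension by zero to `Fn2 n m`
and with `cc n m r (i-1) (i+1)`, which is surjective on the functions supported in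
`Um (i-1) × Um (i+1)` and equivariant (`Stmt_CC`). -/
def Stmt_ASB : Prop := ∀ (n m r i : ℕ) (H : Subgroup (G n m)),
  Emb (W := V n m r i ⊗[ℂ] V n m r i) (fr (aH2 H (i - 1) (i + 1))
    (isAct_aH2 H (i - 1) (i + 1))) (rhoT H r i) → SurjOn H r i

/-- TRP. Transposition.
PROOF. `helper27.transfer` and `helper27.stmt_TRS` with `Surj` replaced by `SurjOn`: copy the proof of
`helper27.transfer` (file `MP_6f78fb_rk_helper27/Transfer.lean`) with the hypothesis
`hS : SurjOn H' r' i` and `∀ g ∈ H, φ g ∈ H'`, and apply it with `φ g = (g.2, g.1)` as in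
`helper27.stmt_TRS`. -/
def Stmt_TRP : Prop := ∀ (n m r i : ℕ) (H : Subgroup (G n m)) (H' : Subgroup (G m n)),
  (∀ g ∈ H, ((g.2, g.1) : G m n) ∈ H') → SurjOn H' r i → SurjOn H r i

/-- FSW. Freeness is invariant under transposition.
PROOF. For `g' = (g.2, g.1)` with `g ∈ H` and a cell `(j, a)` fixed by `g'`, the cell `(a, j)` is fixed
by `g`; so `g = 1` and `g' = 1`. -/
def Stmt_FSW : Prop := ∀ (n m : ℕ) (H : Subgroup (G n m)), FreeOn H →
  FreeOn (H.map (MulEquiv.prodComm (M := Equiv.Perm (Fin n)) (N := Equiv.Perm (Fin m))).toMonoidHom)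

/-- HSO. The two forms of the statement.
PROOF. As `hasSurj_of`: `VT`, `TV`, `actTV` are by definition `V`, `⊗`, `TensorProduct.map`. -/
def Stmt_HSO : Prop := ∀ (n m r i : ℕ) (H : Subgroup (G n m)), SurjOn H r i → HasSurjOn H r i

/-- HIL. The inequality for the Hilbert function.
PROOF. `VT n m r d` is by definition `V n m r d`, finite-dimensional (a surjection from `Fn n m`:
`Lin.CC_span`). A surjective linear map `V_i ⊗ V_i → V_{i-1} ⊗ V_{i+1}` gives
`finrank (V_{i-1} ⊗ V_{i+1}) ≤ finrank (V_i ⊗ V_i)`, and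
`Module.finrank_tensorProduct`. -/
def Stmt_HIL : Prop := ∀ (n m r i : ℕ) (H : Subgroup (G n m)), SurjOn H r i →
  hilb n m r (i - 1) * hilb n m r (i + 1) ≤ hilb n m r i ^ 2

end Pool.RookLC.NL
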