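import Pool.Agent.Work.MP_6f78fb_nl.Basic
import Pool.Agent.Work.MP_6f78fb_lin.Final

/-!
# MP_6f78fb_co, THEOREM NL: assembly
-/

open scoped BigOperators TensorProduct
open Classical

noncomputable section

namespace Pool.RookLC.NL

open Pool.RookLC Pool.RookLC.Lin

theorem surjOn_of {n m r i : ℕ} (H : Subgroup (G n m)) (h : Surj n m r i) : SurjOn H r i := by
  obtain ⟨Φ, h1, h2⟩ := h
  exact ⟨Φ, h1, fun g _ => h2 g⟩

/-- the inequality between the numbers of placements -/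
theorem SK_FIQ (hDIM : Stmt_DIM) (hCNZ : Stmt_CNZ) (hCNY : Stmt_CNY) (hNUM : Stmt_NUM)
    (hGAP : Stmt_GAP) (hFXR : Stmt_FXR) (hHCD : Stmt_HCD) (hNU4 : Stmt_NU4) {n m r i : ℕ}
    (H : Subgroup (G n m)) (hH : FreeOn H) (hnm : n ≤ m) (hi : 1 ≤ i) (hin : i < n)
    (hir : n < i + r) (hD : 9 * i ≤ (n + 1 - r) ^ 2) :
    (∑ h : H, Fintype.card {z : Z n m (i - 1) // aH H (i - 1) h z = z} *
      Fintype.card {z : Z n m (i + 1) // aH H (i + 1) h z = z}) +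
    2 * Module.finrank ℂ (Rel n m r i) *
      (∑ h : H, Fintype.card {z : Z n m i // aH H i h z = z}) +
    (∑ h ∈ (Finset.univ : Finset H).erase 1,
      Fintype.card {z : Z n m i // aH H i h z = z} ^ 2) ≤ Fintype.card (Z n m i) ^ 2 := by
  have hrn : r ≤ n := by
    by_contra h
    have h1 : n + 1 - r = 0 := by omega
    rw [h1] at hD
    omega
  obtain ⟨D, hDd⟩ : ∃ D, D = n + 1 - r := ⟨_, rfl⟩
  rw [← hDd] at hD
  have h1D : 1 ≤ D := by omega
  have hDi : D ≤ i := by omega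
  have hD9 : 9 ≤ D := by
    by_contra h
    have h1 : D ≤ 8 := by omega
    have h2 : D ^ 2 ≤ 8 * D := by nlinarith
    omega
  have hi9 : 9 ≤ i := by omega
  obtain ⟨s, hs⟩ : ∃ s, s = i - D := ⟨_, rfl⟩
  obtain ⟨k, hk⟩ : ∃ k, k = n - i := ⟨_, rfl⟩
  have hdim := (hDIM n m r i s k (by omega) (by omega) (by omega)).trans (hCNY n m i s)
  have hnum := hNUM i D h1D hDi hD
  have hgap := hGAP n m i hi hin (by omega)
  obtain ⟨d, hd⟩ : ∃ d, d = Module.finrank ℂ (Rel n m r i) := ⟨_, rfl⟩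
  obtain ⟨z, hz⟩ : ∃ z : ℕ → ℕ, z = fun j => Fintype.card (Z n m j) := ⟨_, rfl⟩
  obtain ⟨f, hf⟩ : ∃ f : ℕ → H → ℕ, f = fun j h => Fintype.card {z : Z n m j // aH H j h z = z} :=
    ⟨_, rfl⟩
  have hzf : ∀ j, z j = n.choose j * m.choose j * j.factorial := fun j => by rw [hz]; exact hCNZ n m j
  have hfz : ∀ j h, f j h ≤ z j := by
    intro j h
    rw [hf, hz]
    exact Fintype.card_subtype_le _
  rw [← hd] at hdim
  -- the dimension of the relations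
  have h2 : 12 * (i + 1) * d ≤ z i := by
    have h3 : 12 * (i + 1) * d ≤ 12 * (i + 1) * (n.choose i * m.choose i *
        ∑ t ∈ Finset.range (s + 1), (i.choose t) ^ 2 * t.factorial) := Nat.mul_le_mul_left _ hdim
    have h4 : n.choose i * m.choose i * (12 * (i + 1) *
        ∑ t ∈ Finset.range (i - D + 1), (i.choose t) ^ 2 * t.factorial) ≤
        n.choose i * m.choose i * i.factorial := Nat.mul_le_mul_left _ hnum
    rw [← hzf] at h4
    rw [hs] at h3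
    calc 12 * (i + 1) * d ≤ _ := h3
      _ = n.choose i * m.choose i * (12 * (i + 1) *
        ∑ t ∈ Finset.range (i - D + 1), (i.choose t) ^ 2 * t.factorial) := by ring
      _ ≤ z i := h4
  -- the gap
  have hgap' : (i + 1) * (n - i + 1) * (z (i - 1) * z (i + 1)) ≤ i * (n - i) * z i ^ 2 := by
    rw [hzf, hzf, hzf]
    exact hgap
  -- the fixed points
  have hfix : ∀ j, i - 1 ≤ j → j ≤ i + 1 → ∀ h : H, h ≠ 1 →
      (n - 1) * (n - 3) * ((m - 1) * (m - 3)) * f j h ≤ (j - 1) * (j - 2) * z j := by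
    intro j hj1 hj2 h hh
    have h3 : ∀ a c, ¬ ((h : G n m).1 a = a ∧ (h : G n m).2 c = c) := by
      intro a c hac
      exact hh (Subtype.ext (hH (h : G n m) h.2 a c hac.1 hac.2))
    have h4 := hFXR n m j (h : G n m) h3 (by omega) (by omega) (by omega)
    rw [hf, hz]
    exact h4
  have hcard : Fintype.card H ≤ n * m := hHCD n m H (by omega) (by omega) hH
  -- real numbers
  obtain ⟨θ, hθ⟩ : ∃ θ : ℝ, θ = (i : ℝ) * ((i : ℝ) - 1) /
    (((n : ℝ) - 1) * ((n : ℝ) - 3) * (((m : ℝ) - 1) * ((m : ℝ) - 3))) := ⟨_, rfl⟩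
  obtain ⟨hN1, hN2⟩ := hNU4 n m i hi9 hin hnm θ hθ
  have hnR : (10 : ℝ) ≤ n := by exact_mod_cast (by omega : 10 ≤ n)
  have hmR : (n : ℝ) ≤ m := by exact_mod_cast hnm
  have hiR : (9 : ℝ) ≤ i := by exact_mod_cast hi9
  have hinR : (i : ℝ) + 1 ≤ n := by exact_mod_cast hin
  have hden : (0 : ℝ) < ((n : ℝ) - 1) * ((n : ℝ) - 3) * (((m : ℝ) - 1) * ((m : ℝ) - 3)) := by
    apply mul_pos (mul_pos _ _) (mul_pos _ _) <;> linarith
  have hθ0 : 0 ≤ θ := by
    rw [hθ]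
    apply div_nonneg _ hden.le
    apply mul_nonneg <;> linarith
  have hfR : ∀ j, i - 1 ≤ j → j ≤ i + 1 → ∀ h : H, h ≠ 1 → (f j h : ℝ) ≤ θ * z j := by
    intro j hj1 hj2 h hh
    have h3 := hfix j hj1 hj2 h hh
    have h4 : (((n - 1) * (n - 3) * ((m - 1) * (m - 3)) * f j h : ℕ) : ℝ) ≤
        (((j - 1) * (j - 2) * z j : ℕ) : ℝ) := by exact_mod_cast h3
    push_cast [Nat.cast_sub (show 1 ≤ n by omega), Nat.cast_sub (show 3 ≤ n by omega),
      Nat.cast_sub (show 1 ≤ m by omega), Nat.cast_sub (show 3 ≤ m by omega),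
      Nat.cast_sub (show 1 ≤ j by omega), Nat.cast_sub (show 2 ≤ j by omega)] at h4
    have hjR : (j : ℝ) ≤ (i : ℝ) + 1 := by exact_mod_cast hj2
    have hjR2 : (8 : ℝ) ≤ j := by exact_mod_cast (by omega : 8 ≤ j)
    have h5 : ((j : ℝ) - 1) * ((j : ℝ) - 2) ≤ (i : ℝ) * ((i : ℝ) - 1) := by nlinarith
    have h6 : (0 : ℝ) ≤ z j := Nat.cast_nonneg _
    rw [hθ, div_mul_eq_mul_div, le_div_iff₀ hden]
    nlinarith [mul_le_mul_of_nonneg_right h5 h6]
  have hcR : ((Finset.univ : Finset H).erase 1).card ≤ n * m := by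
    refine (Finset.card_le_card (Finset.erase_subset _ _)).trans ?_
    rw [Finset.card_univ]
    exact hcard
  have hcR' : ((((Finset.univ : Finset H).erase 1).card : ℕ) : ℝ) ≤ (n : ℝ) * m := by
    exact_mod_cast hcR
  have hz0 : (0 : ℝ) ≤ z i := Nat.cast_nonneg _
  have hq0 : (0 : ℝ) ≤ (z (i - 1) : ℝ) * z (i + 1) := by positivity
  -- the gap in real numbers
  have hgR : (z (i - 1) : ℝ) * z (i + 1) ≤
      (i : ℝ) * ((n : ℝ) - i) / (((i : ℝ) + 1) * ((n : ℝ) - i + 1)) * (z i : ℝ) ^ 2 := by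
    have h4 : (((i + 1) * (n - i + 1) * (z (i - 1) * z (i + 1)) : ℕ) : ℝ) ≤
        ((i * (n - i) * z i ^ 2 : ℕ) : ℝ) := by exact_mod_cast hgap'
    push_cast [Nat.cast_sub (show i ≤ n by omega)] at h4
    have h5 : (0 : ℝ) < ((i : ℝ) + 1) * ((n : ℝ) - i + 1) := by
      apply mul_pos <;> linarith
    rw [div_mul_eq_mul_div, le_div_iff₀ h5]
    linarith
  have hqz : (z (i - 1) : ℝ) * z (i + 1) ≤ (z i : ℝ) ^ 2 := by
    refine hgR.trans ?_
    have h5 : (0 : ℝ) < ((i : ℝ) + 1) * ((n : ℝ) - i + 1) := by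
      apply mul_pos <;> linarith
    have h6 : (i : ℝ) * ((n : ℝ) - i) / (((i : ℝ) + 1) * ((n : ℝ) - i + 1)) ≤ 1 := by
      rw [div_le_one h5]
      nlinarith
    calc _ ≤ 1 * (z i : ℝ) ^ 2 := mul_le_mul_of_nonneg_right h6 (by positivity)
      _ = (z i : ℝ) ^ 2 := one_mul _
  -- the three sums
  have hS1 : ((∑ h : H, f (i - 1) h * f (i + 1) h : ℕ) : ℝ) ≤
      (z (i - 1) : ℝ) * z (i + 1) + (n * m * θ ^ 2) * (z i : ℝ) ^ 2 := by
    rw [← Finset.add_sum_erase _ _ (Finset.mem_univ (1 : H))]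
    push_cast
    have h5 : (f (i - 1) 1 : ℝ) * f (i + 1) 1 ≤ (z (i - 1) : ℝ) * z (i + 1) := by
      have h6 : (f (i - 1) 1 : ℝ) ≤ z (i - 1) := by exact_mod_cast hfz (i - 1) 1
      have h7 : (f (i + 1) 1 : ℝ) ≤ z (i + 1) := by exact_mod_cast hfz (i + 1) 1
      exact mul_le_mul h6 h7 (Nat.cast_nonneg _) (Nat.cast_nonneg _)
    have h8 : (∑ x ∈ (Finset.univ : Finset H).erase 1, (f (i - 1) x : ℝ) * f (i + 1) x) ≤
        (((Finset.univ : Finset H).erase 1).card : ℝ) * (θ ^ 2 * (z i : ℝ) ^ 2) := by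
      rw [← nsmul_eq_mul]
      refine Finset.sum_le_card_nsmul _ _ _ fun h hh => ?_
      have h9 := hfR (i - 1) (by omega) (by omega) h (Finset.ne_of_mem_erase hh)
      have h10 := hfR (i + 1) (by omega) (by omega) h (Finset.ne_of_mem_erase hh)
      calc (f (i - 1) h : ℝ) * f (i + 1) h ≤ (θ * z (i - 1)) * (θ * z (i + 1)) :=
            mul_le_mul h9 h10 (Nat.cast_nonneg _) (mul_nonneg hθ0 (Nat.cast_nonneg _))
        _ = θ ^ 2 * ((z (i - 1) : ℝ) * z (i + 1)) := by ring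
        _ ≤ θ ^ 2 * (z i : ℝ) ^ 2 := mul_le_mul_of_nonneg_left hqz (by positivity)
    have h11 : (((Finset.univ : Finset H).erase 1).card : ℝ) * (θ ^ 2 * (z i : ℝ) ^ 2) ≤
        (n * m) * (θ ^ 2 * (z i : ℝ) ^ 2) := mul_le_mul_of_nonneg_right hcR' (by positivity)
    have h12 : ((n : ℝ) * m) * (θ ^ 2 * (z i : ℝ) ^ 2) = (n * m * θ ^ 2) * (z i : ℝ) ^ 2 := by ring
    linarith
  have hS2 : ((∑ h : H, f i h : ℕ) : ℝ) ≤ (1 + n * m * θ) * z i := by
    rw [← Finset.add_sum_erase _ _ (Finset.mem_univ (1 : H))]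
    push_cast
    have h6 : (f i 1 : ℝ) ≤ z i := by exact_mod_cast hfz i 1
    have h8 : (∑ x ∈ (Finset.univ : Finset H).erase 1, (f i x : ℝ)) ≤
        (((Finset.univ : Finset H).erase 1).card : ℝ) * (θ * z i) := by
      rw [← nsmul_eq_mul]
      exact Finset.sum_le_card_nsmul _ _ _ fun h hh =>
        hfR i (by omega) (by omega) h (Finset.ne_of_mem_erase hh)
    have h11 : (((Finset.univ : Finset H).erase 1).card : ℝ) * (θ * z i) ≤
        (n * m) * (θ * z i) := mul_le_mul_of_nonneg_right hcR' (by positivity)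
    have h12 : (1 + (n : ℝ) * m * θ) * z i = z i + (n * m) * (θ * z i) := by ring
    linarith
  have hS3 : ((∑ h ∈ (Finset.univ : Finset H).erase 1, f i h ^ 2 : ℕ) : ℝ) ≤
      (n * m * θ ^ 2) * (z i : ℝ) ^ 2 := by
    push_cast
    have h8 : (∑ x ∈ (Finset.univ : Finset H).erase 1, (f i x : ℝ) ^ 2) ≤
        (((Finset.univ : Finset H).erase 1).card : ℝ) * (θ ^ 2 * (z i : ℝ) ^ 2) := by
      rw [← nsmul_eq_mul]
      refine Finset.sum_le_card_nsmul _ _ _ fun h hh => ?_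
      have h9 := hfR i (by omega) (by omega) h (Finset.ne_of_mem_erase hh)
      calc (f i h : ℝ) ^ 2 ≤ (θ * z i) ^ 2 := pow_le_pow_left₀ (Nat.cast_nonneg _) h9 2
        _ = θ ^ 2 * (z i : ℝ) ^ 2 := by ring
    have h11 : (((Finset.univ : Finset H).erase 1).card : ℝ) * (θ ^ 2 * (z i : ℝ) ^ 2) ≤
        (n * m) * (θ ^ 2 * (z i : ℝ) ^ 2) := mul_le_mul_of_nonneg_right hcR' (by positivity)
    have h12 : ((n : ℝ) * m) * (θ ^ 2 * (z i : ℝ) ^ 2) = (n * m * θ ^ 2) * (z i : ℝ) ^ 2 := by ring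
    linarith
  -- the relations
  have hdR : 2 * (d : ℝ) * ((1 + n * m * θ) * z i) ≤ 1 / (2 * ((i : ℝ) + 1)) * (z i : ℝ) ^ 2 := by
    have h3 : 12 * ((i : ℝ) + 1) * d ≤ z i := by exact_mod_cast h2
    have h4 : (0 : ℝ) < 2 * ((i : ℝ) + 1) := by linarith
    rw [div_mul_eq_mul_div, le_div_iff₀ h4, one_mul]
    have h5 : 1 + (n : ℝ) * m * θ ≤ 3 := by linarith
    have h6 : (0 : ℝ) ≤ d := Nat.cast_nonneg _
    calc 2 * (d : ℝ) * ((1 + n * m * θ) * z i) * (2 * ((i : ℝ) + 1))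
        = (4 * ((i : ℝ) + 1) * d * z i) * (1 + n * m * θ) := by ring
      _ ≤ (4 * ((i : ℝ) + 1) * d * z i) * 3 :=
          mul_le_mul_of_nonneg_left h5 (by positivity)
      _ = (12 * ((i : ℝ) + 1) * d) * z i := by ring
      _ ≤ z i * z i := mul_le_mul_of_nonneg_right h3 hz0
      _ = (z i : ℝ) ^ 2 := by ring
  have hfin : (((∑ h : H, f (i - 1) h * f (i + 1) h) + 2 * d * (∑ h : H, f i h) +
      ∑ h ∈ (Finset.univ : Finset H).erase 1, f i h ^ 2 : ℕ) : ℝ) ≤ ((z i ^ 2 : ℕ) : ℝ) := by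
    rw [Nat.cast_add, Nat.cast_add, Nat.cast_mul, Nat.cast_mul, Nat.cast_pow]
    have h5 : ((2 : ℕ) : ℝ) * (d : ℝ) * ((∑ h : H, f i h : ℕ) : ℝ) ≤
        2 * (d : ℝ) * ((1 + n * m * θ) * z i) := by
      rw [Nat.cast_ofNat]
      exact mul_le_mul_of_nonneg_left hS2 (by positivity)
    have h6 : ((i : ℝ) * ((n : ℝ) - i) / (((i : ℝ) + 1) * ((n : ℝ) - i + 1)) +
        2 * (n * m * θ ^ 2) + 1 / (2 * ((i : ℝ) + 1))) * (z i : ℝ) ^ 2 ≤ 1 * (z i : ℝ) ^ 2 :=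
      mul_le_mul_of_nonneg_right hN2 (by positivity)
    linarith
  rw [hf, hz] at hfin
  rw [← hd]
  exact_mod_cast hfin

theorem SK_le (hDIM : Stmt_DIM) (hCNZ : Stmt_CNZ) (hCNY : Stmt_CNY) (hNUM : Stmt_NUM)
    (hGAP : Stmt_GAP) (hFXR : Stmt_FXR) (hHCD : Stmt_HCD) (hNU4 : Stmt_NU4)
    (hASA : Stmt_ASA) (hASB : Stmt_ASB) {n m r i : ℕ}
    (H : Subgroup (G n m)) (hH : FreeOn H) (hnm : n ≤ m) (hi : 1 ≤ i) (hin : i < n)
    (hD : 9 * i ≤ (n + 1 - r) ^ 2) : SurjOn H r i := by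
  by_cases hir : i + r ≤ n
  · exact surjOn_of H (fina n m r i hnm hi hin (Or.inl hir))
  · exact hASB n m r i H (hASA n m r i H (SK_FIQ hDIM hCNZ hCNY hNUM hGAP hFXR hHCD hNU4 H hH hnm hi
      hin (by omega) hD))

theorem SK_main (hDIM : Stmt_DIM) (hCNZ : Stmt_CNZ) (hCNY : Stmt_CNY) (hNUM : Stmt_NUM)
    (hGAP : Stmt_GAP) (hFXR : Stmt_FXR) (hHCD : Stmt_HCD) (hNU4 : Stmt_NU4)
    (hASA : Stmt_ASA) (hASB : Stmt_ASB) (hTRP : Stmt_TRP) (hFSW : Stmt_FSW)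
    {n m r i : ℕ} (H : Subgroup (G n m)) (hH : FreeOn H) (hi : 1 ≤ i) (him : i < min n m)
    (h : i + r ≤ min n m ∨ 9 * i ≤ (min n m + 1 - r) ^ 2) : SurjOn H r i := by
  rcases h with h | h
  · exact surjOn_of H (lin_surj hi (by omega) (by omega) (Or.inl ⟨by omega, by omega⟩))
  · rcases le_total n m with hnm | hnm
    · rw [min_eq_left hnm] at h him
      exact SK_le hDIM hCNZ hCNY hNUM hGAP hFXR hHCD hNU4 hASA hASB H hH hnm hi him h
    · rw [min_eq_right hnm] at h him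
      refine hTRP n m r i H _ ?_ (SK_le hDIM hCNZ hCNY hNUM hGAP hFXR hHCD hNU4 hASA hASB _
        (hFSW n m H hH) hnm hi him h)
      intro g hg
      exact ⟨g, hg, rfl⟩

theorem SK_all (hDIM : Stmt_DIM) (hCNZ : Stmt_CNZ) (hCNY : Stmt_CNY) (hNUM : Stmt_NUM)
    (hGAP : Stmt_GAP) (hFXR : Stmt_FXR) (hHCD : Stmt_HCD) (hNU4 : Stmt_NU4)
    (hASA : Stmt_ASA) (hASB : Stmt_ASB) (hTRP : Stmt_TRP) (hFSW : Stmt_FSW)
    (hHSO : Stmt_HSO) (hHIL : Stmt_HIL) :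
    ∀ n m r : ℕ, 1 ≤ r →
    (∀ i : ℕ, 1 ≤ i → i < min n m → (i + r ≤ min n m ∨ 9 * i ≤ (min n m + 1 - r) ^ 2) →
      (∀ H : Subgroup (G n m), FreeOn H → HasSurjOn H r i) ∧
      hilb n m r (i - 1) * hilb n m r (i + 1) ≤ hilb n m r i ^ 2) ∧
    (r ≤ min n m → 9 * min n m ≤ (min n m + 1 - r) ^ 2 →
      (∀ H : Subgroup (G n m), FreeOn H → EquivLogConcaveOn H r) ∧
      ∀ i : ℕ, 1 ≤ i → hilb n m r (i - 1) * hilb n m r (i + 1) ≤ hilb n m r i ^ 2) := by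
  intro n m r hr
  have hbot : FreeOn (⊥ : Subgroup (G n m)) := fun g hg _ _ _ _ => Subgroup.mem_bot.1 hg
  have hA : ∀ i : ℕ, 1 ≤ i → i < min n m →
      (i + r ≤ min n m ∨ 9 * i ≤ (min n m + 1 - r) ^ 2) →
      (∀ H : Subgroup (G n m), FreeOn H → HasSurjOn H r i) ∧
      hilb n m r (i - 1) * hilb n m r (i + 1) ≤ hilb n m r i ^ 2 := by
    intro i hi him h
    have h1 : ∀ H : Subgroup (G n m), FreeOn H → SurjOn H r i := fun H hH =>
      SK_main hDIM hCNZ hCNY hNUM hGAP hFXR hHCD hNU4 hASA hASB hTRP hFSW H hH hi him h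
    exact ⟨fun H hH => hHSO n m r i H (h1 H hH), hHIL n m r i ⊥ (h1 ⊥ hbot)⟩
  refine ⟨hA, fun hrm h9 => ⟨?_, ?_⟩⟩
  · intro H hH N hN i hi hiN
    have hN' := isTop_of hN
    have h1 : N ≤ n := by
      by_contra h'
      exact hN'.1 (helper49.V_bot All.ths (by omega) (by omega))
    have h2 : N ≤ m := by
      by_contra h'
      exact hN'.1 (All.V_bot_cols (by omega))
    have him : i < min n m := by omega
    exact (hA i (by omega) him (Or.inr (by omega))).1 H hH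
  · intro i hi
    by_cases him : i < min n m
    · exact (hA i hi him (Or.inr (by omega))).2
    · have hb : V n m r (i + 1) = ⊥ := by
        rcases le_total n m with hnm | hnm
        · exact helper49.V_bot All.ths (by omega) (by omega)
        · exact All.V_bot_cols (by omega)
      have h0 : hilb n m r (i + 1) = 0 := by
        have : Module.finrank ℂ (V n m r (i + 1)) = 0 := by rw [hb]; exact finrank_bot ℂ _
        exact this
      rw [h0, mul_zero]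
      exact Nat.zero_le _

end Pool.RookLC.NL
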